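import Mathlib

/-!
Partial isometries in C*-algebras of real rank zero.
-/

namespace Pool.Agent.Lib.MP_a87542_al

open scoped CStarAlgebra

section Unital

variable {B : Type*} [CStarAlgebra B] [PartialOrder B] [StarOrderedRing B]

/-- The spectral projection of an invertible self-adjoint element for the positive half-line. -/
lemma exists_spectral_proj (Z : B) (hZ : IsSelfAdjoint Z) (hu : IsUnit Z) :
    ∃ p : B, IsSelfAdjoint p ∧ p * p = p ∧ 0 ≤ p * Z * p ∧ (p = 0 → Z ≤ 0) := by
  set g : ℝ → ℝ := fun t => max t 0 / |t| with hg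
  have h0 : ∀ t ∈ spectrum ℝ Z, t ≠ 0 := by
    rintro t ht rfl
    exact spectrum.zero_notMem ℝ hu ht
  have hc : ContinuousOn g (spectrum ℝ Z) :=
    ContinuousOn.div (by fun_prop) (by fun_prop) fun t ht => abs_ne_zero.2 (h0 t ht)
  have hgv : ∀ t : ℝ, t ≠ 0 → (0 < t ∧ g t = 1) ∨ (t < 0 ∧ g t = 0) := by
    intro t ht
    rcases lt_or_gt_of_ne ht with h | h
    · right; exact ⟨h, by simp [hg, h.le]⟩
    · left; exact ⟨h, by simp [hg, h.le, abs_of_pos h, ht]⟩
  have hid : cfc (fun t : ℝ => t) Z = Z := cfc_id' ℝ Z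
  refine ⟨cfc g Z, cfc_predicate g Z, ?_, ?_, ?_⟩
  · rw [← cfc_mul g g Z]
    refine cfc_congr fun t ht => ?_
    rcases hgv t (h0 t ht) with ⟨_, h⟩ | ⟨_, h⟩ <;> simp [h]
  · have : cfc g Z * Z * cfc g Z = cfc (fun t => g t * t * g t) Z := by
      rw [cfc_mul (fun t => g t * t) g Z, cfc_mul g (fun t => t) Z, hid]
    rw [this]
    refine cfc_nonneg fun t ht => ?_
    rcases hgv t (h0 t ht) with ⟨h1, h⟩ | ⟨_, h⟩
    · simp [h, h1.le]
    · simp [h]
  · intro hp
    have : Z = cfc (fun t => t - g t * t) Z := by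
      rw [cfc_sub (fun t => t) (fun t => g t * t) Z, cfc_mul g (fun t => t) Z, hid, hp]
      simp
    rw [this]
    refine cfc_nonpos _ _ fun t ht => ?_
    rcases hgv t (h0 t ht) with ⟨_, h⟩ | ⟨h1, h⟩
    · simp [h]
    · simp [h, h1.le]

/-- Polar decomposition relative to a projection. -/
lemma exists_polar (w p : B) (hp : IsSelfAdjoint p) (hpp : p * p = p) {c : ℝ} (hc : 0 < c)
    (h : c • p ≤ p * (star w * w) * p) : ∃ d : B, star (w * p * d) * (w * p * d) = p := by
  set a : B := p * (star w * w) * p + (1 - p) with ha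
  have hq : 0 ≤ 1 - p := by
    have : 1 - p = star (1 - p) * (1 - p) := by
      rw [star_sub, star_one, hp.star_eq]
      simp [mul_sub, sub_mul, hpp]
    rw [this]; exact star_mul_self_nonneg _
  have hp0 : 0 ≤ p := by
    have : p = star p * p := by rw [hp.star_eq, hpp]
    rw [this]; exact star_mul_self_nonneg _
  have hle : algebraMap ℝ B (min c 1) ≤ a := by
    rw [Algebra.algebraMap_eq_smul_one]
    have e : (min c 1 : ℝ) • (1 : B) = (min c 1 : ℝ) • p + (min c 1 : ℝ) • (1 - p) := by
      rw [← smul_add]; simp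
    rw [e]
    refine add_le_add (le_trans ?_ h) ?_
    · exact smul_le_smul_of_nonneg_right (min_le_left _ _) hp0
    · nth_rewrite 2 [← one_smul ℝ (1 - p)]
      exact smul_le_smul_of_nonneg_right (min_le_right _ _) hq
  have hsp : IsStrictlyPositive a :=
    IsStrictlyPositive.of_le (isStrictlyPositive_algebraMap (lt_min hc one_pos)) hle
  set b : B := a ^ (-(1 / 2) : ℝ) with hb
  have hbab : b * a * b = 1 := CFC.conjugate_rpow_neg_one_half a hsp
  have hbs : IsSelfAdjoint b := IsSelfAdjoint.of_nonneg CFC.rpow_nonneg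
  have hap : a * p = p * (star w * w) * p := by
    rw [ha, add_mul, sub_mul, one_mul, hpp, sub_self, add_zero, mul_assoc _ p p, hpp]
  have hpa : p * a = p * (star w * w) * p := by
    rw [ha, mul_add, mul_sub, mul_one, hpp, sub_self, add_zero, ← mul_assoc, ← mul_assoc, hpp]
  have hcomm : Commute a p := by rw [Commute, SemiconjBy, hap, hpa]
  have hbp : Commute b p := by
    rw [hb, CFC.rpow_def]
    exact hcomm.cfc_nnreal _
  refine ⟨b, ?_⟩
  calc star (w * p * b) * (w * p * b) = b * (p * (star w * w) * p) * b := by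
        simp only [star_mul, hp.star_eq, hbs.star_eq, mul_assoc]
    _ = b * a * (p * b) := by rw [← hap]; simp only [mul_assoc]
    _ = b * a * b * p := by rw [← hbp.eq]; simp only [mul_assoc]
    _ = p := by rw [hbab, one_mul]

end Unital

section NonUnital

variable {A : Type*} [NonUnitalCStarAlgebra A]

/-- Real rank zero. -/
def IsRR0 (A : Type*) [NonUnitalCStarAlgebra A] : Prop :=
  ∀ x : Unitization ℂ A, IsSelfAdjoint x → ∀ ε : ℝ, 0 < ε →
    ∃ y : Unitization ℂ A, IsSelfAdjoint y ∧ IsUnit y ∧ ‖x - y‖ < ε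

variable [PartialOrder A] [StarOrderedRing A]

lemma exists_proj_of_pos (hA : IsRR0 A) (y : A) (hy : 0 ≤ y) (hy0 : y ≠ 0) :
    ∃ (p : A⁺¹) (c : ℝ), IsSelfAdjoint p ∧ p * p = p ∧ p ≠ 0 ∧ p.fst = 0 ∧ 0 < c ∧
      c • p ≤ p * (y : A⁺¹) * p := by
  set Y : A⁺¹ := (y : A⁺¹) with hY
  have hY0 : 0 ≤ Y := Unitization.inr_nonneg_iff.2 hy
  have hYs : IsSelfAdjoint Y := .of_nonneg hY0
  have hn : 0 < ‖Y‖ := by rw [hY, Unitization.norm_inr]; exact norm_pos_iff.2 hy0
  set δ : ℝ := ‖Y‖ / 2 with hδ
  have hδs : IsSelfAdjoint (algebraMap ℝ A⁺¹ δ) := by cfc_tac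
  obtain ⟨Z, hZ, hu, hd⟩ := hA (Y - algebraMap ℝ A⁺¹ δ) (hYs.sub hδs) (‖Y‖ / 4) (by positivity)
  set D := Y - algebraMap ℝ A⁺¹ δ - Z with hD
  have hDs : IsSelfAdjoint D := (hYs.sub hδs).sub hZ
  obtain ⟨p, hp, hpp, hpos, hz⟩ := exists_spectral_proj Z hZ hu
  have hYeq : Y = D + algebraMap ℝ A⁺¹ δ + Z := by rw [hD]; abel
  refine ⟨p, δ - ‖D‖, hp, hpp, ?_, ?_, by linarith, ?_⟩
  · intro h0
    have h1 : Y ≤ algebraMap ℝ A⁺¹ (‖D‖ + δ) := by
      rw [hYeq, map_add]
      have := add_le_add (add_le_add hDs.le_algebraMap_norm_self (le_refl (algebraMap ℝ A⁺¹ δ)))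
        (hz h0)
      simpa using this
    rw [← CStarAlgebra.norm_le_iff_le_algebraMap Y (by positivity) hY0] at h1
    linarith
  · by_contra hne
    have h1 : p.fst * p.fst = p.fst := by rw [← Unitization.fst_mul, hpp]
    have h2 : p.fst = 1 := by
      have := mul_left_cancel₀ hne (h1.trans (mul_one _).symm)
      exact this
    obtain ⟨c, hc⟩ := CStarAlgebra.nonneg_iff_eq_star_mul_self.1 hpos
    have h3 : Z.fst = star c.fst * c.fst := by
      have := congrArg (fun x : A⁺¹ => x.fst) hc
      simpa [h2] using this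
    have h4 : 0 ≤ Z.fst.re := by
      rw [h3, Complex.star_def, Complex.conj_mul']
      norm_cast
      positivity
    have h5 : D.fst = -(δ : ℂ) - Z.fst := by
      have := congrArg (fun x : A⁺¹ => x.fst) hYeq
      simp only [hY, Algebra.algebraMap_eq_smul_one, Unitization.fst_add, Unitization.fst_inr,
        Unitization.fst_smul, Unitization.fst_one, Complex.real_smul, mul_one] at this
      linear_combination -this
    have h6 : ‖D.fst‖ ≤ ‖D‖ := by rw [Unitization.norm_eq_sup]; exact le_max_left _ _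
    have h7 : |D.fst.re| ≤ ‖D.fst‖ := Complex.abs_re_le_norm _
    have h8 : D.fst.re = -δ - Z.fst.re := by rw [h5]; simp
    have := neg_abs_le D.fst.re
    linarith
  · have h1 : p * (-algebraMap ℝ A⁺¹ ‖D‖) * p ≤ p * D * p :=
      hp.conjugate_le_conjugate hDs.neg_algebraMap_norm_le_self
    have h2 : p * Y * p = p * D * p + δ • p + p * Z * p := by
      rw [hYeq, Algebra.algebraMap_eq_smul_one]
      simp [mul_add, add_mul, hpp]
    have h3 : p * (-algebraMap ℝ A⁺¹ ‖D‖) * p = -(‖D‖ • p) := by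
      rw [Algebra.algebraMap_eq_smul_one]
      simp [hpp]
    rw [h2, sub_smul]
    rw [h3] at h1
    have := add_le_add (add_le_add h1 (le_refl (δ • p))) hpos
    rw [add_zero] at this
    refine le_trans (le_of_eq ?_) this
    abel

/-- Key lemma: two partial isometries with the same non-zero source projection. -/
lemma exists_pi (hA : IsRR0 A) (w w' : A) (hw : w ≠ 0) (hle : star w * w ≤ star w' * w') :
    ∃ c c' : A, star (w * c) * (w * c) ≠ 0 ∧
      star (w * c) * (w * c) * (star (w * c) * (w * c)) = star (w * c) * (w * c) ∧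
      star (w' * c') * (w' * c') = star (w * c) * (w * c) := by
  obtain ⟨p, c, hp, hpp, hp0, hf, hc, h⟩ := exists_proj_of_pos hA (star w * w)
    (star_mul_self_nonneg w) (by rwa [Ne, CStarRing.star_mul_self_eq_zero_iff])
  have hle' : ((star w * w : A) : A⁺¹) ≤ ((star w' * w' : A) : A⁺¹) :=
    (Unitization.inr_le_iff _ _ (IsSelfAdjoint.star_mul_self w)
      (IsSelfAdjoint.star_mul_self w')).2 hle
  have h' := h.trans (hp.conjugate_le_conjugate hle')
  rw [Unitization.inr_mul, Unitization.inr_star] at h h'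
  obtain ⟨d, hd⟩ := exists_polar (w : A⁺¹) p hp hpp hc h
  obtain ⟨d', hd'⟩ := exists_polar (w' : A⁺¹) p hp hpp hc h'
  have e : ∀ x : A⁺¹, (((p * x).snd : A) : A⁺¹) = p * x := by
    intro x
    have h1 := Unitization.inl_fst_add_inr_snd_eq (p * x)
    have h2 : (p * x).fst = 0 := by simp [hf]
    rw [h2] at h1
    simpa using h1
  have k : ∀ (v : A) (x : A⁺¹), ((star (v * (p * x).snd) * (v * (p * x).snd) : A) : A⁺¹) =
      star ((v : A⁺¹) * p * x) * ((v : A⁺¹) * p * x) := by
    intro v x
    rw [Unitization.inr_mul, Unitization.inr_star, Unitization.inr_mul, e, mul_assoc (v : A⁺¹) p x]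
  refine ⟨(p * d).snd, (p * d').snd, ?_, ?_, ?_⟩
  · intro h0
    apply hp0
    rw [← hd, ← k, h0, Unitization.inr_zero]
  · apply Unitization.inr_injective (R := ℂ)
    rw [Unitization.inr_mul, k, hd, hpp]
  · apply Unitization.inr_injective (R := ℂ)
    rw [k, k, hd, hd']

omit [PartialOrder A] [StarOrderedRing A] in
/-- A partial isometry is fixed by its source projection. -/
lemma pi_mul_source {u : A} (h : star u * u * (star u * u) = star u * u) :
    u * (star u * u) = u := by
  have : star (u * (star u * u) - u) * (u * (star u * u) - u) = 0 := by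
    have hs : star (star u * u) = star u * u := by simp
    have e : star (u * (star u * u) - u) * (u * (star u * u) - u) =
        (star u * u) * (star u * u) * (star u * u) - (star u * u) * (star u * u)
          - (star u * u) * (star u * u) + star u * u := by
      simp only [star_sub, star_mul, star_star, sub_mul, mul_sub, mul_assoc]
      abel
    rw [e, h, h]; abel
  rw [CStarRing.star_mul_self_eq_zero_iff, sub_eq_zero] at this
  exact this

omit [PartialOrder A] [StarOrderedRing A] in
lemma pi_range_idem {u : A} (h : star u * u * (star u * u) = star u * u) :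
    u * star u * (u * star u) = u * star u := by
  calc u * star u * (u * star u) = u * (star u * u) * star u := by simp only [mul_assoc]
    _ = u * star u := by rw [pi_mul_source h]

/-- A non-zero projection without two orthogonal non-zero subprojections has a scalar corner. -/
lemma corner_scalar_sa (hA : IsRR0 A) {e : A} (he : star e = e) (hee : e * e = e) (he0 : e ≠ 0)
    (hmin : ∀ r s : A, star r = r → r * r = r → star s = s → s * s = s → e * r = r → e * s = s →
      r * s = 0 → r = 0 ∨ s = 0)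
    (x : A) (hx : IsSelfAdjoint x) (hex : e * x = x) : ∃ t : ℝ, x = t • e := by
  have hes : IsSelfAdjoint e := he
  have key : ∀ y : A, IsSelfAdjoint y → e * y = y → e * y⁺ = y⁺ := by
    intro y hy hey
    have hs : star y⁺ = y⁺ := (IsSelfAdjoint.of_nonneg (CFC.posPart_nonneg y)).star_eq
    have h1 : y⁺ * y⁺ = y * y⁺ := by
      nth_rewrite 3 [← CFC.posPart_sub_negPart y hy]
      rw [sub_mul, CFC.negPart_mul_posPart, sub_zero]
    have h2 : e * (y⁺ * y⁺) = y⁺ * y⁺ := by rw [h1, ← mul_assoc, hey]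
    have h3 : (y⁺ - e * y⁺) * star (y⁺ - e * y⁺) = 0 := by
      have : (y⁺ - e * y⁺) * star (y⁺ - e * y⁺) =
          y⁺ * y⁺ - y⁺ * y⁺ * e - e * (y⁺ * y⁺) + e * (y⁺ * y⁺) * e := by
        simp only [star_sub, star_mul, hs, he, sub_mul, mul_sub, mul_assoc]
        abel
      rw [this, h2]; abel
    rw [CStarRing.mul_star_self_eq_zero_iff, sub_eq_zero] at h3
    exact h3.symm
  have dich : ∀ t : ℝ, 0 ≤ x - t • e ∨ x - t • e ≤ 0 := by
    intro t
    set y := x - t • e with hy
    have hys : IsSelfAdjoint y := hx.sub ((IsSelfAdjoint.all t).smul hes)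
    have hey : e * y = y := by rw [hy, mul_sub, hex, mul_smul_comm, hee]
    by_contra hcon
    rw [not_or] at hcon
    have hp : y⁺ ≠ 0 := fun h => hcon.2 ((CFC.posPart_eq_zero_iff y hys).1 h)
    have hn : y⁻ ≠ 0 := fun h => hcon.1 ((CFC.negPart_eq_zero_iff y hys).1 h)
    have k1 := key y hys hey
    have k2 : e * y⁻ = y⁻ := by
      have := key (-y) hys.neg (by rw [mul_neg, hey])
      rwa [CFC.posPart_neg] at this
    obtain ⟨c, -, h1, h2, -⟩ := exists_pi hA y⁺ y⁺ hp le_rfl
    obtain ⟨d, -, h3, h4, -⟩ := exists_pi hA y⁻ y⁻ hn le_rfl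
    have hs : star y⁺ = y⁺ := (IsSelfAdjoint.of_nonneg (CFC.posPart_nonneg y)).star_eq
    have horth : star (y⁺ * c) * (y⁻ * d) = 0 := by
      rw [star_mul, hs, mul_assoc, ← mul_assoc y⁺, CFC.posPart_mul_negPart]; simp
    rcases hmin (y⁺ * c * star (y⁺ * c)) (y⁻ * d * star (y⁻ * d)) (by simp [mul_assoc])
      (pi_range_idem h2) (by simp [mul_assoc]) (pi_range_idem h4)
      (by rw [← mul_assoc, ← mul_assoc, k1]) (by rw [← mul_assoc, ← mul_assoc, k2])
      (by rw [mul_assoc, ← mul_assoc (star (y⁺ * c)), horth]; simp) with h | h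
    · rw [CStarRing.mul_star_self_eq_zero_iff] at h
      exact h1 (by rw [h]; simp)
    · rw [CStarRing.mul_star_self_eq_zero_iff] at h
      exact h3 (by rw [h]; simp)
  have he_nonneg : 0 ≤ e := by
    have : e = star e * e := by rw [he, hee]
    rw [this]; exact star_mul_self_nonneg _
  have hne : 0 < ‖e‖ := norm_pos_iff.2 he0
  have big : ∀ z : A, ¬ (((‖z‖ + 1) / ‖e‖) • e ≤ z) := by
    intro z hz
    have h0 : 0 ≤ ((‖z‖ + 1) / ‖e‖) • e := smul_nonneg (by positivity) he_nonneg
    have := CStarAlgebra.norm_le_norm_of_nonneg_of_le h0 hz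
    rw [norm_smul, Real.norm_of_nonneg (by positivity), div_mul_cancel₀ _ hne.ne'] at this
    linarith
  have c1 : IsClosed {t : ℝ | 0 ≤ x - t • e} := isClosed_le continuous_const (by fun_prop)
  have c2 : IsClosed {t : ℝ | x - t • e ≤ 0} := isClosed_le (by fun_prop) continuous_const
  have n1 : (Set.univ ∩ {t : ℝ | 0 ≤ x - t • e}).Nonempty := by
    refine ⟨-((‖-x‖ + 1) / ‖e‖), Set.mem_univ _, (dich _).resolve_right fun h => big (-x) ?_⟩
    rw [neg_smul, sub_neg_eq_add] at h
    exact le_neg_iff_add_nonpos_left.2 h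
  have n2 : (Set.univ ∩ {t : ℝ | x - t • e ≤ 0}).Nonempty := by
    refine ⟨(‖x‖ + 1) / ‖e‖, Set.mem_univ _, (dich _).resolve_left fun h => big x ?_⟩
    exact sub_nonneg.1 h
  obtain ⟨t, -, h1, h2⟩ := isPreconnected_closed_iff.1 isPreconnected_univ _ _ c1 c2
    (fun t _ => dich t) n1 n2
  exact ⟨t, sub_eq_zero.1 (le_antisymm h2 h1)⟩

lemma corner_scalar (hA : IsRR0 A) {e : A} (he : star e = e) (hee : e * e = e) (he0 : e ≠ 0)
    (hmin : ∀ r s : A, star r = r → r * r = r → star s = s → s * s = s → e * r = r → e * s = s →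
      r * s = 0 → r = 0 ∨ s = 0)
    (x : A) (hex : e * x = x) (hxe : x * e = x) : ∃ z : ℂ, x = z • e := by
  have hsx : e * star x = star x := by
    rw [← he, ← star_mul, hxe]
  obtain ⟨a, ha⟩ := corner_scalar_sa hA he hee he0 hmin (x + star x)
    (IsSelfAdjoint.add_star_self x) (by rw [mul_add, hex, hsx])
  obtain ⟨b, hb⟩ := corner_scalar_sa hA he hee he0 hmin (Complex.I • (x - star x))
    (by
      rw [IsSelfAdjoint, star_smul, star_sub, star_star, Complex.star_def, Complex.conj_I,
        neg_smul, ← smul_neg, neg_sub])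
    (by rw [mul_smul_comm, mul_sub, hex, hsx])
  refine ⟨(a - Complex.I * b) / 2, ?_⟩
  have h1 : x - star x = (-Complex.I * b) • e := by
    have := congrArg (fun z => (-Complex.I) • z) hb
    simp only [smul_smul, neg_mul, Complex.I_mul_I, neg_neg, one_smul] at this
    rw [this, ← Complex.coe_smul, smul_smul, neg_mul]
  have h2 : x + star x = (a : ℂ) • e := by rw [ha, Complex.coe_smul]
  have h3 : (2 : ℂ) • x = (x + star x) + (x - star x) := by rw [two_smul]; abel
  calc x = (1 / 2 : ℂ) • ((2 : ℂ) • x) := by rw [smul_smul]; norm_num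
    _ = _ := by rw [h3, h1, h2, ← add_smul, smul_smul]; congr 1; ring

end NonUnital

end Pool.Agent.Lib.MP_a87542_al
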