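import Mathlib

/-!
The monoids `V(R)` (idempotent matrices over a ring) and `V(A)` (projections in the matrix algebras
over a C*-algebra), the categories `Reg` and `RR0`, and the functors `V`.
-/

namespace Pool.Agent.Lib.MP_a87542_al

open Matrix CategoryTheory

universe u

/-! ### Rings -/

section Ring

variable {R : Type u} [NonUnitalRing R]

/-- Murray-von Neumann equivalence of square matrices over a ring: `e = x y`, `f = y x`. -/
def MvN {I J : Type} [Fintype I] [Fintype J] (e : Matrix I I R) (f : Matrix J J R) : Prop :=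
  ∃ (x : Matrix I J R) (y : Matrix J I R), x * y = e ∧ y * x = f

variable {I J K L : Type} [Fintype I] [Fintype J] [Fintype K] [Fintype L]

theorem MvN.symm {e : Matrix I I R} {f : Matrix J J R} (h : MvN e f) : MvN f e := by
  obtain ⟨x, y, h1, h2⟩ := h
  exact ⟨y, x, h2, h1⟩

theorem MvN.trans {e : Matrix I I R} {f : Matrix J J R} {g : Matrix K K R} (he : e * e = e)
    (hg : g * g = g) (h : MvN e f) (h' : MvN f g) : MvN e g := by
  obtain ⟨x, y, h1, h2⟩ := h
  obtain ⟨z, w, h3, h4⟩ := h'
  refine ⟨x * z, w * y, ?_, ?_⟩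
  · calc x * z * (w * y) = x * (z * w) * y := by simp only [Matrix.mul_assoc]
      _ = x * y * (x * y) := by rw [h3, ← h2]; simp only [Matrix.mul_assoc]
      _ = e := by rw [h1, he]
  · calc w * y * (x * z) = w * (y * x) * z := by simp only [Matrix.mul_assoc]
      _ = w * z * (w * z) := by rw [h2, ← h3]; simp only [Matrix.mul_assoc]
      _ = g := by rw [h4, hg]

theorem MvN.submatrix {e : Matrix I I R} (he : e * e = e) (σ : J ≃ I) :
    MvN (e.submatrix σ σ) e := by
  refine ⟨e.submatrix σ id, e.submatrix id σ, ?_, ?_⟩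
  · have := submatrix_mul_equiv e e σ (Equiv.refl I) σ
    simpa [he] using this
  · rw [submatrix_mul_equiv e e id σ id, he]; rfl

theorem MvN.fromBlocks {e : Matrix I I R} {f : Matrix J J R} {e' : Matrix K K R}
    {f' : Matrix L L R} (h : MvN e f) (h' : MvN e' f') :
    MvN (Matrix.fromBlocks e 0 0 e') (Matrix.fromBlocks f 0 0 f') := by
  obtain ⟨x, y, h1, h2⟩ := h
  obtain ⟨z, w, h3, h4⟩ := h'
  refine ⟨Matrix.fromBlocks x 0 0 z, Matrix.fromBlocks y 0 0 w, ?_, ?_⟩ <;>
    simp [fromBlocks_multiply, *]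

theorem idem_fromBlocks {e : Matrix I I R} {f : Matrix J J R} (he : e * e = e) (hf : f * f = f) :
    Matrix.fromBlocks e 0 0 f * Matrix.fromBlocks e 0 0 f = Matrix.fromBlocks e 0 0 f := by
  simp [fromBlocks_multiply, he, hf]

theorem idem_submatrix {e : Matrix I I R} (he : e * e = e) (σ : J ≃ I) :
    e.submatrix σ σ * e.submatrix σ σ = e.submatrix σ σ := by
  rw [submatrix_mul_equiv, he]

/-- Block-diagonal sum of square matrices. -/
def bsum {m n : ℕ} (e : Matrix (Fin m) (Fin m) R) (f : Matrix (Fin n) (Fin n) R) :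
    Matrix (Fin (m + n)) (Fin (m + n)) R :=
  (Matrix.fromBlocks e 0 0 f).submatrix finSumFinEquiv.symm finSumFinEquiv.symm

theorem bsum_idem {m n : ℕ} {e : Matrix (Fin m) (Fin m) R} {f : Matrix (Fin n) (Fin n) R}
    (he : e * e = e) (hf : f * f = f) : bsum e f * bsum e f = bsum e f :=
  idem_submatrix (idem_fromBlocks he hf) _

variable (R) in
/-- An idempotent square matrix over `R`. -/
structure Idem where
  size : ℕ
  mat : Matrix (Fin size) (Fin size) R
  idem : mat * mat = mat

/-- Block-diagonal sum of idempotent matrices. -/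
def Idem.add (e f : Idem R) : Idem R where
  size := e.size + f.size
  mat := bsum e.mat f.mat
  idem := bsum_idem e.idem f.idem

theorem Idem.add_mvn (e f : Idem R) : MvN (e.add f).mat (Matrix.fromBlocks e.mat 0 0 f.mat) :=
  MvN.submatrix (idem_fromBlocks e.idem f.idem) _

variable (R) in
/-- Murray-von Neumann equivalence of idempotent matrices. -/
def Idem.setoid : Setoid (Idem R) where
  r e f := MvN e.mat f.mat
  iseqv := ⟨fun e => ⟨e.mat, e.mat, e.idem, e.idem⟩, MvN.symm,
    fun {e _ g} h h' => MvN.trans e.idem g.idem h h'⟩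

variable (R) in
/-- `V(R)`: equivalence classes of idempotent matrices. -/
def V : Type u := Quotient (Idem.setoid R)

theorem Idem.add_congr {e e' f f' : Idem R} (h : MvN e.mat e'.mat) (h' : MvN f.mat f'.mat) :
    MvN (e.add f).mat (e'.add f').mat :=
  MvN.trans (e.add f).idem (e'.add f').idem (e.add_mvn f)
    (MvN.trans (idem_fromBlocks e.idem f.idem) (e'.add f').idem (h.fromBlocks h')
      (e'.add_mvn f').symm)

instance : Add (V R) :=
  ⟨Quotient.map₂ Idem.add fun _ _ h _ _ h' => Idem.add_congr h h'⟩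

instance : Zero (V R) := ⟨Quotient.mk _ ⟨0, 0, by simp⟩⟩

theorem V.add_assoc' (a b c : V R) : a + b + c = a + (b + c) := by
  refine Quotient.inductionOn₃ a b c fun e f g => Quotient.sound ?_
  have h1 := idem_fromBlocks (idem_fromBlocks e.idem f.idem) g.idem
  have h2 := idem_fromBlocks e.idem (idem_fromBlocks f.idem g.idem)
  have rg : MvN g.mat g.mat := ⟨_, _, g.idem, g.idem⟩
  have re : MvN e.mat e.mat := ⟨_, _, e.idem, e.idem⟩
  have a1 : MvN ((e.add f).add g).mat _ :=
    MvN.trans ((e.add f).add g).idem h1 ((e.add f).add_mvn g) ((e.add_mvn f).fromBlocks rg)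
  have a2 : MvN (e.add (f.add g)).mat _ :=
    MvN.trans (e.add (f.add g)).idem h2 (e.add_mvn (f.add g)) (re.fromBlocks (f.add_mvn g))
  have a3 := MvN.submatrix h2 (Equiv.sumAssoc _ _ _)
  have e3 : (Matrix.fromBlocks e.mat 0 0 (Matrix.fromBlocks f.mat 0 0 g.mat)).submatrix
      (Equiv.sumAssoc _ _ _) (Equiv.sumAssoc _ _ _) =
      Matrix.fromBlocks (Matrix.fromBlocks e.mat 0 0 f.mat) 0 0 g.mat := by
    ext ((i | i) | i) ((j | j) | j) <;> rfl
  rw [e3] at a3
  exact MvN.trans ((e.add f).add g).idem (e.add (f.add g)).idem a1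
    (MvN.trans h1 (e.add (f.add g)).idem a3 a2.symm)

theorem V.add_comm' (a b : V R) : a + b = b + a := by
  refine Quotient.inductionOn₂ a b fun e f => Quotient.sound ?_
  have a3 := MvN.submatrix (idem_fromBlocks f.idem e.idem) (Equiv.sumComm _ _)
  have e3 : (Matrix.fromBlocks f.mat 0 0 e.mat).submatrix (Equiv.sumComm _ _) (Equiv.sumComm _ _) =
      Matrix.fromBlocks e.mat 0 0 f.mat := by
    ext (i | i) (j | j) <;> rfl
  rw [e3] at a3
  exact MvN.trans (e.add f).idem (f.add e).idem (e.add_mvn f)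
    (MvN.trans (idem_fromBlocks e.idem f.idem) (f.add e).idem a3 (f.add_mvn e).symm)

theorem V.add_zero' (a : V R) : a + 0 = a := by
  refine Quotient.inductionOn a fun e => Quotient.sound ?_
  have a3 := MvN.submatrix e.idem (Equiv.sumEmpty (Fin e.size) (Fin 0))
  have e3 : e.mat.submatrix (Equiv.sumEmpty (Fin e.size) (Fin 0)) (Equiv.sumEmpty _ (Fin 0)) =
      Matrix.fromBlocks e.mat 0 0 (0 : Matrix (Fin 0) (Fin 0) R) := by
    ext (i | i) (j | j)
    · rfl
    · exact j.elim0
    · exact i.elim0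
    · exact i.elim0
  rw [e3] at a3
  exact MvN.trans (e.add ⟨0, 0, by simp⟩).idem e.idem (e.add_mvn ⟨0, 0, by simp⟩) a3

/-- `V(R)` is a commutative monoid under the block-diagonal sum. -/
instance : AddCommMonoid (V R) where
  add_assoc := V.add_assoc'
  add_comm := V.add_comm'
  add_zero := V.add_zero'
  zero_add a := by rw [V.add_comm', V.add_zero']
  nsmul := nsmulRec

variable {S : Type u} [NonUnitalRing S]

theorem MvN.map (φ : R →ₙ+* S) {e : Matrix I I R} {f : Matrix J J R} (h : MvN e f) :
    MvN (e.map φ) (f.map φ) := by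
  obtain ⟨x, y, h1, h2⟩ := h
  exact ⟨x.map φ, y.map φ, by rw [← Matrix.map_mul, h1], by rw [← Matrix.map_mul, h2]⟩

omit [Fintype I] [Fintype J] [Fintype K] in
theorem map_blocks (φ : R → S) (h0 : φ 0 = 0) (e : Matrix I I R) (f : Matrix J J R)
    (σ : K → I ⊕ J) : ((Matrix.fromBlocks e 0 0 f).submatrix σ σ).map φ =
      (Matrix.fromBlocks (e.map φ) 0 0 (f.map φ)).submatrix σ σ := by
  ext i j
  simp only [map_apply, submatrix_apply]
  rcases σ i with i | i <;> rcases σ j with j | j <;> simp [h0]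

/-- Entrywise image of an idempotent matrix. -/
def Idem.map (φ : R →ₙ+* S) (e : Idem R) : Idem S where
  size := e.size
  mat := e.mat.map φ
  idem := by rw [← Matrix.map_mul, e.idem]

/-- The monoid homomorphism `V(φ)`. -/
def V.map (φ : R →ₙ+* S) : V R →+ V S where
  toFun := Quotient.map (Idem.map φ) fun _ _ h => MvN.map φ h
  map_zero' := Quotient.sound ⟨0, 0, by ext i; exact i.elim0, by ext i; exact i.elim0⟩
  map_add' a b := by
    refine Quotient.inductionOn₂ a b fun e f => congrArg (Quotient.mk _) ?_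
    simp only [Idem.map, Idem.add, Idem.mk.injEq, heq_eq_eq, true_and]
    exact map_blocks φ (map_zero φ) _ _ _

end Ring

/-- Von Neumann regular rings, not necessarily unital. -/
structure Reg where
  carrier : Type u
  [ring : NonUnitalRing carrier]
  regular : ∀ a : carrier, ∃ x : carrier, a * x * a = a

attribute [instance] Reg.ring

/-- The category `Reg`: the morphisms are the (not necessarily unital) ring homomorphisms. -/
instance : Category Reg.{u} where
  Hom R S := R.carrier →ₙ+* S.carrier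
  id R := NonUnitalRingHom.id R.carrier
  comp φ ψ := NonUnitalRingHom.comp ψ φ

/-- The functor `V` on `Reg`. -/
def VReg : Reg.{u} ⥤ AddCommMonCat.{u} where
  obj R := AddCommMonCat.of (V R.carrier)
  map φ := AddCommMonCat.ofHom (V.map φ)
  map_id R := by
    ext a
    exact Quotient.inductionOn a fun _ => rfl
  map_comp φ ψ := by
    ext a
    exact Quotient.inductionOn a fun _ => rfl

/-! ### C*-algebras -/

section Star

variable {A : Type u} [NonUnitalRing A] [StarRing A]

/-- Murray-von Neumann equivalence of square matrices over a star ring: `p = v* v`, `q = v v*`. -/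
def MvNs {I J : Type} [Fintype I] [Fintype J] (p : Matrix I I A) (q : Matrix J J A) : Prop :=
  ∃ v : Matrix J I A, vᴴ * v = p ∧ v * vᴴ = q

variable {I J K L : Type} [Fintype I] [Fintype J] [Fintype K] [Fintype L]

theorem MvNs.symm {e : Matrix I I A} {f : Matrix J J A} (h : MvNs e f) : MvNs f e := by
  obtain ⟨x, h1, h2⟩ := h
  exact ⟨xᴴ, by simpa using h2, by simpa using h1⟩

theorem MvNs.trans {e : Matrix I I A} {f : Matrix J J A} {g : Matrix K K A} (he : e * e = e)
    (hg : g * g = g) (h : MvNs e f) (h' : MvNs f g) : MvNs e g := by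
  obtain ⟨v, h1, h2⟩ := h
  obtain ⟨w, h3, h4⟩ := h'
  refine ⟨w * v, ?_, ?_⟩
  · calc (w * v)ᴴ * (w * v) = vᴴ * (wᴴ * w) * v := by
          simp only [conjTranspose_mul, Matrix.mul_assoc]
      _ = vᴴ * v * (vᴴ * v) := by rw [h3, ← h2]; simp only [Matrix.mul_assoc]
      _ = e := by rw [h1, he]
  · calc w * v * (w * v)ᴴ = w * (v * vᴴ) * wᴴ := by
          simp only [conjTranspose_mul, Matrix.mul_assoc]
      _ = w * wᴴ * (w * wᴴ) := by rw [h2, ← h3]; simp only [Matrix.mul_assoc]
      _ = g := by rw [h4, hg]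

theorem MvNs.submatrix {e : Matrix I I A} (he : e * e = e) (hs : eᴴ = e) (σ : J ≃ I) :
    MvNs (e.submatrix σ σ) e := by
  refine ⟨e.submatrix id σ, ?_, ?_⟩
  · rw [conjTranspose_submatrix, hs]
    have := submatrix_mul_equiv e e σ (Equiv.refl I) σ
    simpa [he] using this
  · rw [conjTranspose_submatrix, hs, submatrix_mul_equiv e e id σ id, he]; rfl

theorem MvNs.fromBlocks {e : Matrix I I A} {f : Matrix J J A} {e' : Matrix K K A}
    {f' : Matrix L L A} (h : MvNs e f) (h' : MvNs e' f') :
    MvNs (Matrix.fromBlocks e 0 0 e') (Matrix.fromBlocks f 0 0 f') := by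
  obtain ⟨x, h1, h2⟩ := h
  obtain ⟨z, h3, h4⟩ := h'
  refine ⟨Matrix.fromBlocks x 0 0 z, ?_, ?_⟩ <;>
    simp [fromBlocks_conjTranspose, fromBlocks_multiply, *]

omit [Fintype I] [Fintype J] in
theorem herm_fromBlocks {e : Matrix I I A} {f : Matrix J J A} (he : eᴴ = e) (hf : fᴴ = f) :
    (Matrix.fromBlocks e 0 0 f)ᴴ = Matrix.fromBlocks e 0 0 f := by
  simp [fromBlocks_conjTranspose, he, hf]

variable (A) in
/-- A projection (self-adjoint idempotent) in a matrix algebra over `A`. -/
structure Proj where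
  size : ℕ
  mat : Matrix (Fin size) (Fin size) A
  idem : mat * mat = mat
  herm : matᴴ = mat

/-- Block-diagonal sum of projections. -/
def Proj.add (e f : Proj A) : Proj A where
  size := e.size + f.size
  mat := bsum e.mat f.mat
  idem := bsum_idem e.idem f.idem
  herm := by rw [bsum, conjTranspose_submatrix, herm_fromBlocks e.herm f.herm]

theorem Proj.add_mvn (e f : Proj A) : MvNs (e.add f).mat (Matrix.fromBlocks e.mat 0 0 f.mat) :=
  MvNs.submatrix (idem_fromBlocks e.idem f.idem) (herm_fromBlocks e.herm f.herm) _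

theorem Proj.mvn_refl (e : Proj A) : MvNs e.mat e.mat :=
  ⟨e.mat, by rw [e.herm, e.idem], by rw [e.herm, e.idem]⟩

variable (A) in
/-- Murray-von Neumann equivalence of projections. -/
def Proj.setoid : Setoid (Proj A) where
  r e f := MvNs e.mat f.mat
  iseqv := ⟨Proj.mvn_refl, MvNs.symm, fun {e _ g} h h' => MvNs.trans e.idem g.idem h h'⟩

variable (A) in
/-- `V(A)`: equivalence classes of projections in the matrix algebras over `A`. -/
def Vs : Type u := Quotient (Proj.setoid A)

theorem Proj.add_congr {e e' f f' : Proj A} (h : MvNs e.mat e'.mat) (h' : MvNs f.mat f'.mat) :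
    MvNs (e.add f).mat (e'.add f').mat :=
  MvNs.trans (e.add f).idem (e'.add f').idem (e.add_mvn f)
    (MvNs.trans (idem_fromBlocks e.idem f.idem) (e'.add f').idem (h.fromBlocks h')
      (e'.add_mvn f').symm)

instance : Add (Vs A) :=
  ⟨Quotient.map₂ Proj.add fun _ _ h _ _ h' => Proj.add_congr h h'⟩

instance : Zero (Vs A) := ⟨Quotient.mk _ ⟨0, 0, by simp, by simp⟩⟩

theorem Vs.add_assoc' (a b c : Vs A) : a + b + c = a + (b + c) := by
  refine Quotient.inductionOn₃ a b c fun e f g => Quotient.sound ?_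
  have h1 := idem_fromBlocks (idem_fromBlocks e.idem f.idem) g.idem
  have h2 := idem_fromBlocks e.idem (idem_fromBlocks f.idem g.idem)
  have a1 : MvNs ((e.add f).add g).mat _ :=
    MvNs.trans ((e.add f).add g).idem h1 ((e.add f).add_mvn g)
      ((e.add_mvn f).fromBlocks g.mvn_refl)
  have a2 : MvNs (e.add (f.add g)).mat _ :=
    MvNs.trans (e.add (f.add g)).idem h2 (e.add_mvn (f.add g))
      (e.mvn_refl.fromBlocks (f.add_mvn g))
  have a3 := MvNs.submatrix h2 (herm_fromBlocks e.herm (herm_fromBlocks f.herm g.herm))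
    (Equiv.sumAssoc _ _ _)
  have e3 : (Matrix.fromBlocks e.mat 0 0 (Matrix.fromBlocks f.mat 0 0 g.mat)).submatrix
      (Equiv.sumAssoc _ _ _) (Equiv.sumAssoc _ _ _) =
      Matrix.fromBlocks (Matrix.fromBlocks e.mat 0 0 f.mat) 0 0 g.mat := by
    ext ((i | i) | i) ((j | j) | j) <;> rfl
  rw [e3] at a3
  exact MvNs.trans ((e.add f).add g).idem (e.add (f.add g)).idem a1
    (MvNs.trans h1 (e.add (f.add g)).idem a3 a2.symm)

theorem Vs.add_comm' (a b : Vs A) : a + b = b + a := by
  refine Quotient.inductionOn₂ a b fun e f => Quotient.sound ?_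
  have a3 := MvNs.submatrix (idem_fromBlocks f.idem e.idem) (herm_fromBlocks f.herm e.herm)
    (Equiv.sumComm _ _)
  have e3 : (Matrix.fromBlocks f.mat 0 0 e.mat).submatrix (Equiv.sumComm _ _) (Equiv.sumComm _ _) =
      Matrix.fromBlocks e.mat 0 0 f.mat := by
    ext (i | i) (j | j) <;> rfl
  rw [e3] at a3
  exact MvNs.trans (e.add f).idem (f.add e).idem (e.add_mvn f)
    (MvNs.trans (idem_fromBlocks e.idem f.idem) (f.add e).idem a3 (f.add_mvn e).symm)

theorem Vs.add_zero' (a : Vs A) : a + 0 = a := by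
  refine Quotient.inductionOn a fun e => Quotient.sound ?_
  have a3 := MvNs.submatrix e.idem e.herm (Equiv.sumEmpty (Fin e.size) (Fin 0))
  have e3 : e.mat.submatrix (Equiv.sumEmpty (Fin e.size) (Fin 0)) (Equiv.sumEmpty _ (Fin 0)) =
      Matrix.fromBlocks e.mat 0 0 (0 : Matrix (Fin 0) (Fin 0) A) := by
    ext (i | i) (j | j)
    · rfl
    · exact j.elim0
    · exact i.elim0
    · exact i.elim0
  rw [e3] at a3
  exact MvNs.trans (e.add ⟨0, 0, by simp, by simp⟩).idem e.idem
    (e.add_mvn ⟨0, 0, by simp, by simp⟩) a3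

/-- `V(A)` is a commutative monoid under the block-diagonal sum. -/
instance : AddCommMonoid (Vs A) where
  add_assoc := Vs.add_assoc'
  add_comm := Vs.add_comm'
  add_zero := Vs.add_zero'
  zero_add a := by rw [Vs.add_comm', Vs.add_zero']
  nsmul := nsmulRec

variable {B : Type u} [NonUnitalRing B] [StarRing B]

theorem MvNs.map (φ : A →⋆ₙ+* B) {e : Matrix I I A} {f : Matrix J J A} (h : MvNs e f) :
    MvNs (e.map φ) (f.map φ) := by
  obtain ⟨x, h1, h2⟩ := h
  exact ⟨x.map φ,
    by rw [← conjTranspose_map φ (fun a => map_star φ a), ← Matrix.map_mul, h1],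
    by rw [← conjTranspose_map φ (fun a => map_star φ a), ← Matrix.map_mul, h2]⟩

/-- Entrywise image of a square matrix. -/
def mapMat (φ : A →⋆ₙ+* B) {n : ℕ} (e : Matrix (Fin n) (Fin n) A) : Matrix (Fin n) (Fin n) B :=
  e.map φ

/-- Entrywise image of a projection. -/
def Proj.map (φ : A →⋆ₙ+* B) (e : Proj A) : Proj B where
  size := e.size
  mat := mapMat φ e.mat
  idem := by rw [mapMat, ← Matrix.map_mul, e.idem]
  herm := by rw [mapMat, ← conjTranspose_map φ (fun a => map_star φ a), e.herm]

/-- The monoid homomorphism `V(φ)`. -/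
def Vs.map (φ : A →⋆ₙ+* B) : Vs A →+ Vs B where
  toFun := Quotient.map (Proj.map φ) fun _ _ h => MvNs.map φ h
  map_zero' := Quotient.sound ⟨0, by ext i; exact i.elim0, by ext i; exact i.elim0⟩
  map_add' a b := by
    refine Quotient.inductionOn₂ a b fun e f => congrArg (Quotient.mk _) ?_
    simp only [Proj.map, Proj.add, Proj.mk.injEq, heq_eq_eq, true_and]
    exact map_blocks φ (map_zero φ) _ _ _

end Star

/-- C*-algebras (not necessarily unital) of real rank zero: the invertible self-adjoint elements are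
dense in the self-adjoint elements of the unitization. -/
structure RR0 where
  carrier : Type u
  [alg : NonUnitalCStarAlgebra carrier]
  rr0 : ∀ x : Unitization ℂ carrier, IsSelfAdjoint x → ∀ ε : ℝ, 0 < ε →
    ∃ y : Unitization ℂ carrier, IsSelfAdjoint y ∧ IsUnit y ∧ ‖x - y‖ < ε

attribute [instance] RR0.alg

/-- Star-homomorphisms. -/
def RR0.Hom (A B : RR0.{u}) : Type u := A.carrier →⋆ₙₐ[ℂ] B.carrier

/-- The identity star-homomorphism. -/
noncomputable def RR0.id (A : RR0.{u}) : RR0.Hom A A := NonUnitalStarAlgHom.id ℂ A.carrier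

/-- Composition of star-homomorphisms. -/
noncomputable def RR0.comp {A B C : RR0.{u}} (φ : RR0.Hom A B) (ψ : RR0.Hom B C) : RR0.Hom A C :=
  NonUnitalStarAlgHom.comp ψ φ

/-- The category `RR0`: the morphisms are the star-homomorphisms. -/
noncomputable instance : Category RR0.{u} where
  Hom := RR0.Hom
  id := RR0.id
  comp := RR0.comp
  id_comp _ := rfl
  comp_id _ := rfl
  assoc _ _ _ := rfl

/-- The underlying homomorphism of star rings. -/
noncomputable def RR0.Hom.toStar {A B : RR0.{u}} (φ : RR0.Hom A B) : A.carrier →⋆ₙ+* B.carrier :=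
  NonUnitalStarRingHomClass.toNonUnitalStarRingHom (F := A.carrier →⋆ₙₐ[ℂ] B.carrier) φ

/-- The monoid `V(A)`. -/
noncomputable def RR0.V (A : RR0.{u}) : AddCommMonCat.{u} := AddCommMonCat.of (Vs A.carrier)

/-- The monoid homomorphism `V(φ)`. -/
noncomputable def RR0.Vmap {A B : RR0.{u}} (φ : RR0.Hom A B) : A.V ⟶ B.V :=
  AddCommMonCat.ofHom (Vs.map φ.toStar)

/-- The functor `V` on `RR0`. -/
noncomputable def VRR0 : RR0.{u} ⥤ AddCommMonCat.{u} where
  obj := RR0.V
  map := RR0.Vmap
  map_id R := by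
    ext a
    exact Quotient.inductionOn a fun _ => rfl
  map_comp φ ψ := by
    ext a
    exact Quotient.inductionOn a fun _ => rfl

/-- A monoid is simplicial if it is isomorphic to some `ℕ^n`. -/
def Simplicial (M : AddCommMonCat.{u}) : Prop := ∃ n : ℕ, Nonempty (M ≃+ (Fin n → ℕ))

/-- All the rings of the diagram have a unit, and all its maps preserve the units. -/
def Unital {P : Type} [Category.{0} P] (R : P ⥤ Reg.{u}) : Prop :=
  ∃ one : ∀ p, (R.obj p).carrier, (∀ p x, one p * x = x ∧ x * one p = x) ∧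
    ∀ (p q : P) (h : p ⟶ q),
      (show (R.obj p).carrier →ₙ+* (R.obj q).carrier from R.map h) (one p) = one q

end Pool.Agent.Lib.MP_a87542_al
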