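import Pool.Agent.Lib.MP_a87542_al.RingV

/-!
The diagram of regular rings attached to a family of rank one idempotent `3 × 3` matrices.
-/

namespace Pool.Agent.Lib.MP_a87542_al

open Matrix CategoryTheory

universe u

variable {K : Type u} [Field K]

theorem struct_adjoin {B : Type u} [Ring B] [Algebra K B] {κ : Type} [Fintype κ] [DecidableEq κ]
    (g : κ → B) (hg : ∀ i, g i * g i = g i) (horth : ∀ i j, i ≠ j → g i * g j = 0)
    (hsum : ∑ i, g i = 1) (A : Set B) (hA : A ⊆ Set.range g) (S : Subalgebra K B)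
    (hS : S = Algebra.adjoin K A) (hmem : ∀ i, g i ∈ S) :
    (∀ a : S, ∃ x : S, a * x * a = a) ∧
      ∃ φ : V S ≃+ ({i // g i ≠ 0} → ℕ), ∀ i (h : g i ≠ 0),
        φ (c1 ⟨g i, hmem i⟩ (Subtype.ext (hg i))) = Pi.single ⟨i, h⟩ 1 := by
  classical
  subst hS
  have hmul : ∀ (a : κ → K) (j : κ), (∑ i, a i • g i) * g j = a j • g j := by
    intro a j
    rw [Finset.sum_mul, Finset.sum_eq_single j]
    · rw [smul_mul_assoc, hg]
    · intro i _ hi; rw [smul_mul_assoc, horth i j hi, smul_zero]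
    · simp
  have hres : ∀ a : κ → K, ∑ i : {i // g i ≠ 0}, a i.1 • g i.1 = ∑ i, a i • g i := by
    intro a
    rw [← Finset.sum_subtype (Finset.univ.filter fun i => g i ≠ 0) (by simp)
      (fun i => a i • g i)]
    refine Finset.sum_filter_of_ne fun i _ h h' => h (by rw [h', smul_zero])
  have hspan : ∀ t ∈ Algebra.adjoin K A, ∃ a : κ → K, t = ∑ i, a i • g i := by
    intro t ht
    induction ht using Algebra.adjoin_induction with
    | mem x hx =>
      obtain ⟨j, rfl⟩ := hA hx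
      exact ⟨Pi.single j 1, by simp [Pi.single_apply]⟩
    | algebraMap r =>
      exact ⟨fun _ => r, by rw [← Finset.smul_sum, hsum, Algebra.algebraMap_eq_smul_one]⟩
    | add x y _ _ hx hy =>
      obtain ⟨a, rfl⟩ := hx
      obtain ⟨b, rfl⟩ := hy
      exact ⟨a + b, by simp [add_smul, Finset.sum_add_distrib]⟩
    | mul x y _ _ hx hy =>
      obtain ⟨a, rfl⟩ := hx
      obtain ⟨b, rfl⟩ := hy
      refine ⟨a * b, ?_⟩
      rw [Finset.mul_sum]
      refine Finset.sum_congr rfl fun j _ => ?_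
      rw [mul_smul_comm, hmul, smul_smul, Pi.mul_apply, mul_comm]
  obtain ⟨h1, φ, h2⟩ := struct_of_idem (K := K) (T := Algebra.adjoin K A)
    (fun i : {i // g i ≠ 0} => ⟨g i.1, hmem i.1⟩) (fun i => Subtype.ext (hg i.1))
    (fun i j h => Subtype.ext (horth i.1 j.1 fun h' => h (Subtype.ext h')))
    (Subtype.ext (by
      have := hres fun _ => 1
      simp only [one_smul] at this
      rw [AddSubmonoidClass.coe_finsetSum, this, hsum]; rfl))
    (fun i h => i.2 (congrArg Subtype.val h))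
    (fun t => by
      obtain ⟨a, ha⟩ := hspan t.1 t.2
      refine ⟨fun i => a i.1, Subtype.ext ?_⟩
      rw [AddSubmonoidClass.coe_finsetSum, ha, ← hres]; rfl)
  exact ⟨h1, φ, fun i h => h2 ⟨i, h⟩⟩

/-- The inclusion of subalgebras. -/
def incl {B : Type u} [Ring B] [Algebra K B] {S T : Subalgebra K B} (h : S ≤ T) : S →ₙ+* T where
  toFun a := ⟨a.1, h a.2⟩
  map_mul' _ _ := rfl
  map_zero' := rfl
  map_add' _ _ := rfl

/-- A monotone family of regular subalgebras as a diagram of regular rings. -/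
def subDiagram {B : Type u} [Ring B] [Algebra K B] {P : Type} [Preorder P]
    (S : P → Subalgebra K B) (hS : ∀ p q, p ≤ q → S p ≤ S q)
    (hr : ∀ p, ∀ a : S p, ∃ b : S p, a * b * a = a) : P ⥤ Reg.{u} where
  obj p := ⟨S p, hr p⟩
  map h := incl (hS _ _ (leOfHom h))
  map_id _ := NonUnitalRingHom.ext fun _ => rfl
  map_comp _ _ := NonUnitalRingHom.ext fun _ => rfl

lemma subDiagram_unital {B : Type u} [Ring B] [Algebra K B] {P : Type} [Preorder P]
    (S : P → Subalgebra K B) (hS : ∀ p q, p ≤ q → S p ≤ S q)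
    (hr : ∀ p, ∀ a : S p, ∃ b : S p, a * b * a = a) :
    ∃ one : ∀ p, ((subDiagram S hS hr).obj p).carrier,
      (∀ p x, one p * x = x ∧ x * one p = x) ∧
      ∀ (p q : P) (h : p ⟶ q), (show ((subDiagram S hS hr).obj p).carrier →ₙ+*
        ((subDiagram S hS hr).obj q).carrier from (subDiagram S hS hr).map h) (one p) = one q :=
  ⟨fun p => (1 : S p), fun p (x : S p) => ⟨one_mul x, mul_one x⟩, fun _ _ _ => rfl⟩

lemma one_idem {B : Type u} [Ring B] [Algebra K B] (S : Subalgebra K B) : (1 : S) * 1 = 1 :=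
  one_mul _

variable {W : Type} (x y : W → Fin 3 → K)

/-- Orthogonality of the rank one idempotents. -/
def Adj (u v : W) : Prop := y u ⬝ᵥ x v = 0 ∧ y v ⬝ᵥ x u = 0

/-- The index lattice: the cliques and the whole vertex set. -/
structure Pt : Type where
  val : Set W
  property : val = Set.univ ∨ val.Pairwise (Adj x y)

lemma Pt.val_injective : Function.Injective (Pt.val : Pt x y → Set W) := by
  rintro ⟨a, _⟩ ⟨b, _⟩ rfl; rfl

instance : PartialOrder (Pt x y) := PartialOrder.lift Pt.val (Pt.val_injective x y)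

instance : InfSet (Pt x y) where
  sInf S := ⟨⋂ s ∈ S, s.1, by
    by_cases h : ∀ s ∈ S, s.1 = Set.univ
    · exact Or.inl (Set.eq_univ_of_forall fun v => Set.mem_iInter₂.2 fun s hs => by
        rw [h s hs]; trivial)
    · push Not at h
      obtain ⟨s, hs, hs'⟩ := h
      exact Or.inr ((s.2.resolve_left hs').mono (Set.biInter_subset_of_mem hs))⟩

instance : CompleteLattice (Pt x y) :=
  completeLatticeOfInf _ fun _ => ⟨fun _ hs => Set.biInter_subset_of_mem hs,
    fun _ ht => Set.subset_iInter₂ fun _ hs => ht hs⟩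

instance [Finite W] : Finite (Pt x y) := Finite.of_injective _ (Pt.val_injective x y)

/-- The rank one idempotents. -/
def ev (v : W) : Matrix (Fin 3) (Fin 3) K := vecMulVec (x v) (y v)

/-- The subalgebras. -/
def Rs (s : Pt x y) : Subalgebra K (Matrix (Fin 3) (Fin 3) K) :=
  Algebra.adjoin K ({_m | s.1 = Set.univ} ∪ ev x y '' s.1)

lemma Rs_mono {s t : Pt x y} (h : s ≤ t) : Rs x y s ≤ Rs x y t :=
  Algebra.adjoin_mono (Set.union_subset_union
    (fun _ (hm : s.1 = Set.univ) => Set.eq_univ_of_univ_subset (hm.symm.subset.trans h))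
    (Set.image_mono h))

lemma ev_mem {s : Pt x y} {v : W} (h : v ∈ s.1) : ev x y v ∈ Rs x y s :=
  Algebra.subset_adjoin (Or.inr ⟨v, h, rfl⟩)

variable {x y}

lemma ev_idem (hxy : ∀ v, y v ⬝ᵥ x v = 1) (v : W) : ev x y v * ev x y v = ev x y v := by
  rw [ev, vecMulVec_mul_vecMulVec, hxy, one_smul]

lemma ev_orth {u v : W} (h : Adj x y u v) : ev x y u * ev x y v = 0 := by
  rw [ev, ev, vecMulVec_mul_vecMulVec, h.1, zero_smul, vecMulVec_zero]

lemma ev_ne (hxy : ∀ v, y v ⬝ᵥ x v = 1) (v : W) : ev x y v ≠ 0 := by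
  intro h
  have := congrArg (fun m => y v ⬝ᵥ (m *ᵥ x v)) h
  simp [ev, vecMulVec_mulVec, hxy] at this

lemma Rs_top (s : Pt x y) (hs : s.1 = Set.univ) : ∃ φ : V (Rs x y s) ≃+ V (Matrix (Fin 3) (Fin 3) K),
    (∀ a : Rs x y s, ∃ b : Rs x y s, a * b * a = a) ∧
    ∀ (a : Rs x y s) (ha : a * a = a), φ (c1 a ha) = c1 a.1 (congrArg Subtype.val ha) := by
  have hm : ∀ m, m ∈ Rs x y s := fun m => Algebra.subset_adjoin (Or.inl hs)
  let e : Rs x y s ≃+* Matrix (Fin 3) (Fin 3) K := RingEquiv.ofBijective (Rs x y s).val.toRingHom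
    ⟨Subtype.val_injective, fun m => ⟨⟨m, hm m⟩, rfl⟩⟩
  refine ⟨AddEquiv.ofBijective _ (V.map_bijective e), fun a => ?_, fun a ha => rfl⟩
  obtain ⟨b, hb⟩ := matrix_regular a.1
  exact ⟨⟨b, hm b⟩, Subtype.ext hb⟩

lemma Rs_clique [Finite W] (hxy : ∀ v, y v ⬝ᵥ x v = 1) (s : Pt x y) (hs : s.1 ≠ Set.univ) :
    (∀ a : Rs x y s, ∃ b : Rs x y s, a * b * a = a) ∧
    (∃ n, Nonempty (V (Rs x y s) ≃+ (Fin n → ℕ))) ∧
    ∀ u v (hu : u ∈ s.1) (hv : v ∈ s.1), u ≠ v → ∀ a z z' : V (Rs x y s),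
      a + z = c1 ⟨ev x y u, ev_mem x y hu⟩ (Subtype.ext (ev_idem hxy u)) →
      a + z' = c1 ⟨ev x y v, ev_mem x y hv⟩ (Subtype.ext (ev_idem hxy v)) → a = 0 := by
  classical
  have : Fintype s.1 := Fintype.ofFinite _
  have hc := s.2.resolve_left hs
  have ho : ∀ u v : s.1, u ≠ v → ev x y u * ev x y v = 0 :=
    fun u v h => ev_orth (hc u.2 v.2 fun h' => h (Subtype.ext h'))
  set S := ∑ v : s.1, ev x y v with hS
  have hl : ∀ v : s.1, S * ev x y v = ev x y v := by
    intro v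
    rw [hS, Finset.sum_mul, Finset.sum_eq_single v]
    · exact ev_idem hxy _
    · intro u _ h; exact ho u v h
    · simp
  have hr : ∀ v : s.1, ev x y v * S = ev x y v := by
    intro v
    rw [hS, Finset.mul_sum, Finset.sum_eq_single v]
    · exact ev_idem hxy _
    · intro u _ h; exact ho v u h.symm
    · simp
  have hSS : S * S = S := by
    conv_lhs => rw [hS, Finset.mul_sum]
    exact Finset.sum_congr rfl fun v _ => hl v
  let g : Option s.1 → Matrix (Fin 3) (Fin 3) K := fun o => o.elim (1 - S) fun v => ev x y v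
  obtain ⟨h1, φ, h2⟩ := struct_adjoin (K := K) g
    (by
      rintro (_ | v)
      · show (1 - S) * (1 - S) = 1 - S
        rw [sub_mul, mul_sub, mul_sub, hSS]; simp
      · exact ev_idem hxy _)
    (by
      rintro (_ | u) (_ | v) h
      · exact (h rfl).elim
      · show (1 - S) * ev x y v = 0
        rw [sub_mul, hl]; simp
      · show ev x y u * (1 - S) = 0
        rw [mul_sub, hr]; simp
      · exact ho u v fun h' => h (congrArg _ h'))
    (by rw [Fintype.sum_option]; exact sub_add_cancel _ _)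
    ({_m | s.1 = Set.univ} ∪ ev x y '' s.1)
    (by
      rintro m (hm | ⟨v, hv, rfl⟩)
      · exact (hs hm).elim
      · exact ⟨some ⟨v, hv⟩, rfl⟩)
    (Rs x y s) rfl
    (by
      rintro (_ | v)
      · exact sub_mem (one_mem _) (sum_mem fun v _ => ev_mem x y v.2)
      · exact ev_mem x y v.2)
  refine ⟨h1, ⟨_, ⟨φ.trans (AddEquiv.arrowCongr (Fintype.equivFin _) (AddEquiv.refl ℕ))⟩⟩, ?_⟩
  intro u v hu hv huv a z z' e1 e2
  have f1 := (congrArg φ e1).trans (h2 (some ⟨u, hu⟩) (ev_ne hxy u))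
  have f2 := (congrArg φ e2).trans (h2 (some ⟨v, hv⟩) (ev_ne hxy v))
  rw [map_add] at f1 f2
  apply φ.injective
  rw [map_zero]
  funext i
  have g1 := congrFun f1 i
  have g2 := congrFun f2 i
  rw [Pi.add_apply, Pi.single_apply] at g1 g2
  by_cases hi : i = ⟨some ⟨u, hu⟩, ev_ne hxy u⟩
  · rw [if_neg (by
      rw [hi]
      intro h
      exact huv (congrArg Subtype.val (Option.some.inj (congrArg Subtype.val h))))] at g2
    exact (Nat.add_eq_zero_iff.1 g2).1
  · rw [if_neg hi] at g1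
    exact (Nat.add_eq_zero_iff.1 g1).1

lemma Rs_bot (s : Pt x y) (hs : s.1 = ∅) (hs' : s.1 ≠ Set.univ) :
    c1 (1 : Rs x y s) (one_idem _) ≠ 0 ∧
      ∀ a : V (Rs x y s), a ≠ 0 → ∃ z, a = c1 (1 : Rs x y s) (one_idem _) + z := by
  classical
  obtain ⟨-, φ, h2⟩ := struct_adjoin (K := K) (fun _ : Unit => (1 : Matrix (Fin 3) (Fin 3) K))
    (fun _ => one_mul _) (fun _ _ h => (h rfl).elim) (by simp)
    ({_m | s.1 = Set.univ} ∪ ev x y '' s.1)
    (by
      rintro m (hm | ⟨v, hv, rfl⟩)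
      · exact (hs' hm).elim
      · rw [hs] at hv; exact hv.elim)
    (Rs x y s) rfl (fun _ => one_mem _)
  have h : φ (c1 (1 : Rs x y s) (one_idem _)) = Pi.single ⟨(), one_ne_zero⟩ 1 := h2 () one_ne_zero
  constructor
  · intro h0
    rw [h0, map_zero] at h
    simpa using congrFun h ⟨(), one_ne_zero⟩
  · intro a ha
    refine ⟨φ.symm (φ a - Pi.single ⟨(), one_ne_zero⟩ 1), φ.injective ?_⟩
    rw [map_add, h, AddEquiv.apply_symm_apply]
    funext i
    have hi : i = ⟨(), one_ne_zero⟩ := rfl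
    have : φ a i ≠ 0 := fun h0 => ha (φ.injective (by
      rw [map_zero]; funext j; exact (show j = i from Subtype.ext (Subsingleton.elim _ _)) ▸ h0))
    rw [Pi.add_apply, Pi.sub_apply, hi, Pi.single_eq_same]
    rw [hi] at this
    omega

/-- The diagram of regular rings. -/
def Rf [Finite W] (hxy : ∀ v, y v ⬝ᵥ x v = 1) : Pt x y ⥤ Reg.{u} :=
  subDiagram (Rs x y) (fun _ _ => Rs_mono x y) fun s => by
    by_cases hs : s.1 = Set.univ
    · obtain ⟨_, h, _⟩ := Rs_top s hs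
      exact h
    · exact (Rs_clique hxy s hs).1

theorem Rf_simplicial [Finite W] (hxy : ∀ v, y v ⬝ᵥ x v = 1) (s : Pt x y) :
    ∃ n, Nonempty ((Rf hxy ⋙ VReg).obj s ≃+ (Fin n → ℕ)) := by
  by_cases hs : s.1 = Set.univ
  · obtain ⟨φ, -, -⟩ := Rs_top s hs
    obtain ⟨ψ, -⟩ := struct_top (K := K)
    exact ⟨1, ⟨(φ.trans ψ).trans (AddEquiv.funUnique (Fin 1) ℕ).symm⟩⟩
  · exact (Rs_clique hxy s hs).2.1

theorem Rf_no_lift [Finite W] (hxy : ∀ v, y v ⬝ᵥ x v = 1) {u0 v0 : W} (huv : u0 ≠ v0)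
    (h0 : ¬ Adj x y u0 v0) (A : Pt x y ⥤ RR0.{u}) (η : A ⋙ VRR0 ≅ Rf hxy ⋙ VReg) :
    ∃ lam : W → Fin 3 → ℂ, (∀ v, lam v ≠ 0) ∧
      ∀ u v, Adj x y u v → ∑ i, star (lam u i) * lam v i = 0 := by
  have hcl : ∀ s : Set W, s.Pairwise (Adj x y) → s ≠ Set.univ := by
    rintro s hs rfl
    exact h0 (hs trivial trivial huv)
  have hne : ∀ u v, Adj x y u v → u ≠ v := by
    rintro u v h rfl
    exact one_ne_zero ((hxy u).symm.trans h.1)
  have hpair : ∀ u v, Adj x y u v → ({u, v} : Set W).Pairwise (Adj x y) := fun u v h =>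
    Set.pairwise_pair.2 fun _ => ⟨h, h.symm⟩
  let bot : Pt x y := ⟨∅, Or.inr (Set.pairwise_empty _)⟩
  let top : Pt x y := ⟨Set.univ, Or.inl rfl⟩
  let sing : W → Pt x y := fun v => ⟨{v}, Or.inr (Set.pairwise_singleton _ _)⟩
  let pair : ∀ u v, Adj x y u v → Pt x y := fun u v h => ⟨{u, v}, Or.inr (hpair u v h)⟩
  obtain ⟨b1, b2⟩ := Rs_bot bot rfl (hcl _ (Set.pairwise_empty _))
  obtain ⟨φ, -, hφ⟩ := Rs_top top rfl
  obtain ⟨ψ, ψ1, ψ3⟩ := struct_top (K := K)
  refine orth_rep_of_lift (Rf hxy ⋙ VReg) (Adj x y) bot top sing pair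
    (fun _ => Set.empty_subset _) (fun _ => Set.subset_univ _)
    (fun u v _ => Set.singleton_subset_iff.2 (Or.inl rfl))
    (fun u v _ => Set.singleton_subset_iff.2 (Or.inr rfl))
    (c1 (1 : Rs x y bot) (one_idem _)) b1 b2
    (fun v => c1 (⟨ev x y v, ev_mem x y rfl⟩ : Rs x y (sing v)) (Subtype.ext (ev_idem hxy v)))
    ?_ ?_ (φ.trans ψ) ?_ ?_ A η
  · intro v
    let p : Rs x y (sing v) := ⟨ev x y v, ev_mem x y rfl⟩
    have hp : p * p = p := Subtype.ext (ev_idem hxy v)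
    have hq : (1 - p) * (1 - p) = 1 - p := by rw [sub_mul, mul_sub, mul_sub, hp]; simp
    have key : c1 (1 : Rs x y (sing v)) (one_idem _) = c1 p hp + c1 (1 - p) hq := by
      rw [← c1_add hp _ (by rw [mul_sub, hp]; simp) (by rw [sub_mul, hp]; simp)]
      exact c1_congr _ (by simp)
    exact ⟨_, key⟩
  · intro u v h a z z' e1 e2
    exact (Rs_clique hxy (pair u v h) (hcl _ (hpair u v h))).2.2 u v (Or.inl rfl) (Or.inr rfl)
      (hne u v h) a z z' e1 e2
  · exact (congrArg ψ (hφ 1 (one_idem _))).trans ψ3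
  · intro v
    refine (congrArg ψ (hφ ⟨ev x y v, ev_mem x y trivial⟩ (Subtype.ext (ev_idem hxy v)))).trans ?_
    rw [← ψ1]
    exact congrArg ψ (c1_rank_one _ _ (hxy v) _)

end Pool.Agent.Lib.MP_a87542_al
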