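import Mathlib

/-!
A configuration of sixteen antiflags of the projective plane over the field with two elements
whose orthogonality graph has no orthogonal representation in `ℂ^3`.
-/

namespace Pool.Agent.Lib.MP_a87542_al

open Matrix
open scoped ComplexOrder

/-- The points of the sixteen antiflags. -/
def X16 : Fin 16 → Fin 3 → ZMod 2 :=
  ![![1, 0, 0], ![1, 0, 0], ![1, 0, 0], ![0, 1, 0], ![0, 1, 0], ![1, 1, 0], ![1, 1, 0],
    ![1, 1, 0], ![0, 0, 1], ![0, 0, 1], ![1, 0, 1], ![1, 0, 1], ![1, 0, 1], ![1, 1, 1],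
    ![1, 1, 1], ![1, 1, 1]]

/-- The lines of the sixteen antiflags. -/
def Y16 : Fin 16 → Fin 3 → ZMod 2 :=
  ![![1, 1, 0], ![1, 0, 1], ![1, 1, 1], ![0, 1, 0], ![1, 1, 0], ![0, 1, 0], ![1, 0, 1],
    ![0, 1, 1], ![0, 0, 1], ![1, 0, 1], ![1, 1, 0], ![0, 0, 1], ![0, 1, 1], ![0, 1, 0],
    ![0, 0, 1], ![1, 1, 1]]

lemma Y16_X16 : ∀ v, Y16 v ⬝ᵥ X16 v = 1 := by decide

lemma Y16_X16_ne : Y16 0 ⬝ᵥ X16 1 ≠ 0 := by decide

lemma no_rep_abs {T : Type} (O : T → T → Prop) (sy : ∀ {a b}, O a b → O b a) (ir : ∀ a, ¬ O a a)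
    (rect : ∀ {u v a b}, O u a → O u b → O v a → O v b →
      (∀ w, O u w ↔ O v w) ∨ (∀ w, O a w ↔ O b w))
    (x : Fin 16 → T) (h : ∀ u v, Y16 u ⬝ᵥ X16 v = 0 ∧ Y16 v ⬝ᵥ X16 u = 0 → O (x u) (x v)) :
    False := by
  have ps : ∀ {a b}, (∀ w, O a w ↔ O b w) → ∀ w, O b w ↔ O a w := fun p w => (p w).symm
  have pt : ∀ {a b c}, (∀ w, O a w ↔ O b w) → (∀ w, O b w ↔ O c w) → ∀ w, O a w ↔ O c w :=
    fun p q w => (p w).trans (q w)
  have tr1 : ∀ {a a' b}, (∀ w, O a w ↔ O a' w) → O a' b → O a b := fun p e => (p _).2 e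
  have tr2 : ∀ {a b b'}, (∀ w, O b w ↔ O b' w) → O a b' → O a b :=
    fun p e => sy ((p _).2 (sy e))
  have e0_5 := h 0 5 (by decide)
  have e0_7 := h 0 7 (by decide)
  have e0_8 := h 0 8 (by decide)
  have e0_13 := h 0 13 (by decide)
  have e0_14 := h 0 14 (by decide)
  have e1_3 := h 1 3 (by decide)
  have e1_11 := h 1 11 (by decide)
  have e1_12 := h 1 12 (by decide)
  have e1_13 := h 1 13 (by decide)
  have e1_14 := h 1 14 (by decide)
  have e2_5 := h 2 5 (by decide)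
  have e2_7 := h 2 7 (by decide)
  have e2_11 := h 2 11 (by decide)
  have e2_12 := h 2 12 (by decide)
  have e3_8 := h 3 8 (by decide)
  have e3_9 := h 3 9 (by decide)
  have e3_11 := h 3 11 (by decide)
  have e4_6 := h 4 6 (by decide)
  have e4_8 := h 4 8 (by decide)
  have e4_9 := h 4 9 (by decide)
  have e4_14 := h 4 14 (by decide)
  have e5_8 := h 5 8 (by decide)
  have e5_10 := h 5 10 (by decide)
  have e5_11 := h 5 11 (by decide)
  have e6_11 := h 6 11 (by decide)
  have e6_14 := h 6 14 (by decide)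
  have e6_15 := h 6 15 (by decide)
  have e7_14 := h 7 14 (by decide)
  have e7_15 := h 7 15 (by decide)
  have e9_10 := h 9 10 (by decide)
  have e9_13 := h 9 13 (by decide)
  have e10_13 := h 10 13 (by decide)
  have e10_15 := h 10 15 (by decide)
  have e12_13 := h 12 13 (by decide)
  have e12_15 := h 12 15 (by decide)
  rcases rect e2_7 e2_12
    (sy e7_15) (sy e12_15) with p1 | p1
  · rcases rect (tr1 p1 (sy e10_15)) e2_11
      e5_10 e5_11 with p2 | p2
    · exact ir _ (tr2 p2 e2_5)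
    · rcases rect e1_3 (tr2 p2 e1_11)
        (sy e3_9) e9_10 with p3 | p3
      · rcases rect (tr1 p3 (sy e4_9)) e1_14
          (sy e4_6) e6_14 with p4 | p4
        · rcases rect (tr1 p4 (tr2 p1 e6_15)) (tr2 p2 e1_11)
            (sy e2_5) e5_10 with p5 | p5
          · rcases rect e0_8 e0_13
              (tr1 p5 e5_8) e1_13 with p6 | p6
            · exact ir _ (tr2 (pt p6 p5) e0_5)
            · rcases rect (tr1 p5 e5_8) (tr2 p2 e1_11)
                e3_8 (tr2 p2 e3_11) with p7 | p7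
              · exact ir _ (tr2 p7 e1_3)
              · exact ir _ (tr2 (pt (ps p7) p6) e10_13)
          · exact ir _ (tr2 (pt p5 p2) e2_11)
        · exact ir _ (tr2 p4 e4_14)
      · exact ir _ (tr2 (pt p3 p2) e3_11)
  · rcases rect e0_7 e0_13
      (tr2 p1 e1_12) e1_13 with p8 | p8
    · rcases rect e0_8 (tr1 p8 e1_11)
        e3_8 e3_11 with p9 | p9
      · exact ir _ (tr2 (pt (ps p8) p9) e1_3)
      · rcases rect e0_13 e0_14
          (tr1 p1 e12_13) e7_14 with p10 | p10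
        · exact ir _ (tr2 p10 e0_7)
        · rcases rect (tr1 p8 e1_3) e0_5
            (sy e3_8) (sy e5_8) with p11 | p11
          · exact ir _ (tr2 p11 e0_8)
          · rcases rect e3_9 (tr1 p11 e5_10)
              (sy e9_13) (sy e10_13) with p12 | p12
            · rcases rect (tr1 (pt p12 p10) (sy e6_14)) e3_8
                e4_6 e4_8 with p13 | p13
              · exact ir _ (tr2 (pt (pt (ps p13) p12) p10) e4_14)
              · exact ir _ (tr2 (pt p13 p9) e6_11)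
            · exact ir _ (tr2 p12 e9_10)
    · exact ir _ (tr2 (pt (ps p1) p8) e12_13)

lemma par_of_cross {a b : Fin 3 → ℂ} (hb : b ≠ 0) (h : a ⨯₃ b = 0) : ∃ t : ℂ, a = t • b := by
  have : ¬ LinearIndependent ℂ ![b, a] := by
    rw [← crossProduct_ne_zero_iff_linearIndependent, ← cross_anticomm, h]
    simp
  rw [LinearIndependent.pair_iff' hb] at this
  push Not at this
  obtain ⟨t, ht⟩ := this
  exact ⟨t, ht.symm⟩

lemma orth_iff_of_par {a b : Fin 3 → ℂ} (ha : a ≠ 0) {t : ℂ} (h : a = t • b) (w : Fin 3 → ℂ) :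
    ∑ i, star (a i) * w i = 0 ↔ ∑ i, star (b i) * w i = 0 := by
  have ht : t ≠ 0 := by rintro rfl; exact ha (by simpa using h)
  have : ∑ i, star (a i) * w i = star t * ∑ i, star (b i) * w i := by
    rw [h, Finset.mul_sum]
    refine Finset.sum_congr rfl fun i _ => ?_
    simp [mul_assoc]
  rw [this, mul_eq_zero, or_iff_right (star_ne_zero.2 ht)]

theorem no_rep (lam : Fin 16 → Fin 3 → ℂ) (h0 : ∀ v, lam v ≠ 0)
    (h : ∀ u v, Y16 u ⬝ᵥ X16 v = 0 ∧ Y16 v ⬝ᵥ X16 u = 0 → ∑ i, star (lam u i) * lam v i = 0) :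
    False := by
  refine no_rep_abs (T := {a : Fin 3 → ℂ // a ≠ 0})
    (fun a b => ∑ i, star (a.1 i) * b.1 i = 0) ?_ ?_ ?_ (fun v => ⟨lam v, h0 v⟩) h
  · intro a b hab
    have := congrArg star hab
    simpa [star_sum, mul_comm] using this
  · intro a ha
    exact a.2 (dotProduct_star_self_eq_zero.1 ha)
  · intro u v a b h1 h2 h3 h4
    by_cases hab : a.1 ⨯₃ b.1 = 0
    · obtain ⟨t, ht⟩ := par_of_cross b.2 hab
      exact Or.inr fun w => orth_iff_of_par a.2 ht w.1
    · have key : ∀ z : Fin 3 → ℂ, ∑ i, star (z i) * a.1 i = 0 → ∑ i, star (z i) * b.1 i = 0 →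
          ∃ t : ℂ, z = t • star (a.1 ⨯₃ b.1) := by
        intro z hz1 hz2
        have e1 : star z ⬝ᵥ a.1 = 0 := hz1
        have e2 : star z ⬝ᵥ b.1 = 0 := hz2
        obtain ⟨t, ht⟩ := par_of_cross (a := star z) hab
          (by rw [cross_cross_eq_smul_sub_smul', dotProduct_comm a.1, e1, e2]; simp)
        refine ⟨star t, ?_⟩
        have := congrArg star ht
        simpa using this
      obtain ⟨t, ht⟩ := key u.1 h1 h2
      obtain ⟨s, hs⟩ := key v.1 h3 h4
      exact Or.inl fun w => (orth_iff_of_par u.2 ht w.1).trans (orth_iff_of_par v.2 hs w.1).symm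

end Pool.Agent.Lib.MP_a87542_al
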