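import Pool.Agent.Lib.MP_a87542_al.Graph

/-!
A configuration of eighteen integral antiflags, defined over every field, whose orthogonality
graph has no orthogonal representation in `ℂ^3`.
-/

namespace Pool.Agent.Lib.MP_a87542_al

open Matrix
open scoped ComplexOrder

lemma abs18 {T : Type} (O : T → T → Prop) (sy : ∀ {a b}, O a b → O b a) (ir : ∀ a, ¬ O a a)
    (rect : ∀ {u v a b}, O u a → O u b → O v a → O v b → u = v ∨ a = b)
    {x0 x1 x2 x3 x4 x5 x6 x7 x8 x9 x10 x11 x12 x13 x14 x15 x16 x17 : T}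
    (e0_5 : O x0 x5) (e0_8 : O x0 x8) (e0_10 : O x0 x10) (e0_14 : O x0 x14) (e1_2 : O x1 x2)
    (e1_4 : O x1 x4) (e1_8 : O x1 x8) (e1_10 : O x1 x10) (e1_13 : O x1 x13) (e2_12 : O x2 x12)
    (e2_13 : O x2 x13) (e2_14 : O x2 x14) (e2_16 : O x2 x16) (e3_6 : O x3 x6) (e3_7 : O x3 x7)
    (e3_12 : O x3 x12) (e3_13 : O x3 x13) (e4_9 : O x4 x9) (e4_10 : O x4 x10) (e5_11 : O x5 x11)
    (e5_13 : O x5 x13) (e5_14 : O x5 x14) (e5_15 : O x5 x15) (e6_14 : O x6 x14) (e6_15 : O x6 x15)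
    (e6_17 : O x6 x17) (e7_10 : O x7 x10) (e7_11 : O x7 x11) (e7_13 : O x7 x13) (e8_11 : O x8 x11)
    (e8_16 : O x8 x16) (e9_16 : O x9 x16) (e9_17 : O x9 x17) (e11_15 : O x11 x15)
    (e11_16 : O x11 x16) (e12_15 : O x12 x15) (e12_16 : O x12 x16) (e15_17 : O x15 x17) :
    False := by
  rcases rect e0_8 e0_10 e1_8 e1_10 with rfl | rfl
  · rcases rect e1_2 e0_5 (sy e2_13) (sy e5_13) with rfl | rfl
    · exact ir _ e1_13
    · rcases rect e2_14 e5_15 e6_14 e6_15 with rfl | rfl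
      · rcases rect (sy e3_6) e2_13 (sy e3_7) e7_13 with rfl | rfl
        · rcases rect e2_16 e6_17 e9_16 e9_17 with rfl | rfl
          · rcases rect e1_4 e0_10 (sy e4_9) e7_10 with rfl | rfl
            · exact ir _ e0_5
            · exact ir _ e4_10
          · rcases rect e5_15 e2_16 e11_15 e11_16 with rfl | rfl
            · exact ir _ e5_11
            · exact ir _ e15_17
        · exact ir _ e3_13
      · rcases rect e1_13 e0_14 e2_13 e2_14 with rfl | rfl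
        · exact ir _ e0_5
        · rcases rect e2_12 e2_13 e3_12 e3_13 with rfl | rfl
          · rcases rect e5_11 e2_13 e7_11 e7_13 with rfl | rfl
            · exact ir _ e3_7
            · exact ir _ e11_15
          · exact ir _ e12_15
  · rcases rect e2_13 e2_14 e5_13 e5_14 with rfl | rfl
    · rcases rect e5_11 e2_16 e8_11 e8_16 with rfl | rfl
      · rcases rect (sy e4_10) e2_16 (sy e4_9) e9_16 with rfl | rfl
        · rcases rect (sy e7_10) e2_13 e3_7 e3_13 with rfl | rfl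
          · rcases rect e5_15 e9_17 e6_15 e6_17 with rfl | rfl
            · exact ir _ e3_6
            · exact ir _ e15_17
          · exact ir _ e7_13
        · rcases rect e1_4 e1_13 e2_16 e2_13 with rfl | rfl
          · exact ir _ e1_2
          · rcases rect (sy e7_10) e5_11 (sy e7_13) (sy e11_16) with rfl | rfl
            · exact ir _ e2_13
            · exact ir _ e7_11
      · exact ir _ e11_16
    · rcases rect e3_6 e3_7 (sy e6_14) (sy e7_13) with rfl | rfl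
      · exact ir _ e3_13
      · rcases rect e7_10 e6_15 (sy e8_11) e11_15 with rfl | rfl
        · exact ir _ e7_11
        · rcases rect e0_8 e0_14 e5_15 e5_13 with rfl | rfl
          · exact ir _ e0_5
          · rcases rect e2_12 e2_16 (sy e12_15) e8_16 with rfl | rfl
            · exact ir _ e2_13
            · exact ir _ e12_16

/-- The points of the eighteen antiflags. -/
def X18 : Fin 18 → Fin 3 → ℤ :=
  ![![0, 0, 1], ![0, 0, 1], ![0, 1, -1], ![0, 1, -1], ![0, 1, -1], ![0, 1, 0], ![0, 1, 0],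
    ![0, 1, 0], ![1, -1, 0], ![1, -1, 0], ![1, -1, 0], ![1, 0, -1], ![1, 0, -1], ![1, 0, -1],
    ![1, 0, 0], ![1, 0, 0], ![1, 0, 0], ![1, 1, -1]]

/-- The lines of the eighteen antiflags. -/
def Y18 : Fin 18 → Fin 3 → ℤ :=
  ![![0, 0, 1], ![1, 1, 1], ![0, 1, 0], ![-1, 0, -1], ![1, 1, 0], ![0, 1, 0], ![0, 1, 1],
    ![1, 1, 1], ![0, -1, 0], ![0, -1, -1], ![1, 0, 0], ![0, 0, -1], ![0, -1, -1], ![1, 0, 0],
    ![1, 0, 0], ![1, 0, 1], ![1, 1, 1], ![0, 0, -1]]

lemma Y18_X18 : ∀ v, Y18 v ⬝ᵥ X18 v = 1 := by decide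

lemma Y18_X18_one : Y18 0 ⬝ᵥ X18 1 = 1 := by decide

lemma no_rep_abs18 {T : Type} (O : T → T → Prop) (sy : ∀ {a b}, O a b → O b a) (ir : ∀ a, ¬ O a a)
    (rect : ∀ {u v a b}, O u a → O u b → O v a → O v b →
      (∀ w, O u w ↔ O v w) ∨ (∀ w, O a w ↔ O b w))
    (x : Fin 18 → T) (h : ∀ u v, Y18 u ⬝ᵥ X18 v = 0 ∧ Y18 v ⬝ᵥ X18 u = 0 → O (x u) (x v)) :
    False := by
  have k : ∀ u v, Y18 u ⬝ᵥ X18 v = 0 ∧ Y18 v ⬝ᵥ X18 u = 0 →
      ∃ a b, O (x u) = O a ∧ O (x v) = O b ∧ O a b := fun u v huv => ⟨_, _, rfl, rfl, h u v huv⟩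
  refine abs18 (T := T → Prop) (fun f g => ∃ a b, f = O a ∧ g = O b ∧ O a b) ?_ ?_ ?_
    (k 0 5 (by decide)) (k 0 8 (by decide)) (k 0 10 (by decide)) (k 0 14 (by decide))
    (k 1 2 (by decide)) (k 1 4 (by decide)) (k 1 8 (by decide)) (k 1 10 (by decide))
    (k 1 13 (by decide)) (k 2 12 (by decide)) (k 2 13 (by decide)) (k 2 14 (by decide))
    (k 2 16 (by decide)) (k 3 6 (by decide)) (k 3 7 (by decide)) (k 3 12 (by decide))
    (k 3 13 (by decide)) (k 4 9 (by decide)) (k 4 10 (by decide)) (k 5 11 (by decide))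
    (k 5 13 (by decide)) (k 5 14 (by decide)) (k 5 15 (by decide)) (k 6 14 (by decide))
    (k 6 15 (by decide)) (k 6 17 (by decide)) (k 7 10 (by decide)) (k 7 11 (by decide))
    (k 7 13 (by decide)) (k 8 11 (by decide)) (k 8 16 (by decide)) (k 9 16 (by decide))
    (k 9 17 (by decide)) (k 11 15 (by decide)) (k 11 16 (by decide)) (k 12 15 (by decide))
    (k 12 16 (by decide)) (k 15 17 (by decide))
  · rintro _ _ ⟨a, b, rfl, rfl, e⟩
    exact ⟨b, a, rfl, rfl, sy e⟩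
  · rintro _ ⟨a, b, rfl, e1, e⟩
    exact ir b (e1 ▸ e)
  · rintro _ _ _ _ ⟨u, a, rfl, rfl, e1⟩ ⟨u', b, p1, rfl, e2⟩ ⟨v, a', rfl, p2, e3⟩
      ⟨v', b', p3, p4, e4⟩
    have f2 : O u b := p1 ▸ e2
    have f3 : O v a := sy (p2 ▸ sy e3)
    have f4 : O v b := p3 ▸ sy (p4 ▸ sy e4)
    rcases rect e1 f2 f3 f4 with p | p
    · exact Or.inl (funext fun w => propext (p w))
    · exact Or.inr (funext fun w => propext (p w))

theorem no_rep18 (lam : Fin 18 → Fin 3 → ℂ) (h0 : ∀ v, lam v ≠ 0)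
    (h : ∀ u v, Y18 u ⬝ᵥ X18 v = 0 ∧ Y18 v ⬝ᵥ X18 u = 0 → ∑ i, star (lam u i) * lam v i = 0) :
    False := by
  refine no_rep_abs18 (T := {a : Fin 3 → ℂ // a ≠ 0})
    (fun a b => ∑ i, star (a.1 i) * b.1 i = 0) ?_ ?_ ?_ (fun v => ⟨lam v, h0 v⟩) h
  · intro a b hab
    have := congrArg star hab
    simpa [star_sum, mul_comm] using this
  · intro a ha
    exact a.2 (dotProduct_star_self_eq_zero.1 ha)
  · intro u v a b h1 h2 h3 h4
    by_cases hab : a.1 ⨯₃ b.1 = 0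
    · obtain ⟨t, ht⟩ := par_of_cross b.2 hab
      exact Or.inr fun w => orth_iff_of_par a.2 ht w.1
    · have key : ∀ z : Fin 3 → ℂ, ∑ i, star (z i) * a.1 i = 0 → ∑ i, star (z i) * b.1 i = 0 →
          ∃ t : ℂ, z = t • star (a.1 ⨯₃ b.1) := by
        intro z hz1 hz2
        have e1 : star z ⬝ᵥ a.1 = 0 := hz1
        have e2 : star z ⬝ᵥ b.1 = 0 := hz2
        obtain ⟨t, ht⟩ := par_of_cross (a := star z) hab
          (by rw [cross_cross_eq_smul_sub_smul', dotProduct_comm a.1, e1, e2]; simp)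
        refine ⟨star t, ?_⟩
        have := congrArg star ht
        simpa using this
      obtain ⟨t, ht⟩ := key u.1 h1 h2
      obtain ⟨s, hs⟩ := key v.1 h3 h4
      exact Or.inl fun w => (orth_iff_of_par u.2 ht w.1).trans (orth_iff_of_par v.2 hs w.1).symm

end Pool.Agent.Lib.MP_a87542_al
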