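import Pool.Agent.Lib.MP_a87542_al.OneDiagram

/-!
Diagrams of subalgebras of a fixed algebra with the inclusion maps.
-/

namespace Pool.Agent.Lib.MP_a87542_al

open CategoryTheory

universe u

/-- The rings of the diagram embed, compatibly with its maps, onto unital `K`-subalgebras of `B`. -/
def InAlg (K B : Type u) [Field K] [Ring B] [Algebra K B] {P : Type} [Category.{0} P]
    (R : P ⥤ Reg.{u}) : Prop :=
  ∃ ι : ∀ p, (R.obj p).carrier →ₙ+* B, (∀ p, Function.Injective (ι p)) ∧
    (∀ p, ∃ S : Subalgebra K B, Set.range (ι p) = S) ∧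
    ∀ (p q : P) (h : p ⟶ q), (ι q).comp (R.map h) = ι p

lemma subDiagram_inAlg {K : Type u} [Field K] {B : Type u} [Ring B] [Algebra K B] {P : Type}
    [Preorder P] (S : P → Subalgebra K B) (hS : ∀ p q, p ≤ q → S p ≤ S q)
    (hr : ∀ p, ∀ a : S p, ∃ b : S p, a * b * a = a) : InAlg K B (subDiagram S hS hr) :=
  ⟨fun _ => { toFun := Subtype.val, map_mul' := fun _ _ => rfl, map_zero' := rfl,
              map_add' := fun _ _ => rfl },
    fun _ => Subtype.val_injective, fun p => ⟨S p, Subtype.range_val⟩,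
    fun _ _ _ => NonUnitalRingHom.ext fun _ => rfl⟩

end Pool.Agent.Lib.MP_a87542_al
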