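import Pool.Agent.Lib.MP_a87542_al.Defs
import Pool.Agent.Lib.MP_a87542_al.CStar

/-!
A lifting in `RR0` gives an orthogonal representation in `ℂ^3`.
-/

namespace Pool.Agent.Lib.MP_a87542_al

open Matrix CategoryTheory

universe u

section Star

variable {A : Type u} [NonUnitalRing A] [StarRing A]

/-- An element as a `1 × 1` matrix. -/
def one11 {α : Type u} (p : α) : Matrix (Fin 1) (Fin 1) α := Matrix.of fun _ _ => p

lemma one11_inj {α : Type u} {p q : α} (h : one11 p = one11 q) : p = q :=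
  congrFun (congrFun h 0) 0

lemma eq_one11 {α : Type u} (m : Matrix (Fin 1) (Fin 1) α) : m = one11 (m 0 0) := by
  ext i j
  rw [Subsingleton.elim i 0, Subsingleton.elim j 0]; rfl

omit [StarRing A] in
lemma one11_mul (p q : A) : one11 p * one11 q = one11 (p * q) := by
  ext i j; simp [one11, Matrix.mul_apply]

lemma one11_star (p : A) : (one11 p)ᴴ = one11 (star p) := by
  ext i j; simp [one11]

section
variable {m m₁ m₂ n n₁ n₂ : Type}
omit [StarRing A]

lemma rows_mul_cols [Fintype n] (A₁ : Matrix m₁ n A) (A₂ : Matrix m₂ n A)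
    (B₁ : Matrix n n₁ A) (B₂ : Matrix n n₂ A) :
    (fromRows A₁ A₂) * (fromCols B₁ B₂) =
      fromBlocks (A₁ * B₁) (A₁ * B₂) (A₂ * B₁) (A₂ * B₂) := by
  ext (_ | _) (_ | _) <;> simp [mul_apply]

lemma cols_mul_rows [Fintype n₁] [Fintype n₂] (A₁ : Matrix m n₁ A) (A₂ : Matrix m n₂ A)
    (B₁ : Matrix n₁ n A) (B₂ : Matrix n₂ n A) :
    fromCols A₁ A₂ * fromRows B₁ B₂ = A₁ * B₁ + A₂ * B₂ := by
  ext
  simp [mul_apply]

lemma cols_mul_blocks [Fintype m₁] [Fintype m₂] (A₁ : Matrix m m₁ A) (A₂ : Matrix m m₂ A)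
    (B₁₁ : Matrix m₁ n₁ A) (B₁₂ : Matrix m₁ n₂ A) (B₂₁ : Matrix m₂ n₁ A) (B₂₂ : Matrix m₂ n₂ A) :
    fromCols A₁ A₂ * fromBlocks B₁₁ B₁₂ B₂₁ B₂₂ =
      fromCols (A₁ * B₁₁ + A₂ * B₂₁) (A₁ * B₁₂ + A₂ * B₂₂) := by
  ext _ (_ | _) <;> simp [mul_apply]

end

/-- The class of a projection of `A`. -/
def cs (p : A) (h : IsStarProjection p) : Vs A :=
  Quotient.mk _ ⟨1, one11 p, by rw [one11_mul, h.isIdempotentElem.eq],
    by rw [one11_star, h.isSelfAdjoint.star_eq]⟩

lemma cs_eq_iff {p q : A} (hp : IsStarProjection p) (hq : IsStarProjection q) :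
    cs p hp = cs q hq ↔ ∃ v : A, star v * v = p ∧ v * star v = q := by
  constructor
  · intro h
    obtain ⟨v, h1, h2⟩ : MvNs (one11 p) (one11 q) := Quotient.exact h
    rw [eq_one11 v, one11_star, one11_mul] at h1 h2
    exact ⟨v 0 0, one11_inj h1, one11_inj h2⟩
  · rintro ⟨v, h1, h2⟩
    refine Quotient.sound (show MvNs (one11 p) (one11 q) from ⟨one11 v, ?_, ?_⟩)
    · rw [one11_star, one11_mul, h1]
    · rw [one11_star, one11_mul, h2]

lemma cs_eq_zero {p : A} (hp : IsStarProjection p) (h : cs p hp = 0) : p = 0 := by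
  obtain ⟨v, h1, -⟩ : MvNs (one11 p) (0 : Matrix (Fin 0) (Fin 0) A) := Quotient.exact h
  have := congrFun (congrFun h1 0) 0
  simpa [Matrix.mul_apply, one11] using this.symm

lemma cs_add {p q : A} (hp : IsStarProjection p) (hq : IsStarProjection q) (hpq : p * q = 0) :
    cs (p + q) (hp.add hq hpq) = cs p hp + cs q hq := by
  have hqp : q * p = 0 := by
    have := congrArg star hpq
    rwa [star_mul, hp.isSelfAdjoint.star_eq, hq.isSelfAdjoint.star_eq, star_zero] at this
  have h1 : MvNs (one11 (p + q)) (Matrix.fromBlocks (one11 p) 0 0 (one11 q)) := by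
    refine ⟨Matrix.fromRows (one11 p) (one11 q), ?_, ?_⟩
    · rw [conjTranspose_fromRows_eq_fromCols_conjTranspose, cols_mul_rows, one11_star,
        one11_star, one11_mul, one11_mul, hp.isSelfAdjoint.star_eq, hq.isSelfAdjoint.star_eq,
        hp.isIdempotentElem.eq, hq.isIdempotentElem.eq]
      rfl
    · rw [conjTranspose_fromRows_eq_fromCols_conjTranspose, rows_mul_cols, one11_star,
        one11_star, one11_mul, one11_mul, one11_mul, one11_mul, hp.isSelfAdjoint.star_eq,
        hq.isSelfAdjoint.star_eq, hp.isIdempotentElem.eq, hq.isIdempotentElem.eq, hpq, hqp]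
      rfl
  refine Quotient.sound ?_
  set P : Proj A := ⟨1, one11 p, by rw [one11_mul, hp.isIdempotentElem.eq],
    by rw [one11_star, hp.isSelfAdjoint.star_eq]⟩
  set Q : Proj A := ⟨1, one11 q, by rw [one11_mul, hq.isIdempotentElem.eq],
    by rw [one11_star, hq.isSelfAdjoint.star_eq]⟩
  exact MvNs.trans (by rw [one11_mul, (hp.add hq hpq).isIdempotentElem.eq]) (P.add Q).idem h1
    (P.add_mvn Q).symm

lemma map_cs {B : Type u} [NonUnitalRing B] [StarRing B] (φ : A →⋆ₙ+* B) {p : A}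
    (hp : IsStarProjection p) : Vs.map φ (cs p hp) = cs (φ p) (hp.map φ) := rfl

/-- Decomposition of a projection along a decomposition of its class. -/
lemma cs_split {p : A} (hp : IsStarProjection p) {a b : Vs A} (h : cs p hp = a + b) :
    ∃ (p₁ p₂ : A) (h₁ : IsStarProjection p₁) (h₂ : IsStarProjection p₂),
      p = p₁ + p₂ ∧ p₁ * p₂ = 0 ∧ cs p₁ h₁ = a ∧ cs p₂ h₂ = b := by
  obtain ⟨e, rfl⟩ := Quotient.exists_rep a
  obtain ⟨f, rfl⟩ := Quotient.exists_rep b
  have h0 : MvNs (one11 p) (e.add f).mat := Quotient.exact h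
  have hpp : one11 p * one11 p = one11 p := by rw [one11_mul, hp.isIdempotentElem.eq]
  obtain ⟨v, h1, h2⟩ := MvNs.trans hpp (idem_fromBlocks e.idem f.idem) h0 (e.add_mvn f)
  obtain ⟨v₁, v₂, rfl⟩ : ∃ v₁ v₂, v = Matrix.fromRows v₁ v₂ :=
    ⟨_, _, (Matrix.fromRows_toRows v).symm⟩
  have h3 := h2
  rw [conjTranspose_fromRows_eq_fromCols_conjTranspose, rows_mul_cols,
    fromBlocks_inj] at h3
  obtain ⟨k1, k2, -, k4⟩ := h3
  have key : ∀ {n : ℕ} (w : Matrix (Fin n) (Fin 1) A) (g : Matrix (Fin n) (Fin n) A)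
      (hg : g * g = g) (hs : gᴴ = g), w * wᴴ = g →
      ∃ hq : IsStarProjection ((wᴴ * g * w) 0 0), cs _ hq = Quotient.mk _ ⟨n, g, hg, hs⟩ := by
    intro n w g hg hs hw
    have i1 : (wᴴ * g * w) * (wᴴ * g * w) = wᴴ * g * w := by
      calc (wᴴ * g * w) * (wᴴ * g * w) = wᴴ * (g * (w * wᴴ) * g) * w := by
            simp only [Matrix.mul_assoc]
        _ = _ := by rw [hw, hg, hg]
    have i2 : (wᴴ * g * w)ᴴ = wᴴ * g * w := by
      simp only [conjTranspose_mul, conjTranspose_conjTranspose, hs, Matrix.mul_assoc]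
    have i3 := i1
    have i4 := i2
    rw [eq_one11 (wᴴ * g * w), one11_mul] at i3
    rw [eq_one11 (wᴴ * g * w), one11_star] at i4
    refine ⟨⟨one11_inj i3, one11_inj i4⟩, Quotient.sound ?_⟩
    show MvNs (one11 ((wᴴ * g * w) 0 0)) g
    rw [← eq_one11]
    refine ⟨g * w, ?_, ?_⟩
    · rw [conjTranspose_mul, hs, Matrix.mul_assoc, ← Matrix.mul_assoc g, hg, Matrix.mul_assoc]
    · rw [conjTranspose_mul, hs, Matrix.mul_assoc, ← Matrix.mul_assoc w, hw, hg, hg]
  obtain ⟨q1, c1⟩ := key v₁ e.mat e.idem e.herm k1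
  obtain ⟨q2, c2⟩ := key v₂ f.mat f.idem f.herm k4
  refine ⟨_, _, q1, q2, ?_, ?_, c1, c2⟩
  · have : one11 p = v₁ᴴ * e.mat * v₁ + v₂ᴴ * f.mat * v₂ := by
      calc one11 p = one11 p * one11 p := hpp.symm
        _ = (Matrix.fromRows v₁ v₂)ᴴ * (Matrix.fromRows v₁ v₂ * (Matrix.fromRows v₁ v₂)ᴴ)
            * Matrix.fromRows v₁ v₂ := by rw [← h1]; simp only [Matrix.mul_assoc]
        _ = _ := by
          rw [h2, conjTranspose_fromRows_eq_fromCols_conjTranspose, cols_mul_blocks,
            cols_mul_rows]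
          simp
    exact congrFun (congrFun this 0) 0
  · apply one11_inj
    rw [← one11_mul, ← eq_one11, ← eq_one11]
    calc v₁ᴴ * e.mat * v₁ * (v₂ᴴ * f.mat * v₂)
        = v₁ᴴ * e.mat * (v₁ * v₂ᴴ) * (f.mat * v₂) := by simp only [Matrix.mul_assoc]
      _ = one11 0 := by rw [k2]; simp; rfl

lemma exists_ne_zero_of_class {a : Vs A} (h : a ≠ 0) : ∃ w : A, w ≠ 0 := by
  by_contra hcon
  push Not at hcon
  apply h
  obtain ⟨e, rfl⟩ := Quotient.exists_rep a
  refine Quotient.sound (show MvNs e.mat (0 : Matrix (Fin 0) (Fin 0) A) from ⟨0, ?_, ?_⟩)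
  · ext i j; exact (hcon _).trans (hcon _).symm
  · ext i; exact i.elim0

/-- A subprojection gives a summand. -/
lemma cs_of_le {e r : A} (he : IsStarProjection e) (hr : IsStarProjection r) (h : e * r = r) :
    ∃ hq : IsStarProjection (e - r), cs e he = cs r hr + cs (e - r) hq := by
  have h' : r * e = r := by
    have := congrArg star h
    rwa [star_mul, he.isSelfAdjoint.star_eq, hr.isSelfAdjoint.star_eq] at this
  have hq : IsStarProjection (e - r) := hr.sub_of_mul_eq_left he h'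
  refine ⟨hq, ?_⟩
  rw [← cs_add hr hq (by rw [mul_sub, h', hr.isIdempotentElem.eq, sub_self])]
  congr 1
  abel

end Star

section CStar

variable {A : Type u} [NonUnitalCStarAlgebra A]

lemma proj_source {u : A} (h : star u * u * (star u * u) = star u * u) :
    IsStarProjection (star u * u) := ⟨h, IsSelfAdjoint.star_mul_self u⟩

lemma proj_range {u : A} (h : star u * u * (star u * u) = star u * u) :
    IsStarProjection (u * star u) := ⟨pi_range_idem h, IsSelfAdjoint.mul_star_self u⟩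

/-- The source projection of a partial isometry with range under `e` is a summand of `e`. -/
lemma cs_source_le {e u : A} (he : IsStarProjection e)
    (h : star u * u * (star u * u) = star u * u) (heu : e * u = u) :
    ∃ z, cs _ (proj_source h) + z = cs e he := by
  obtain ⟨hq, k⟩ := cs_of_le he (proj_range h) (by rw [← mul_assoc, heu])
  refine ⟨cs _ hq, ?_⟩
  rw [k, (cs_eq_iff (proj_source h) (proj_range h)).2 ⟨u, rfl, rfl⟩]

lemma exists_proj_ne_zero (hA : IsRR0 A) {a : Vs A} (h : a ≠ 0) :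
    ∃ (p : A) (hp : IsStarProjection p), cs p hp ≠ 0 := by
  let _ := CStarAlgebra.spectralOrder A
  have _ := CStarAlgebra.spectralOrderedRing A
  obtain ⟨w, hw⟩ := exists_ne_zero_of_class h
  obtain ⟨c, -, h1, h2, -⟩ := exists_pi hA w w hw le_rfl
  exact ⟨_, proj_source h2, fun h0 => h1 (cs_eq_zero _ h0)⟩

lemma orth_of_class (hA : IsRR0 A) {e f : A} (he : IsStarProjection e) (hf : IsStarProjection f)
    (h : ∀ x z z', x + z = cs e he → x + z' = cs f hf → x = 0) : e * f = 0 := by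
  let _ := CStarAlgebra.spectralOrder A
  have _ := CStarAlgebra.spectralOrderedRing A
  by_contra hne
  have hle : star (e * f) * (e * f) ≤ star f * f := by
    have : star f * f - star (e * f) * (e * f) = star (f - e * f) * (f - e * f) := by
      simp only [star_sub, star_mul, he.isSelfAdjoint.star_eq, hf.isSelfAdjoint.star_eq, sub_mul,
        mul_sub, mul_assoc]
      rw [← mul_assoc e e f, he.isIdempotentElem.eq]
      abel
    rw [← sub_nonneg, this]
    exact star_mul_self_nonneg _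
  obtain ⟨c, c', h1, h2, h3⟩ := exists_pi hA (e * f) f hne hle
  obtain ⟨z, hz⟩ := cs_source_le he h2 (by rw [← mul_assoc, ← mul_assoc, he.isIdempotentElem.eq])
  obtain ⟨z', hz'⟩ := cs_source_le hf (u := f * c') (by rw [h3, h2])
    (by rw [← mul_assoc, hf.isIdempotentElem.eq])
  refine h1 (cs_eq_zero (proj_source h2) (h _ z z' hz ?_))
  rw [← hz']
  congr 2
  exact h3.symm

/-- Coordinates in a corner isomorphic to the `3 × 3` matrices. -/
lemma exists_coords (hA : IsRR0 A) (ψ : Vs A ≃+ ℕ) {Ω : A} (hΩ : IsStarProjection Ω)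
    (h3 : ψ (cs Ω hΩ) = 3) {W : Type} (Q : W → A) (hQ : ∀ v, IsStarProjection (Q v))
    (h1 : ∀ v, ψ (cs _ (hQ v)) = 1) (hle : ∀ v, Ω * Q v = Q v) :
    ∃ lam : W → Fin 3 → ℂ, (∀ v, lam v ≠ 0) ∧
      ∀ u v, Q u * Q v = 0 → ∑ i, star (lam u i) * lam v i = 0 := by
  let _ := CStarAlgebra.spectralOrder A
  have _ := CStarAlgebra.spectralOrderedRing A
  obtain ⟨E₀, F, hE₀, hF, s1, -, c0, cF⟩ := cs_split hΩ (a := ψ.symm 1) (b := ψ.symm 2)
    (by rw [← map_add]; exact ψ.eq_symm_apply.2 h3)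
  obtain ⟨E₁, E₂, hE₁, hE₂, s2, -, c1, c2⟩ := cs_split hF (a := ψ.symm 1) (b := ψ.symm 1)
    (by rw [← map_add, cF])
  have hE0 : E₀ ≠ 0 := by
    intro h0
    subst h0
    have : cs (0 : A) hE₀ + cs (0 : A) hE₀ = cs (0 : A) hE₀ := by
      rw [← cs_add hE₀ hE₀ (by simp)]; congr 1; simp
    rw [c0, ← map_add] at this
    simpa using ψ.symm.injective this
  have hmin : ∀ r s : A, star r = r → r * r = r → star s = s → s * s = s → E₀ * r = r →
      E₀ * s = s → r * s = 0 → r = 0 ∨ s = 0 := by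
    intro r s r1 r2 s1 s2 hr hs hrs
    have pr : IsStarProjection r := ⟨r2, r1⟩
    have ps : IsStarProjection s := ⟨s2, s1⟩
    obtain ⟨hq, k⟩ := cs_of_le hE₀ pr hr
    obtain ⟨hq', k'⟩ := cs_of_le hq ps (by rw [sub_mul, hs, hrs, sub_zero])
    rw [k', c0] at k
    have := congrArg ψ k
    simp only [AddEquiv.apply_symm_apply, map_add] at this
    by_cases h0 : ψ (cs r pr) = 0
    · exact Or.inl (cs_eq_zero pr (ψ.map_eq_zero_iff.1 h0))
    · exact Or.inr (cs_eq_zero ps (ψ.map_eq_zero_iff.1 (by omega)))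
  obtain ⟨a₁, ha₁, ha₁'⟩ := (cs_eq_iff hE₀ hE₁).1 (c0.trans c1.symm)
  obtain ⟨a₂, ha₂, ha₂'⟩ := (cs_eq_iff hE₀ hE₂).1 (c0.trans c2.symm)
  have hw : ∀ v, ∃ w : A, star w * w = E₀ ∧ w * star w = Q v := fun v =>
    (cs_eq_iff hE₀ (hQ v)).1 (c0.trans (ψ.symm_apply_eq.2 (h1 v).symm))
  choose w hw1 hw2 using hw
  set a : Fin 3 → A := ![E₀, a₁, a₂] with ha
  have hEs := hE₀.isSelfAdjoint.star_eq
  have hEE := hE₀.isIdempotentElem.eq
  have has : ∀ i, star (a i) * a i = E₀ := by
    intro i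
    fin_cases i
    · simp [ha, hEs, hEE]
    · simpa [ha] using ha₁
    · simpa [ha] using ha₂
  have hsum : ∑ i, a i * star (a i) = Ω := by
    simp [Fin.sum_univ_three, ha, hEs, hEE, ha₁', ha₂', s1, s2, add_assoc]
  have src : ∀ x : A, star x * x = E₀ → x * E₀ = x := by
    intro x hx
    have := pi_mul_source (u := x) (by rw [hx, hEE])
    rwa [hx] at this
  have hc : ∀ v i, ∃ z : ℂ, star (a i) * w v = z • E₀ := by
    intro v i
    refine corner_scalar hA hEs hEE hE0 hmin _ ?_ ?_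
    · have := congrArg star (src _ (has i))
      rw [star_mul, hEs] at this
      rw [← mul_assoc, this]
    · rw [mul_assoc, src _ (hw1 v)]
  choose lam hlam using hc
  have hQw : ∀ v, Q v * w v = w v := by
    intro v
    rw [← hw2, mul_assoc, hw1, src _ (hw1 v)]
  have hin : ∀ u v, star (w u) * w v = (∑ i, star (lam u i) * lam v i) • E₀ := by
    intro u v
    have e1 : Ω * w v = w v := by rw [← hQw v, ← mul_assoc, hle]
    rw [← e1, ← hsum, Finset.sum_mul, Finset.mul_sum, Finset.sum_smul]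
    refine Finset.sum_congr rfl fun i _ => ?_
    have e2 : star (w u) * a i = star (lam u i) • E₀ := by
      have := congrArg star (hlam u i)
      rwa [star_mul, star_star, star_smul, hEs] at this
    rw [mul_assoc, ← mul_assoc, e2, hlam, smul_mul_smul_comm, hEE]
  refine ⟨lam, fun v h0 => hE0 ?_, fun u v huv => ?_⟩
  · rw [← hw1 v, hin v v, h0]; simp
  · have e1 : star (w u) * Q u = star (w u) := by
      have := congrArg star (hQw u)
      rwa [star_mul, (hQ u).isSelfAdjoint.star_eq] at this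
    have e2 : star (w u) * w v = 0 := by
      rw [← e1, ← hQw v, mul_assoc, ← mul_assoc (Q u), huv]; simp
    rw [hin] at e2
    exact (smul_eq_zero.1 e2).resolve_right hE0

end CStar

/-- A lifting in `RR0` of a diagram with the listed properties gives an orthogonal
representation of the graph in `ℂ^3`. -/
theorem orth_rep_of_lift {P : Type} [Preorder P] (M : P ⥤ AddCommMonCat.{u}) {W : Type}
    (adj : W → W → Prop) (bot top : P) (sing : W → P) (pair : ∀ u v, adj u v → P)
    (hb : ∀ v, bot ≤ sing v) (ht : ∀ p, p ≤ top)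
    (hl : ∀ u v h, sing u ≤ pair u v h) (hr : ∀ u v h, sing v ≤ pair u v h)
    (one : M.obj bot) (hone : one ≠ 0) (hgen : ∀ x : M.obj bot, x ≠ 0 → ∃ z, x = one + z)
    (eps : ∀ v, M.obj (sing v)) (heps : ∀ v, ∃ z, M.map (homOfLE (hb v)) one = eps v + z)
    (horth : ∀ u v h (x z z' : M.obj (pair u v h)), x + z = M.map (homOfLE (hl u v h)) (eps u) →
      x + z' = M.map (homOfLE (hr u v h)) (eps v) → x = 0)
    (ψ : M.obj top ≃+ ℕ) (h3 : ψ (M.map (homOfLE (ht bot)) one) = 3)
    (h1 : ∀ v, ψ (M.map (homOfLE (ht (sing v))) (eps v)) = 1)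
    (A : P ⥤ RR0.{u}) (η : A ⋙ VRR0 ≅ M) :
    ∃ lam : W → Fin 3 → ℂ, (∀ v, lam v ≠ 0) ∧
      ∀ u v, adj u v → ∑ i, star (lam u i) * lam v i = 0 := by
  let φ : ∀ p, Vs (A.obj p).carrier ≃+ M.obj p := fun p =>
    AddMonoidHom.toAddEquiv (η.hom.app p).hom (η.inv.app p).hom
      (congrArg AddCommMonCat.Hom.hom (η.hom_inv_id_app p))
      (congrArg AddCommMonCat.Hom.hom (η.inv_hom_id_app p))
  let f : ∀ {p q : P}, p ≤ q → ((A.obj p).carrier →⋆ₙₐ[ℂ] (A.obj q).carrier) :=
    fun h => A.map (homOfLE h)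
  have nat : ∀ {p q : P} (h : p ≤ q) (x : (A.obj p).carrier) (hx : IsStarProjection x),
      φ q (cs (f h x) (hx.map (f h))) = M.map (homOfLE h) (φ p (cs x hx)) := by
    intro p q h x hx
    have := ConcreteCategory.congr_hom (η.hom.naturality (homOfLE h)) (cs x hx)
    exact this
  have comp : ∀ {p q r : P} (h : p ≤ q) (h' : q ≤ r) (x : (A.obj p).carrier),
      f h' (f h x) = f (h.trans h') x := by
    intro p q r h h' x
    have : f (h.trans h') = (f h').comp (f h) := A.map_comp (homOfLE h) (homOfLE h')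
    rw [this]; rfl
  obtain ⟨p, hp, hp0⟩ := exists_proj_ne_zero (A.obj bot).rr0 (a := (φ bot).symm one)
    (by simpa using hone)
  obtain ⟨z, hz⟩ := hgen (φ bot (cs p hp)) (by simpa using hp0)
  obtain ⟨p₀, -, hp₀, -, -, -, c0, -⟩ := cs_split hp (a := (φ bot).symm one)
    (b := (φ bot).symm z) (by rw [← map_add, ← hz]; simp)
  have c0' : φ bot (cs p₀ hp₀) = one := by rw [c0]; simp
  have hq : ∀ v, ∃ (q : (A.obj (sing v)).carrier) (hq : IsStarProjection q),
      f (hb v) p₀ * q = q ∧ φ _ (cs q hq) = eps v := by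
    intro v
    obtain ⟨z, hz⟩ := heps v
    obtain ⟨q, q', hq, hq', s, o, c, -⟩ := cs_split (hp₀.map (f (hb v)))
      (a := (φ _).symm (eps v)) (b := (φ _).symm z)
      (by rw [← map_add, ← hz, ← c0', ← nat]; simp)
    refine ⟨q, hq, ?_, by rw [c]; simp⟩
    have o' : q' * q = 0 := by
      have := congrArg star o
      rwa [star_mul, hq.isSelfAdjoint.star_eq, hq'.isSelfAdjoint.star_eq, star_zero] at this
    rw [s, add_mul, o', hq.isIdempotentElem.eq, add_zero]
  choose q hq hq1 hq2 using hq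
  obtain ⟨lam, l1, l2⟩ := exists_coords (A.obj top).rr0 ((φ top).trans ψ)
    (hp₀.map (f (ht bot))) (by rw [AddEquiv.trans_apply, nat _ _ hp₀, c0', h3])
    (fun v => f (ht (sing v)) (q v)) (fun v => (hq v).map _)
    (fun v => by rw [AddEquiv.trans_apply, nat _ _ (hq v), hq2, h1])
    (fun v => by rw [← comp (hb v) (ht (sing v)), ← map_mul, hq1])
  refine ⟨lam, l1, fun u v h => l2 u v ?_⟩
  have := orth_of_class (A.obj (pair u v h)).rr0 ((hq u).map (f (hl u v h)))
    ((hq v).map (f (hr u v h))) (by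
      intro x z z' e1 e2
      have e1' := congrArg (φ _) e1
      have e2' := congrArg (φ _) e2
      rw [map_add, nat _ _ (hq u), hq2] at e1'
      rw [map_add, nat _ _ (hq v), hq2] at e2'
      simpa using horth u v h _ _ _ e1' e2')
  show f (ht (sing u)) (q u) * f (ht (sing v)) (q v) = 0
  rw [← comp (hl u v h) (ht _), ← comp (hr u v h) (ht _), ← map_mul, this, map_zero]

end Pool.Agent.Lib.MP_a87542_al
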