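import Pool.Agent.Lib.MP_a87542_al.SubAlg

/-!
The diagram of monoids given by a configuration of rank one idempotents does not depend on the
field.
-/

namespace Pool.Agent.Lib.MP_a87542_al

open Matrix CategoryTheory

universe u

lemma c1_eq_zero {R : Type u} [NonUnitalRing R] {g : R} (hg : g * g = g) (h : c1 g hg = 0) :
    g = 0 := by
  obtain ⟨x, y, h1, -⟩ : MvN (one11 g) (0 : Matrix (Fin 0) (Fin 0) R) := Quotient.exact h
  have := congrFun (congrFun h1 0) 0
  simpa [Matrix.mul_apply, one11] using this.symm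

lemma c1_sum {R : Type u} [NonUnitalRing R] {κ : Type} [DecidableEq κ] (g : κ → R)
    (hg : ∀ i, g i * g i = g i) (horth : ∀ i j, i ≠ j → g i * g j = 0) (t : Finset κ) :
    ∃ h, c1 (∑ i ∈ t, g i) h = ∑ i ∈ t, c1 (g i) (hg i) := by
  induction t using Finset.induction_on with
  | empty => exact ⟨by simp, (c1_congr _ (by simp)).trans c1_zero⟩
  | insert a t ha ih =>
    obtain ⟨h, ih⟩ := ih
    have h1 : g a * ∑ i ∈ t, g i = 0 := by
      rw [Finset.mul_sum]
      exact Finset.sum_eq_zero fun i hi => horth _ _ fun e => ha (e ▸ hi)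
    have h2 : (∑ i ∈ t, g i) * g a = 0 := by
      rw [Finset.sum_mul]
      exact Finset.sum_eq_zero fun i hi => horth _ _ fun e => ha (e ▸ hi)
    refine ⟨by rw [Finset.sum_insert ha]; simp [mul_add, add_mul, hg, h, h1, h2], ?_⟩
    rw [Finset.sum_insert ha (f := fun i => c1 (g i) (hg i)), ← ih, ← c1_add (hg a) h h1 h2]
    exact c1_congr _ (Finset.sum_insert ha)

variable {K : Type u} [Field K]

theorem struct_adjoin' {B : Type u} [Ring B] [Algebra K B] {κ : Type} [Fintype κ] [DecidableEq κ]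
    (g : κ → B) (hg : ∀ i, g i * g i = g i) (horth : ∀ i j, i ≠ j → g i * g j = 0)
    (hsum : ∑ i, g i = 1) (A : Set B) (hA : A ⊆ Set.range g) (S : Subalgebra K B)
    (hS : S = Algebra.adjoin K A) (hmem : ∀ i, g i ∈ S) (Q : κ → Prop)
    (hQ : ∀ i, Q i ↔ g i ≠ 0) :
    ∃ φ : V S ≃+ ({i // Q i} → ℕ), (∀ i (h : Q i),
      φ (c1 ⟨g i, hmem i⟩ (Subtype.ext (hg i))) = Pi.single ⟨i, h⟩ 1) ∧
      φ (c1 1 (one_idem S)) = fun _ => 1 := by
  obtain rfl : Q = fun i => g i ≠ 0 := funext fun i => propext (hQ i)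
  obtain ⟨-, φ, h⟩ := struct_adjoin g hg horth hsum A hA S hS hmem
  refine ⟨φ, h, ?_⟩
  obtain ⟨h1, h2⟩ := c1_sum (R := S) (fun i => ⟨g i, hmem i⟩) (fun i => Subtype.ext (hg i))
    (fun i j hij => Subtype.ext (horth i j hij)) Finset.univ
  have h3 : (∑ i, (⟨g i, hmem i⟩ : S)) = 1 :=
    Subtype.ext (by rw [AddSubmonoidClass.coe_finsetSum]; exact hsum)
  rw [← c1_congr h1 h3, h2, map_sum]
  funext j
  rw [Finset.sum_apply, Finset.sum_eq_single j.1]
  · rw [h j.1 j.2]; exact Pi.single_eq_same _ _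
  · intro i _ hi
    by_cases h0 : g i = 0
    · rw [c1_congr _ (show (⟨g i, hmem i⟩ : S) = 0 from Subtype.ext h0), c1_zero, map_zero]; rfl
    · rw [h i h0]
      exact Pi.single_eq_of_ne (fun e => hi (congrArg Subtype.val e).symm) _
  · simp

variable {W : Type} {x y : W → Fin 3 → K}

/-- The class of the unit. -/
noncomputable def cOne (s : Pt x y) : V (Rs x y s) := c1 1 (one_idem _)

/-- The class of a rank one idempotent. -/
noncomputable def cEv (hxy : ∀ v, y v ⬝ᵥ x v = 1) (s : Pt x y) (v : W) (hv : v ∈ s.1) :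
    V (Rs x y s) := c1 ⟨ev x y v, ev_mem x y hv⟩ (Subtype.ext (ev_idem hxy v))

open Classical in
lemma Rs_clique' [Finite W] (hxy : ∀ v, y v ⬝ᵥ x v = 1) (s : Pt x y) (hs : s.1 ≠ Set.univ) :
    ∃ φ : V (Rs x y s) ≃+ ({i : Option s.1 // i = none → Nat.card s.1 ≠ 3} → ℕ),
      (∀ v hv, φ (cEv hxy s v hv) = Pi.single ⟨some ⟨v, hv⟩, by simp⟩ 1) ∧
      φ (cOne s) = fun _ => 1 := by
  have : Fintype s.1 := Fintype.ofFinite _
  have hc := s.2.resolve_left hs
  have ho : ∀ u v : s.1, u ≠ v → ev x y u * ev x y v = 0 :=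
    fun u v h => ev_orth (hc u.2 v.2 fun h' => h (Subtype.ext h'))
  set S := ∑ v : s.1, ev x y v with hS
  have hl : ∀ v : s.1, S * ev x y v = ev x y v := by
    intro v
    rw [hS, Finset.sum_mul, Finset.sum_eq_single v]
    · exact ev_idem hxy _
    · intro u _ h; exact ho u v h
    · simp
  have hr : ∀ v : s.1, ev x y v * S = ev x y v := by
    intro v
    rw [hS, Finset.mul_sum, Finset.sum_eq_single v]
    · exact ev_idem hxy _
    · intro u _ h; exact ho v u h.symm
    · simp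
  have hSS : S * S = S := by
    conv_lhs => rw [hS, Finset.mul_sum]
    exact Finset.sum_congr rfl fun v _ => hl v
  let g : Option s.1 → Matrix (Fin 3) (Fin 3) K := fun o => o.elim (1 - S) fun v => ev x y v
  have hg : ∀ i, g i * g i = g i := by
    rintro (_ | v)
    · show (1 - S) * (1 - S) = 1 - S
      rw [sub_mul, mul_sub, mul_sub, hSS]; simp
    · exact ev_idem hxy _
  have horth : ∀ i j, i ≠ j → g i * g j = 0 := by
    rintro (_ | u) (_ | v) h
    · exact (h rfl).elim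
    · show (1 - S) * ev x y v = 0
      rw [sub_mul, hl]; simp
    · show ev x y u * (1 - S) = 0
      rw [mul_sub, hr]; simp
    · exact ho u v fun h' => h (congrArg _ h')
  have hsum : ∑ i, g i = 1 := by rw [Fintype.sum_option]; exact sub_add_cancel _ _
  have hQ : g none = 0 ↔ Nat.card s.1 = 3 := by
    obtain ⟨ψ, ψ1, ψ3⟩ := struct_top (K := K)
    obtain ⟨h1, h2⟩ := c1_sum g hg horth Finset.univ
    have h3 := congrArg ψ ((c1_congr h1 hsum).symm.trans h2)
    rw [ψ3, map_sum, Fintype.sum_option] at h3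
    have h4 : ∀ v : s.1, ψ (c1 (g (some v)) (hg (some v))) = 1 := fun v =>
      (congrArg ψ (c1_rank_one _ _ (hxy v) _)).trans ψ1
    rw [Finset.sum_congr rfl fun v _ => h4 v, Finset.sum_const, Finset.card_univ, smul_eq_mul,
      mul_one, ← Nat.card_eq_fintype_card] at h3
    constructor
    · intro h
      rw [c1_congr _ h, c1_zero, map_zero] at h3
      omega
    · intro h
      exact c1_eq_zero (hg none) (ψ.injective (by rw [map_zero]; omega))
  obtain ⟨φ, h1, h2⟩ := struct_adjoin' (K := K) g hg horth hsum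
    ({_m | s.1 = Set.univ} ∪ ev x y '' s.1)
    (by
      rintro m (hm | ⟨v, hv, rfl⟩)
      · exact (hs hm).elim
      · exact ⟨some ⟨v, hv⟩, rfl⟩)
    (Rs x y s) rfl
    (by
      rintro (_ | v)
      · exact sub_mem (one_mem _) (sum_mem fun v _ => ev_mem x y v.2)
      · exact ev_mem x y v.2)
    (fun i => i = none → Nat.card s.1 ≠ 3)
    (by
      rintro (_ | v)
      · simp [hQ]
      · exact ⟨fun _ => ev_ne hxy v, fun _ h => (Option.some_ne_none _ h).elim⟩)
  exact ⟨φ, fun v hv => h1 (some ⟨v, hv⟩) _, h2⟩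

lemma Rs_top' (hxy : ∀ v, y v ⬝ᵥ x v = 1) (s : Pt x y) (hs : s.1 = Set.univ) :
    ∃ φ : V (Rs x y s) ≃+ ℕ, (∀ v hv, φ (cEv hxy s v hv) = 1) ∧ φ (cOne s) = 3 := by
  obtain ⟨φ, -, hφ⟩ := Rs_top s hs
  obtain ⟨ψ, ψ1, ψ3⟩ := struct_top (K := K)
  refine ⟨φ.trans ψ, fun v hv => ?_, (congrArg ψ (hφ 1 (one_idem _))).trans ψ3⟩
  refine (congrArg ψ (hφ ⟨ev x y v, ev_mem x y hv⟩ (Subtype.ext (ev_idem hxy v)))).trans ?_
  rw [← ψ1]
  exact congrArg ψ (c1_rank_one _ _ (hxy v) _)

/-- Additive maps into a cancellative monoid are determined by their values on the unit and on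
the rank one idempotents. -/
lemma Rs_ext [Finite W] [Nonempty W] (hxy : ∀ v, y v ⬝ᵥ x v = 1) (s : Pt x y) {N : Type u}
    [AddCommMonoid N] (hN : ∀ a b c : N, a + b = c + b → a = c) (f g : V (Rs x y s) →+ N)
    (h1 : f (cOne s) = g (cOne s)) (h2 : ∀ v hv, f (cEv hxy s v hv) = g (cEv hxy s v hv)) :
    f = g := by
  classical
  by_cases hs : s.1 = Set.univ
  · obtain ⟨φ, e1, -⟩ := Rs_top' hxy s hs
    obtain ⟨v⟩ := ‹Nonempty W›
    have hv : v ∈ s.1 := hs ▸ Set.mem_univ v
    ext a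
    have : a = φ a • cEv hxy s v hv := φ.injective (by rw [map_nsmul, e1, smul_eq_mul, mul_one])
    rw [this, map_nsmul, map_nsmul, h2]
  · obtain ⟨φ, e1, e2⟩ := Rs_clique' hxy s hs
    have : Fintype s.1 := Fintype.ofFinite _
    have k1 : ∀ i : {i : Option s.1 // i = none → Nat.card s.1 ≠ 3}, i.1 ≠ none →
        f (φ.symm (Pi.single i 1)) = g (φ.symm (Pi.single i 1)) := by
      rintro ⟨_ | ⟨v, hv⟩, hi⟩ h
      · exact (h rfl).elim
      · have : φ.symm (Pi.single ⟨some ⟨v, hv⟩, hi⟩ 1) = cEv hxy s v hv := by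
          rw [AddEquiv.symm_apply_eq, e1]
        rw [this, h2]
    have k2 : cOne s = ∑ i, φ.symm (Pi.single i 1) := by
      rw [← map_sum, AddEquiv.eq_symm_apply, e2]
      exact (Finset.univ_sum_single fun _ => 1).symm
    have k3 : ∀ i, f (φ.symm (Pi.single i 1)) = g (φ.symm (Pi.single i 1)) := by
      intro i
      by_cases hi : i.1 = none
      · rw [k2, map_sum, map_sum, ← Finset.add_sum_erase _ _ (Finset.mem_univ i),
          ← Finset.add_sum_erase _ _ (Finset.mem_univ i),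
          Finset.sum_congr rfl fun j hj => k1 j fun e =>
            (Finset.mem_erase.1 hj).1 (Subtype.ext (e.trans hi.symm))] at h1
        exact hN _ _ _ h1
      · exact k1 i hi
    ext a
    have : a = ∑ i, φ a i • φ.symm (Pi.single i 1) := by
      apply φ.injective
      rw [map_sum]
      conv_lhs => rw [← Finset.univ_sum_single (φ a)]
      refine Finset.sum_congr rfl fun i _ => ?_
      rw [map_nsmul, AddEquiv.apply_symm_apply, ← Pi.single_smul', smul_eq_mul, mul_one]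
    rw [this, map_sum, map_sum]
    exact Finset.sum_congr rfl fun i _ => by rw [map_nsmul, map_nsmul, k3]

variable {K' : Type u} [Field K'] {x' y' : W → Fin 3 → K'}

/-- A clique for the finer orthogonality relation is a clique for the coarser one. -/
def up (h : ∀ u v, Adj x' y' u v → Adj x y u v) (s : Pt x' y') : Pt x y :=
  ⟨s.1, s.2.imp id fun hs => hs.mono' fun u v => h u v⟩

lemma exists_theta [Finite W] (hxy : ∀ v, y v ⬝ᵥ x v = 1) (hxy' : ∀ v, y' v ⬝ᵥ x' v = 1)
    (h : ∀ u v, Adj x' y' u v → Adj x y u v) (s : Pt x' y') :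
    ∃ θ : V (Rs x y (up h s)) ≃+ V (Rs x' y' s), θ (cOne _) = cOne s ∧
      ∀ v hv, θ (cEv hxy (up h s) v hv) = cEv hxy' s v hv := by
  by_cases hs : s.1 = Set.univ
  · obtain ⟨φ, e1, e2⟩ := Rs_top' hxy (up h s) hs
    obtain ⟨ψ, f1, f2⟩ := Rs_top' hxy' s hs
    refine ⟨φ.trans ψ.symm, ?_, fun v hv => ?_⟩
    · rw [AddEquiv.trans_apply, AddEquiv.symm_apply_eq, e2, f2]
    · rw [AddEquiv.trans_apply, AddEquiv.symm_apply_eq, e1, f1]
  · obtain ⟨φ, e1, e2⟩ := Rs_clique' hxy (up h s) hs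
    obtain ⟨ψ, f1, f2⟩ := Rs_clique' hxy' s hs
    refine ⟨φ.trans ψ.symm, ?_, fun v hv => ?_⟩
    · exact ψ.symm_apply_eq.2 (e2.trans f2.symm)
    · exact ψ.symm_apply_eq.2 ((e1 v hv).trans (f1 v hv).symm)

/-- The diagram of regular rings over `K` indexed by the cliques of the configuration over `K'`. -/
def RfUp [Finite W] (hxy : ∀ v, y v ⬝ᵥ x v = 1) (h : ∀ u v, Adj x' y' u v → Adj x y u v) :
    Pt x' y' ⥤ Reg.{u} :=
  subDiagram (fun s => Rs x y (up h s)) (fun _ _ hst => Rs_mono x y hst)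
    fun s => ((Rf hxy).obj (up h s)).regular

theorem RfUp_iso [Finite W] [Nonempty W] (hxy : ∀ v, y v ⬝ᵥ x v = 1)
    (hxy' : ∀ v, y' v ⬝ᵥ x' v = 1) (h : ∀ u v, Adj x' y' u v → Adj x y u v) :
    Nonempty (RfUp hxy h ⋙ VReg ≅ Rf hxy' ⋙ VReg) := by
  choose θ h1 h2 using exists_theta hxy hxy' h
  refine ⟨NatIso.ofComponents (F := RfUp hxy h ⋙ VReg) (G := Rf hxy' ⋙ VReg)
    (fun s => (θ s).toAddCommMonCatIso) ?_⟩
  intro s t hst
  have hN : ∀ a b c : V (Rs x' y' t), a + b = c + b → a = c := by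
    obtain ⟨n, ⟨φ⟩⟩ := Rf_simplicial hxy' t
    intro a b c e
    have e' : φ a + φ b = φ c + φ b :=
      (φ.map_add a b).symm.trans ((congrArg φ e).trans (φ.map_add c b))
    exact φ.injective (add_right_cancel e')
  have hle : s ≤ t := leOfHom hst
  have key := Rs_ext hxy (up h s) hN
    ((θ t).toAddMonoidHom.comp (V.map (incl (Rs_mono x y (s := up h s) (t := up h t) hle))))
    ((V.map (incl (Rs_mono x' y' hle))).comp (θ s).toAddMonoidHom)
    ((h1 t).trans (congrArg (V.map (incl (Rs_mono x' y' hle))) (h1 s)).symm)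
    fun v hv => (h2 t v (hle hv)).trans
      (congrArg (V.map (incl (Rs_mono x' y' hle))) (h2 s v hv)).symm
  exact AddCommMonCat.hom_ext key

end Pool.Agent.Lib.MP_a87542_al
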