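import Pool.Agent.Lib.MP_a87542_al.NoLift

/-!
Computation of `V` for finite products of a field and for the `3 × 3` matrices over a field.
-/

namespace Pool.Agent.Lib.MP_a87542_al

open Matrix

universe u

section General

variable {R : Type u} [NonUnitalRing R] {I J : Type} [Fintype I] [Fintype J]

/-- The class of an idempotent matrix with an arbitrary finite index type. -/
noncomputable def cl (e : Matrix I I R) (he : e * e = e) : V R :=
  Quotient.mk _ ⟨Fintype.card I, e.submatrix (Fintype.equivFin I).symm (Fintype.equivFin I).symm,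
    idem_submatrix he _⟩

lemma cl_eq_iff {e : Matrix I I R} {f : Matrix J J R} (he : e * e = e) (hf : f * f = f) :
    cl e he = cl f hf ↔ MvN e f := by
  have a := MvN.submatrix he (Fintype.equivFin I).symm
  have b := MvN.submatrix hf (Fintype.equivFin J).symm
  constructor
  · intro h
    have h' : MvN (e.submatrix (Fintype.equivFin I).symm (Fintype.equivFin I).symm)
      (f.submatrix (Fintype.equivFin J).symm (Fintype.equivFin J).symm) := Quotient.exact h
    exact MvN.trans he hf a.symm (MvN.trans (idem_submatrix he _) hf h' b)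
  · intro h
    exact Quotient.sound (MvN.trans (idem_submatrix he _) (idem_submatrix hf _) a
      (MvN.trans he (idem_submatrix hf _) h b.symm))

lemma mk_eq_cl (e : Idem R) : (Quotient.mk _ e : V R) = cl e.mat e.idem :=
  Quotient.sound (MvN.submatrix e.idem _).symm

lemma cl_fromBlocks {e : Matrix I I R} {f : Matrix J J R} (he : e * e = e) (hf : f * f = f) :
    cl (fromBlocks e 0 0 f) (idem_fromBlocks he hf) = cl e he + cl f hf := by
  set E : Idem R := ⟨_, _, idem_submatrix he (Fintype.equivFin I).symm⟩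
  set F : Idem R := ⟨_, _, idem_submatrix hf (Fintype.equivFin J).symm⟩
  have : cl e he + cl f hf = Quotient.mk _ (E.add F) := rfl
  rw [this, mk_eq_cl, cl_eq_iff]
  exact (MvN.trans (E.add F).idem (idem_fromBlocks he hf) (E.add_mvn F)
    ((MvN.submatrix he _).fromBlocks (MvN.submatrix hf _))).symm

/-- The class of an idempotent of `R`. -/
def c1 (g : R) (hg : g * g = g) : V R :=
  Quotient.mk _ ⟨1, one11 g, by rw [one11_mul, hg]⟩

lemma c1_eq_of {p q x y : R} (hp : p * p = p) (hq : q * q = q) (h1 : x * y = p) (h2 : y * x = q) :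
    c1 p hp = c1 q hq :=
  Quotient.sound (show MvN (one11 p) (one11 q) from
    ⟨one11 x, one11 y, by rw [one11_mul, h1], by rw [one11_mul, h2]⟩)

lemma c1_congr {p q : R} (hp : p * p = p) (h : p = q) : c1 p hp = c1 q (h ▸ hp) := by
  subst h; rfl

lemma c1_zero : c1 (0 : R) (by simp) = 0 :=
  Quotient.sound (show MvN (one11 (0 : R)) (0 : Matrix (Fin 0) (Fin 0) R) from
    ⟨0, 0, by ext i j; simp [one11], by ext i; exact i.elim0⟩)

lemma map_c1 {S : Type u} [NonUnitalRing S] (φ : R →ₙ+* S) (g : R) (hg : g * g = g) :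
    V.map φ (c1 g hg) = c1 (φ g) (by rw [← map_mul, hg]) := rfl

lemma c1_add {p q : R} (hp : p * p = p) (hq : q * q = q) (hpq : p * q = 0) (hqp : q * p = 0) :
    c1 (p + q) (by simp [mul_add, add_mul, hp, hq, hpq, hqp]) = c1 p hp + c1 q hq := by
  have a : ∀ (g : R) (hg : g * g = g), c1 g hg = cl (one11 g) (by rw [one11_mul, hg]) :=
    fun g hg => mk_eq_cl _
  rw [a, a, a, ← cl_fromBlocks, cl_eq_iff]
  refine ⟨fromCols (one11 p) (one11 q), fromRows (one11 p) (one11 q), ?_, ?_⟩
  · rw [cols_mul_rows, one11_mul, one11_mul, hp, hq]; rfl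
  · rw [rows_mul_cols, one11_mul, one11_mul, one11_mul, one11_mul, hp, hq, hpq, hqp]; rfl

lemma diag_idem [DecidableEq I] {d : I → R} (hd : ∀ i, d i * d i = d i) :
    diagonal d * diagonal d = diagonal d := by
  rw [diagonal_mul_diagonal]; simp [hd]

lemma cl_diagonal_fin (n : ℕ) : ∀ (d : Fin n → R) (hd : ∀ i, d i * d i = d i),
    cl (diagonal d) (diag_idem hd) = ∑ i, c1 (d i) (hd i) := by
  induction n with
  | zero =>
    intro d hd
    have : (0 : V R) = Quotient.mk _ ⟨0, 0, by simp⟩ := rfl
    rw [Finset.univ_eq_empty, Finset.sum_empty, this, mk_eq_cl, cl_eq_iff]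
    exact ⟨0, 0, Subsingleton.elim _ _, by ext i; exact i.elim0⟩
  | succ n ih =>
    intro d hd
    have a : c1 (d 0) (hd 0) = cl (one11 (d 0)) (by rw [one11_mul, hd]) := mk_eq_cl _
    rw [Fin.sum_univ_succ, ← ih (fun i => d i.succ) (fun i => hd _), a,
      ← cl_fromBlocks, cl_eq_iff]
    let σ : Fin 1 ⊕ Fin n ≃ Fin (n + 1) := finSumFinEquiv.trans (finCongr (Nat.add_comm 1 n))
    have h1 : ∀ i : Fin 1, σ (Sum.inl i) = 0 := by
      intro i; ext; simp [σ]
    have h2 : ∀ i : Fin n, σ (Sum.inr i) = i.succ := by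
      intro i; ext; simp [σ]
    have := (MvN.submatrix (diag_idem hd) σ).symm
    have e : (diagonal d).submatrix σ σ =
        fromBlocks (one11 (d 0)) 0 0 (diagonal fun i : Fin n => d i.succ) := by
      ext (i | i) (j | j)
      · simp [h1, one11]
      · simp [h1, h2, (Fin.succ_ne_zero j).symm]
      · simp [h1, h2]
      · simp [h2, diagonal_apply]
    rwa [e] at this

lemma cl_diagonal [DecidableEq I] (d : I → R) (hd : ∀ i, d i * d i = d i) :
    cl (diagonal d) (diag_idem hd) = ∑ i, c1 (d i) (hd i) := by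
  let σ := (Fintype.equivFin I).symm
  rw [← σ.sum_comp, ← cl_diagonal_fin _ (fun i => d (σ i)) (fun i => hd _), cl_eq_iff]
  have := (MvN.submatrix (diag_idem hd) σ).symm
  have e : (diagonal d).submatrix σ σ = diagonal fun i => d (σ i) := by
    ext i j
    simp [diagonal_apply]
  rwa [e] at this

/-- The homomorphism from the free commutative monoid given by a family of idempotents. -/
def psi {ι : Type} [Fintype ι] (g : ι → R) (hg : ∀ i, g i * g i = g i) : (ι → ℕ) →+ V R where
  toFun m := ∑ i, m i • c1 (g i) (hg i)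
  map_zero' := by simp
  map_add' m m' := by simp [add_smul, Finset.sum_add_distrib]

lemma psi_eq_cl {ι : Type} [Fintype ι] [DecidableEq ι] (g : ι → R) (hg : ∀ i, g i * g i = g i)
    (m : ι → ℕ) :
    psi g hg m = cl (diagonal fun x : (Σ i, Fin (m i)) => g x.1)
      (diag_idem fun x : (Σ i, Fin (m i)) => hg x.1) := by
  rw [cl_diagonal _ (fun x : (Σ i, Fin (m i)) => hg x.1), Fintype.sum_sigma]
  show ∑ i, m i • c1 (g i) (hg i) = ∑ i, ∑ _j : Fin (m i), c1 (g i) (hg i)
  simp only [Finset.sum_const, Finset.card_univ, Fintype.card_fin]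

lemma psi_single {ι : Type} [Fintype ι] [DecidableEq ι] (g : ι → R) (hg : ∀ i, g i * g i = g i)
    (i : ι) : psi g hg (Pi.single i 1) = c1 (g i) (hg i) := by
  simp [psi, Pi.single_apply]

lemma V.map_comp' {S T : Type u} [NonUnitalRing S] [NonUnitalRing T] (φ : R →ₙ+* S)
    (ψ : S →ₙ+* T) (a : V R) : V.map ψ (V.map φ a) = V.map (ψ.comp φ) a :=
  Quotient.inductionOn a fun _ => rfl

lemma V.map_of_id (φ : R →ₙ+* R) (h : ∀ x, φ x = x) (a : V R) : V.map φ a = a := by
  have : φ = NonUnitalRingHom.id R := NonUnitalRingHom.ext h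
  subst this
  exact Quotient.inductionOn a fun _ => rfl

lemma V.map_bijective {S : Type u} [NonUnitalRing S] (φ : R ≃+* S) :
    Function.Bijective (V.map φ.toNonUnitalRingHom) := by
  refine Function.bijective_iff_has_inverse.2 ⟨V.map φ.symm.toNonUnitalRingHom, ?_, ?_⟩
  · intro a
    rw [V.map_comp']
    exact V.map_of_id _ (fun x => φ.symm_apply_apply x) a
  · intro a
    rw [V.map_comp']
    exact V.map_of_id _ (fun x => φ.apply_symm_apply x) a

end General

section Field

variable {K : Type u} [Field K] {I J : Type} [Fintype I] [Fintype J]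

/-- Rank factorisation. -/
lemma exists_factor [DecidableEq I] (a : Matrix I I K) : ∃ (r : ℕ) (x : Matrix I (Fin r) K)
    (y : Matrix (Fin r) I K) (x' : Matrix (Fin r) I K) (y' : Matrix I (Fin r) K),
    x * y = a ∧ x' * x = 1 ∧ y * y' = 1 := by
  set f := Matrix.toLin' a
  set U := LinearMap.range f
  let b := Module.finBasis K U
  let X : (Fin (Module.finrank K U) → K) →ₗ[K] (I → K) := U.subtype ∘ₗ b.equivFun.symm.toLinearMap
  let Y : (I → K) →ₗ[K] (Fin (Module.finrank K U) → K) := b.equivFun.toLinearMap ∘ₗ f.rangeRestrict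
  have hX : LinearMap.ker X = ⊥ :=
    LinearMap.ker_eq_bot.2 (U.injective_subtype.comp b.equivFun.symm.injective)
  have hY : LinearMap.range Y = ⊤ :=
    LinearMap.range_eq_top.2 (b.equivFun.surjective.comp f.surjective_rangeRestrict)
  obtain ⟨X', hX'⟩ := X.exists_leftInverse_of_injective hX
  obtain ⟨Y', hY'⟩ := Y.exists_rightInverse_of_surjective hY
  refine ⟨_, LinearMap.toMatrix' X, LinearMap.toMatrix' Y, LinearMap.toMatrix' X',
    LinearMap.toMatrix' Y', ?_, ?_, ?_⟩
  · rw [← LinearMap.toMatrix'_comp]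
    have : X ∘ₗ Y = f := by
      ext v i
      simp [X, Y]
    rw [this, LinearMap.toMatrix'_toLin']
  · rw [← LinearMap.toMatrix'_comp, hX', LinearMap.toMatrix'_id]
  · rw [← LinearMap.toMatrix'_comp, hY', LinearMap.toMatrix'_id]

lemma matrix_regular (a : Matrix I I K) : ∃ x : Matrix I I K, a * x * a = a := by
  classical
  obtain ⟨r, x, y, x', y', h1, h2, h3⟩ := exists_factor a
  refine ⟨y' * x', ?_⟩
  calc a * (y' * x') * a = x * (y * y') * (x' * x) * y := by
        rw [← h1]; simp only [Matrix.mul_assoc]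
    _ = a := by rw [h2, h3, Matrix.mul_one, Matrix.mul_one, h1]

lemma exists_factor_idem [DecidableEq I] (e : Matrix I I K) (he : e * e = e) : ∃ (r : ℕ) (x : Matrix I (Fin r) K)
    (y : Matrix (Fin r) I K), x * y = e ∧ y * x = 1 := by
  obtain ⟨r, x, y, x', y', h1, h2, h3⟩ := exists_factor e
  refine ⟨r, x, y, h1, ?_⟩
  calc y * x = (x' * x) * (y * x) * (y * y') := by rw [h2, h3, Matrix.mul_one, Matrix.one_mul]
    _ = x' * (x * y * (x * y)) * y' := by simp only [Matrix.mul_assoc]
    _ = x' * (x * y) * y' := by rw [h1, he]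
    _ = (x' * x) * (y * y') := by simp only [Matrix.mul_assoc]
    _ = 1 := by rw [h2, h3, Matrix.mul_one]

lemma nsmul_c1_inj {r s : ℕ} (h : r • c1 (1 : K) (by simp) = s • c1 (1 : K) (by simp)) : r = s := by
  have key : ∀ n : ℕ, n • c1 (1 : K) (by simp) =
      cl (diagonal fun _ : Fin n => (1 : K)) (diag_idem fun _ => one_mul _) := by
    intro n
    rw [cl_diagonal _ (fun _ => one_mul _), Finset.sum_const, Finset.card_univ, Fintype.card_fin]
  rw [key, key, cl_eq_iff] at h
  obtain ⟨x, y, h1, h2⟩ := h
  have a1 : (x * y).rank = r := by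
    rw [h1]
    have := Matrix.rank_one (n := Fin r) (R := K)
    rw [Fintype.card_fin] at this
    exact this
  have a2 : (y * x).rank = s := by
    rw [h2]
    have := Matrix.rank_one (n := Fin s) (R := K)
    rw [Fintype.card_fin] at this
    exact this
  have b1 := (rank_mul_le_left x y).trans (rank_le_width x)
  have b2 := (rank_mul_le_left y x).trans (rank_le_width y)
  omega

variable {ι : Type} [Fintype ι] [DecidableEq ι]

omit [Fintype ι] in
lemma single_idem (i : ι) : (Pi.single i 1 : ι → K) * Pi.single i 1 = Pi.single i 1 := by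
  rw [← Pi.single_mul]; simp

lemma psi_pi_bijective :
    Function.Bijective (psi (fun i : ι => (Pi.single i 1 : ι → K)) single_idem) := by
  constructor
  · intro m m' h
    funext i
    have key : ∀ n : ι → ℕ, V.map (Pi.evalRingHom (fun _ : ι => K) i).toNonUnitalRingHom
        (psi (fun i : ι => (Pi.single i 1 : ι → K)) single_idem n)
          = n i • c1 (1 : K) (by simp) := by
      intro n
      simp only [psi, AddMonoidHom.coe_mk, ZeroHom.coe_mk, map_sum, map_nsmul, map_c1]
      rw [Finset.sum_eq_single i]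
      · exact congrArg _ (c1_congr _ (Pi.single_eq_same (M := fun _ : ι => K) i 1))
      · intro j _ hj
        have h0 : (Pi.evalRingHom (fun _ : ι => K) i).toNonUnitalRingHom (Pi.single j 1) = 0 :=
          Pi.single_eq_of_ne (M := fun _ : ι => K) (Ne.symm hj) 1
        rw [c1_congr _ h0, c1_zero, smul_zero]
      · simp
    apply nsmul_c1_inj (K := K)
    rw [← key, ← key, h]
  · intro a
    obtain ⟨E, rfl⟩ := Quotient.exists_rep a
    have hE : ∀ i : ι, E.mat.map (Pi.evalRingHom (fun _ : ι => K) i) *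
        E.mat.map (Pi.evalRingHom (fun _ : ι => K) i) =
        E.mat.map (Pi.evalRingHom (fun _ : ι => K) i) := fun i => by
      rw [← Matrix.map_mul, E.idem]
    choose r x y h1 h2 using fun i => exists_factor_idem _ (hE i)
    refine ⟨r, ?_⟩
    rw [psi_eq_cl, mk_eq_cl, cl_eq_iff]
    refine ⟨Matrix.of fun p a => Pi.single p.1 (y p.1 p.2 a),
      Matrix.of fun a p => Pi.single p.1 (x p.1 a p.2), ?_, ?_⟩
    · ext ⟨i, j⟩ ⟨i', j'⟩ k
      simp only [mul_apply, of_apply, Finset.sum_apply, Pi.mul_apply, diagonal_apply]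
      by_cases hi : i = i'
      · subst hi
        have := congrFun (congrFun (h2 i) j) j'
        simp only [mul_apply, one_apply] at this
        by_cases hk : k = i
        · subst hk
          simp only [Pi.single_eq_same, this, Sigma.mk.injEq, heq_eq_eq, true_and]
          split_ifs <;> simp
        · simp only [Pi.single_eq_of_ne hk, mul_zero, Finset.sum_const_zero]
          split_ifs <;> simp [hk]
      · have : (⟨i, j⟩ : Σ i, Fin (r i)) ≠ ⟨i', j'⟩ := fun h => hi (congrArg Sigma.fst h)
        rw [if_neg this]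
        refine Finset.sum_eq_zero fun a _ => ?_
        by_cases hk : k = i
        · subst hk; simp [Pi.single_eq_of_ne hi]
        · simp [Pi.single_eq_of_ne hk]
    · ext a b k
      simp only [mul_apply, of_apply, Finset.sum_apply, Pi.mul_apply]
      rw [Fintype.sum_sigma, Finset.sum_eq_single k]
      · have := congrFun (congrFun (h1 k) a) b
        simpa [mul_apply] using this
      · intro i _ hi
        simp [Pi.single_eq_of_ne (Ne.symm hi)]
      · simp

/-- Algebras spanned by a complete family of non-zero orthogonal idempotents. -/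
theorem struct_of_idem {T : Type u} [Ring T] [Algebra K T] (g : ι → T)
    (hg : ∀ i, g i * g i = g i) (horth : ∀ i j, i ≠ j → g i * g j = 0) (hsum : ∑ i, g i = 1)
    (hne : ∀ i, g i ≠ 0) (hspan : ∀ t : T, ∃ a : ι → K, t = ∑ i, a i • g i) :
    (∀ a : T, ∃ x : T, a * x * a = a) ∧
      ∃ φ : V T ≃+ (ι → ℕ), ∀ i, φ (c1 (g i) (hg i)) = Pi.single i 1 := by
  have hmul : ∀ (a : ι → K) (j : ι), (∑ i, a i • g i) * g j = a j • g j := by
    intro a j
    rw [Finset.sum_mul, Finset.sum_eq_single j]
    · rw [smul_mul_assoc, hg]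
    · intro i _ hi; rw [smul_mul_assoc, horth i j hi, smul_zero]
    · simp
  let ρ : (ι → K) →+* T :=
    { toFun := fun a => ∑ i, a i • g i
      map_one' := by simpa using hsum
      map_mul' := fun a b => by
        rw [Finset.mul_sum]
        refine Finset.sum_congr rfl fun j _ => ?_
        rw [mul_smul_comm, hmul, smul_smul, Pi.mul_apply, mul_comm]
      map_zero' := by simp
      map_add' := fun a b => by simp [add_smul, Finset.sum_add_distrib] }
  have hρ : ∀ a, ρ a = ∑ i, a i • g i := fun _ => rfl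
  have hbij : Function.Bijective ρ := by
    constructor
    · rw [injective_iff_map_eq_zero]
      intro a ha
      funext j
      have := hmul a j
      rw [← hρ, ha, zero_mul] at this
      exact (smul_eq_zero.1 this.symm).resolve_right (hne j)
    · intro t
      obtain ⟨a, ha⟩ := hspan t
      exact ⟨a, ha.symm⟩
  constructor
  · intro t
    obtain ⟨a, rfl⟩ := hbij.2 t
    refine ⟨ρ a⁻¹, ?_⟩
    rw [← map_mul, ← map_mul]
    congr 1
    funext i
    by_cases h : a i = 0 <;> simp [h]
  · let e := RingEquiv.ofBijective ρ hbij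
    have hb := (V.map_bijective e).comp (psi_pi_bijective (K := K) (ι := ι))
    let Φ : (ι → ℕ) ≃+ V T := AddEquiv.ofBijective ((V.map e.toNonUnitalRingHom).comp
      (psi (fun i : ι => (Pi.single i 1 : ι → K)) single_idem)) hb
    refine ⟨Φ.symm, fun i => ?_⟩
    rw [AddEquiv.symm_apply_eq]
    show _ = V.map e.toNonUnitalRingHom (psi _ _ _)
    rw [psi_single, map_c1]
    refine c1_congr _ ?_
    show _ = ρ _
    simp [hρ, Pi.single_apply]

/-- The matrix unit. -/
def E0 (K : Type u) [Field K] : Matrix (Fin 3) (Fin 3) K := Matrix.single 0 0 1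

lemma E0_idem : E0 K * E0 K = E0 K := by simp [E0]

omit [Fintype I] in
lemma comp_mul {L : Type} (X : Matrix I J (Matrix (Fin 3) (Fin 3) K))
    (Y : Matrix J L (Matrix (Fin 3) (Fin 3) K)) :
    Matrix.comp _ _ _ _ _ (X * Y) = Matrix.comp _ _ _ _ _ X * Matrix.comp _ _ _ _ _ Y := by
  ext ⟨i, k⟩ ⟨j, l⟩
  simp [mul_apply, Fintype.sum_prod_type, Matrix.sum_apply]

lemma c1_rank_one (x y : Fin 3 → K) (h : y ⬝ᵥ x = 1) (hp) :
    c1 (vecMulVec x y) hp = c1 (E0 K) E0_idem := by
  refine c1_eq_of (x := vecMulVec x (Pi.single 0 1)) (y := vecMulVec (Pi.single 0 1) y) _ _ ?_ ?_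
  · rw [vecMulVec_mul_vecMulVec]; simp
  · rw [vecMulVec_mul_vecMulVec, h]
    ext i j
    fin_cases i <;> fin_cases j <;> simp [E0, vecMulVec_apply]

theorem struct_top : ∃ ψ : V (Matrix (Fin 3) (Fin 3) K) ≃+ ℕ,
    ψ (c1 (E0 K) E0_idem) = 1 ∧ ψ (c1 1 (by simp)) = 3 := by
  let θ : ℕ →+ V (Matrix (Fin 3) (Fin 3) K) :=
    { toFun := fun n => n • c1 (E0 K) E0_idem
      map_zero' := by simp
      map_add' := fun a b => add_smul _ _ _ }
  have key : ∀ n : ℕ, θ n = cl (diagonal fun _ : Fin n => E0 K) (diag_idem fun _ => E0_idem) := by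
    intro n
    rw [cl_diagonal _ (fun _ => E0_idem), Finset.sum_const, Finset.card_univ, Fintype.card_fin]
    rfl
  have hb : Function.Bijective θ := by
    constructor
    · intro r s h
      rw [key, key, cl_eq_iff] at h
      obtain ⟨x, y, h1, h2⟩ := h
      have flat : ∀ n : ℕ, Matrix.comp _ _ _ _ _ (diagonal fun _ : Fin n => E0 K) =
          diagonal fun p : Fin n × Fin 3 => if p.2 = 0 then (1 : K) else 0 := by
        rintro n
        ext ⟨i, k⟩ ⟨j, l⟩
        by_cases hij : i = j
        · subst hij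
          simp [E0, diagonal_apply, Matrix.single_apply, eq_comm, ite_and]
          split_ifs <;> simp_all
        · simp [hij]
      have idm : ∀ n : ℕ, ∀ p : Fin n × Fin 3, (if p.2 = 0 then (1 : K) else 0) *
          (if p.2 = 0 then (1 : K) else 0) = if p.2 = 0 then (1 : K) else 0 := by
        intro n p; split_ifs <;> simp
      have val : ∀ n : ℕ, cl (diagonal fun p : Fin n × Fin 3 => if p.2 = 0 then (1 : K) else 0)
          (diag_idem (idm n)) = n • c1 (1 : K) (by simp) := by
        intro n
        rw [cl_diagonal _ (idm n), Fintype.sum_prod_type]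
        have : ∀ i : Fin n, ∑ k : Fin 3, c1 (if (i, k).2 = 0 then (1 : K) else 0) (idm n (i, k)) =
            c1 (1 : K) (by simp) := by
          intro i
          rw [Fin.sum_univ_three, c1_congr _ (q := 1) (if_pos rfl),
            c1_congr (idm n (i, 1)) (q := 0) (if_neg (show (1 : Fin 3) ≠ 0 by decide)),
            c1_congr (idm n (i, 2)) (q := 0) (if_neg (show (2 : Fin 3) ≠ 0 by decide)), c1_zero, add_zero, add_zero]
        rw [Finset.sum_congr rfl fun i _ => this i, Finset.sum_const, Finset.card_univ,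
          Fintype.card_fin]
      apply nsmul_c1_inj (K := K)
      rw [← val, ← val, cl_eq_iff]
      refine ⟨Matrix.comp _ _ _ _ _ x, Matrix.comp _ _ _ _ _ y, ?_, ?_⟩
      · rw [← comp_mul, h1]; exact flat r
      · rw [← comp_mul, h2]; exact flat s
    · intro a
      obtain ⟨E, rfl⟩ := Quotient.exists_rep a
      obtain ⟨r, x, y, h1, h2⟩ := exists_factor_idem (Matrix.comp _ _ _ _ _ E.mat)
        (by rw [← comp_mul, E.idem])
      refine ⟨r, ?_⟩
      rw [key, mk_eq_cl, cl_eq_iff]
      refine ⟨Matrix.of fun j a => vecMulVec (Pi.single 0 1) fun k => y j (a, k),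
        Matrix.of fun a j => vecMulVec (fun k => x (a, k) j) (Pi.single 0 1), ?_, ?_⟩
      · ext j j' k l
        have := congrFun (congrFun h2 j) j'
        simp only [mul_apply, Fintype.sum_prod_type, one_apply] at this
        simp only [mul_apply, of_apply, vecMulVec_mul_vecMulVec, Matrix.sum_apply, vecMulVec_apply,
          Pi.smul_apply, smul_eq_mul, dotProduct, diagonal_apply]
        rw [← Finset.mul_sum, ← Finset.sum_mul, this]
        split_ifs
        · fin_cases k <;> fin_cases l <;> simp [E0]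
        · simp
      · ext a b k l
        have := congrFun (congrFun h1 (a, k)) (b, l)
        simp only [mul_apply, comp_apply] at this
        simp [mul_apply, vecMulVec_mul_vecMulVec, Matrix.sum_apply, vecMulVec_apply, this]
  let Φ := AddEquiv.ofBijective θ hb
  have h1 : Φ.symm (c1 (E0 K) E0_idem) = 1 := by
    rw [AddEquiv.symm_apply_eq]
    show _ = θ 1
    simp [θ]
  refine ⟨Φ.symm, h1, ?_⟩
  let u : Fin 3 → Matrix (Fin 3) (Fin 3) K := fun i => vecMulVec (Pi.single i 1) (Pi.single i 1)
  have hu : ∀ i j, u i * u j = if i = j then u i else 0 := by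
    intro i j
    simp only [u, vecMulVec_mul_vecMulVec]
    split_ifs with h
    · subst h; simp
    · simp [h]
  have hi : ∀ i, u i * u i = u i := fun i => by simp [hu]
  have e : (1 : Matrix (Fin 3) (Fin 3) K) = u 0 + (u 1 + u 2) := by
    ext i j
    fin_cases i <;> fin_cases j <;> simp [u, vecMulVec_apply]
  rw [c1_congr _ e, c1_add (hi 0) (by simp [mul_add, add_mul, hu]) (by simp [mul_add, hu])
    (by simp [add_mul, hu]), c1_add (hi 1) (hi 2) (by simp [hu]) (by simp [hu]),
    map_add, map_add, c1_rank_one _ _ (by simp), c1_rank_one _ _ (by simp),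
    c1_rank_one _ _ (by simp), h1]

end Field

end Pool.Agent.Lib.MP_a87542_al
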