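import Pool.Agent.Lib.MP_a87542_al.RingV

/-!
The ideal spanned by the projections of a C*-algebra of real rank zero whose monoid `V` has a
faithful additive degree is a regular ring with the same monoid `V`.
-/

namespace Pool.Agent.Lib.MP_a87542_al

open Matrix CategoryTheory

universe u

section Gen

variable {A : Type u} [NonUnitalRing A]

/-- Finite sums of products `a * p * b` with `p` in `D`. -/
def gen (D : A → Prop) : AddSubmonoid A :=
  AddSubmonoid.closure {t | ∃ a p b, D p ∧ t = a * p * b}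

lemma gen_mem {D : A → Prop} {p : A} (h : D p) (a b : A) : a * p * b ∈ gen D :=
  AddSubmonoid.subset_closure ⟨a, p, b, h, rfl⟩

lemma gen_mul_left {D : A → Prop} (c : A) {x : A} (hx : x ∈ gen D) : c * x ∈ gen D := by
  induction hx using AddSubmonoid.closure_induction with
  | mem x hx =>
    obtain ⟨a, p, b, h, rfl⟩ := hx
    rw [← mul_assoc, ← mul_assoc]; exact gen_mem h _ _
  | zero => simp
  | add x y _ _ hx hy => rw [mul_add]; exact add_mem hx hy

lemma gen_mul_right {D : A → Prop} (c : A) {x : A} (hx : x ∈ gen D) : x * c ∈ gen D := by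
  induction hx using AddSubmonoid.closure_induction with
  | mem x hx =>
    obtain ⟨a, p, b, h, rfl⟩ := hx
    rw [mul_assoc (a * p)]; exact gen_mem h _ _
  | zero => simp
  | add x y _ _ hx hy => rw [add_mul]; exact add_mem hx hy

lemma gen_neg {D : A → Prop} {x : A} (hx : x ∈ gen D) : -x ∈ gen D := by
  induction hx using AddSubmonoid.closure_induction with
  | mem x hx =>
    obtain ⟨a, p, b, h, rfl⟩ := hx
    rw [← mul_neg]; exact gen_mem h _ _
  | zero => simp
  | add x y _ _ hx hy => rw [neg_add]; exact add_mem hx hy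

/-- The ideal `gen D` as a subring. -/
def genRing (D : A → Prop) : NonUnitalSubring A where
  carrier := gen D
  add_mem' := add_mem
  zero_mem' := zero_mem _
  mul_mem' := fun _ hb => gen_mul_left _ hb
  neg_mem' := gen_neg

variable {I J K : Type} [Fintype I] [Fintype J] [Fintype K]

omit [Fintype I] [Fintype K] in
lemma gen_mat_left {D : A → Prop} (X : Matrix I J A) {Y : Matrix J K A}
    (h : ∀ i j, Y i j ∈ gen D) (i : I) (k : K) : (X * Y) i k ∈ gen D := by
  rw [Matrix.mul_apply]
  exact sum_mem fun j _ => gen_mul_left _ (h j k)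

omit [Fintype I] [Fintype K] in
lemma gen_mat_right {D : A → Prop} {X : Matrix I J A} (Y : Matrix J K A)
    (h : ∀ i j, X i j ∈ gen D) (i : I) (k : K) : (X * Y) i k ∈ gen D := by
  rw [Matrix.mul_apply]
  exact sum_mem fun j _ => gen_mul_right _ (h i j)

/-- The inclusion of the ideal. -/
def genIncl (D : A → Prop) : genRing D →ₙ+* A := NonUnitalSubringClass.subtype (genRing D)

/-- A matrix with entries in the ideal as a matrix over the ideal. -/
def liftMat {D : A → Prop} (X : Matrix I J A) (h : ∀ i j, X i j ∈ gen D) :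
    Matrix I J (genRing D) := Matrix.of fun i j => ⟨X i j, h i j⟩

omit [Fintype I] [Fintype J] in
lemma liftMat_map {D : A → Prop} (X : Matrix I J A) (h : ∀ i j, X i j ∈ gen D) :
    (liftMat X h).map (genIncl D) = X := rfl

omit [Fintype I] [Fintype J] in
lemma map_incl_inj {D : A → Prop} {X Y : Matrix I J (genRing D)}
    (h : X.map (genIncl D) = Y.map (genIncl D)) : X = Y := by
  ext i j
  exact congrFun (congrFun h i) j

lemma V_incl_injective (D : A → Prop) : Function.Injective (V.map (genIncl D)) := by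
  intro a b h
  obtain ⟨e, rfl⟩ := Quotient.exists_rep a
  obtain ⟨f, rfl⟩ := Quotient.exists_rep b
  obtain ⟨x, y, h1, h2⟩ : MvN (e.mat.map (genIncl D)) (f.mat.map (genIncl D)) := Quotient.exact h
  have he : e.mat.map (genIncl D) * e.mat.map (genIncl D) = e.mat.map (genIncl D) := by
    rw [← Matrix.map_mul, e.idem]
  have hf : f.mat.map (genIncl D) * f.mat.map (genIncl D) = f.mat.map (genIncl D) := by
    rw [← Matrix.map_mul, f.idem]
  refine Quotient.sound (show MvN e.mat f.mat from
    ⟨liftMat (e.mat.map (genIncl D) * x) (gen_mat_right _ fun i j => (e.mat i j).2),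
      liftMat (f.mat.map (genIncl D) * y) (gen_mat_right _ fun i j => (f.mat i j).2), ?_, ?_⟩)
  · apply map_incl_inj
    rw [Matrix.map_mul, liftMat_map, liftMat_map]
    generalize e.mat.map (genIncl D) = E at *
    generalize f.mat.map (genIncl D) = F at *
    calc E * x * (F * y) = E * (x * y) * (x * y) := by
          rw [← h2]; simp only [Matrix.mul_assoc]
      _ = E := by rw [h1, he, he]
  · apply map_incl_inj
    rw [Matrix.map_mul, liftMat_map, liftMat_map]
    generalize e.mat.map (genIncl D) = E at *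
    generalize f.mat.map (genIncl D) = F at *
    calc F * y * (E * x) = F * (y * x) * (y * x) := by
          rw [← h1]; simp only [Matrix.mul_assoc]
      _ = F := by rw [h2, hf, hf]

lemma sub_idem {E G : Matrix I I A} (hE : E * E = E) (hG : G * G = G) (h1 : E * G = G)
    (h2 : G * E = G) : (E - G) * (E - G) = E - G := by
  rw [Matrix.sub_mul, Matrix.mul_sub, Matrix.mul_sub, hE, hG, h1, h2]; abel

/-- A subidempotent gives a summand. -/
lemma cl_split {E G : Matrix I I A} (hE : E * E = E) (hG : G * G = G) (h1 : E * G = G)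
    (h2 : G * E = G) : cl E hE = cl G hG + cl (E - G) (sub_idem hE hG h1 h2) := by
  rw [← cl_fromBlocks, cl_eq_iff]
  have a1 : G * (E - G) = 0 := by rw [Matrix.mul_sub, h2, hG, sub_self]
  have a2 : (E - G) * G = 0 := by rw [Matrix.sub_mul, h1, hG, sub_self]
  refine ⟨fromCols G (E - G), fromRows G (E - G), ?_, ?_⟩
  · rw [cols_mul_rows, hG, sub_idem hE hG h1 h2]; abel
  · rw [rows_mul_cols, hG, sub_idem hE hG h1 h2, a1, a2]

/-- Cancellation of equivalent subidempotents. -/
lemma mvn_cancel {E W : Matrix I I A} {F U : Matrix J J A} {x : Matrix I J A} {y : Matrix J I A}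
    (hxy : x * y = E) (hyx : y * x = F) (hP : E * E = E) (hQ : F * F = F) (hw : W * W = W)
    (hu' : U * U = U) (hle : E * W = W) (hle2 : W * E = W) (hle' : F * U = U) (hle2' : U * F = U)
    (hGu : y * W * x * U = U) (huG : U * (y * W * x) = y * W * x) : MvN (E - W) (F - U) := by
  have hxF : x * F = E * x := by rw [← hyx, ← hxy, Matrix.mul_assoc]
  have hFy : F * y = y * E := by rw [← hyx, ← hxy, Matrix.mul_assoc]
  refine ⟨(E - W) * x * (F - U), (F - U) * y * (E - W), ?_, ?_⟩
  · have a1 : (E - W) * x * U = 0 := by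
      rw [← hGu]
      calc (E - W) * x * (y * W * x * U) = (E - W) * (x * y) * W * x * U := by
            simp only [Matrix.mul_assoc]
        _ = 0 := by
            rw [hxy, Matrix.mul_assoc (E - W), hle, Matrix.sub_mul, hle, hw, sub_self]; simp
    have a2 : (E - W) * x * (F - U) = (E - W) * x := by
      rw [Matrix.mul_sub, a1, sub_zero, Matrix.mul_assoc, hxF, ← Matrix.mul_assoc,
        Matrix.sub_mul, hP, hle2]
    calc (E - W) * x * (F - U) * ((F - U) * y * (E - W))
        = (E - W) * x * (F - U) * (F - U) * y * (E - W) := by simp only [Matrix.mul_assoc]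
      _ = (E - W) * (x * y) * (E - W) := by rw [a2, a2]; simp only [Matrix.mul_assoc]
      _ = E - W := by
          rw [hxy, Matrix.sub_mul, hP, hle2, sub_idem hP hw hle hle2]
  · have a1 : (F - U) * y * W = 0 := by
      have : (F - U) * (y * W * x) = 0 := by
        rw [← huG, ← Matrix.mul_assoc, Matrix.sub_mul, hle', hu', sub_self, Matrix.zero_mul]
      calc (F - U) * y * W = (F - U) * y * (W * E) := by rw [hle2]
        _ = (F - U) * (y * W * x) * y := by rw [← hxy]; simp only [Matrix.mul_assoc]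
        _ = 0 := by rw [this, Matrix.zero_mul]
    have a2 : (F - U) * y * (E - W) = (F - U) * y := by
      rw [Matrix.mul_sub, a1, sub_zero, Matrix.mul_assoc, ← hFy, ← Matrix.mul_assoc,
        Matrix.sub_mul, hQ, hle2']
    calc (F - U) * y * (E - W) * ((E - W) * x * (F - U))
        = (F - U) * y * (E - W) * (E - W) * x * (F - U) := by simp only [Matrix.mul_assoc]
      _ = (F - U) * (y * x) * (F - U) := by rw [a2, a2]; simp only [Matrix.mul_assoc]
      _ = F - U := by
          rw [hyx, Matrix.sub_mul, hQ, hle2', sub_idem hQ hu' hle' hle2']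

end Gen

section Star

variable {A : Type u} [NonUnitalRing A] [StarRing A]

/-- A projection is an idempotent. -/
def forget (A : Type u) [NonUnitalRing A] [StarRing A] : Vs A →+ V A where
  toFun := Quotient.map (fun p => ⟨p.size, p.mat, p.idem⟩)
    fun _ _ h => by
      obtain ⟨v, h1, h2⟩ := h
      exact ⟨vᴴ, v, h1, h2⟩
  map_zero' := rfl
  map_add' a b := Quotient.inductionOn₂ a b fun _ _ => rfl

/-- The class of a projection. -/
def pc (p : Proj A) : Vs A := Quotient.mk _ p

lemma forget_mk (p : Proj A) : forget A (pc p) = cl p.mat p.idem :=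
  mk_eq_cl ⟨p.size, p.mat, p.idem⟩

lemma sub_herm {I : Type} {P Q : Matrix I I A} (hP : Pᴴ = P) (hQ : Qᴴ = Q) :
    (P - Q)ᴴ = P - Q := by rw [conjTranspose_sub, hP, hQ]

lemma le_symm' {I : Type} [Fintype I] {P Q : Matrix I I A} (hP : Pᴴ = P) (hQ : Qᴴ = Q)
    (h : P * Q = Q) : Q * P = Q := by
  have := congrArg conjTranspose h
  rwa [conjTranspose_mul, hP, hQ] at this

/-- A subprojection gives a summand. -/
lemma proj_split (P : Proj A) {Q : Matrix (Fin P.size) (Fin P.size) A} (hQ : Q * Q = Q)
    (hs : Qᴴ = Q) (h : P.mat * Q = Q) :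
    pc P = pc ⟨_, Q, hQ, hs⟩ +
      pc ⟨_, P.mat - Q, sub_idem P.idem hQ h (le_symm' P.herm hs h), sub_herm P.herm hs⟩ := by
  have h2 := le_symm' P.herm hs h
  have h3 := sub_idem P.idem hQ h h2
  have h4 := sub_herm P.herm hs
  have a1 : Q * (P.mat - Q) = 0 := by rw [Matrix.mul_sub, h2, hQ, sub_self]
  have a2 : (P.mat - Q) * Q = 0 := by rw [Matrix.sub_mul, h, hQ, sub_self]
  refine Quotient.sound (MvNs.trans P.idem (Proj.add _ _).idem
    (f := fromBlocks Q 0 0 (P.mat - Q)) ⟨fromRows Q (P.mat - Q), ?_, ?_⟩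
    (Proj.add_mvn ⟨_, Q, hQ, hs⟩ ⟨_, P.mat - Q, h3, h4⟩).symm)
  · rw [conjTranspose_fromRows_eq_fromCols_conjTranspose, hs, h4, cols_mul_rows, hQ, h3]; abel
  · rw [conjTranspose_fromRows_eq_fromCols_conjTranspose, hs, h4, rows_mul_cols, hQ, h3, a1, a2]

lemma pc_zero (P : Proj A) (h : P.mat = 0) : pc P = 0 :=
  Quotient.sound (show MvNs P.mat (0 : Matrix (Fin 0) (Fin 0) A) from
    ⟨0, by rw [h]; simp, by ext i; exact i.elim0⟩)

/-- The range projection of a column with source `e` has the class of `e`. -/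
lemma col_idem {I : Type} [Fintype I] {e : A} {w : Matrix I (Fin 1) A}
    (h1 : wᴴ * w = one11 e) (h2 : w * one11 e = w) : w * wᴴ * (w * wᴴ) = w * wᴴ := by
  calc w * wᴴ * (w * wᴴ) = w * (wᴴ * w) * wᴴ := by simp only [Matrix.mul_assoc]
    _ = w * wᴴ := by rw [h1, h2]

lemma col_herm {I : Type} {w : Matrix I (Fin 1) A} : (w * wᴴ)ᴴ = w * wᴴ := by
  rw [conjTranspose_mul, conjTranspose_conjTranspose]

lemma pc_col {k : ℕ} {e : A} (he : IsStarProjection e) {w : Matrix (Fin k) (Fin 1) A}
    (h1 : wᴴ * w = one11 e) (h2 : w * one11 e = w) :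
    pc ⟨k, w * wᴴ, col_idem h1 h2, col_herm⟩ = cs e he :=
  (Quotient.sound (show MvNs (one11 e) (w * wᴴ) from ⟨w, h1, rfl⟩)).symm

end Star

section CStar

variable {A : Type u} [NonUnitalCStarAlgebra A]

/-- Minimal projections. -/
def MinP (e : A) : Prop := IsStarProjection e ∧ e ≠ 0 ∧ ∀ x : A, ∃ z : ℂ, e * x * e = z • e

lemma one11_idem {e : A} (he : MinP e) : one11 e * one11 e = one11 e := by
  rw [one11_mul, he.1.isIdempotentElem.eq]

/-- A nonzero column fixed by a minimal projection can be normalised. -/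
lemma col_normalize {I : Type} [Fintype I] {e : A} (he : MinP e) (u : Matrix I (Fin 1) A)
    (hu : u * one11 e = u) (h0 : u ≠ 0) :
    ∃ c : ℂ, c ≠ 0 ∧ (c • u)ᴴ * (c • u) = one11 e := by
  let _ := CStarAlgebra.spectralOrder A
  have _ := CStarAlgebra.spectralOrderedRing A
  set y : A := (uᴴ * u) 0 0 with hy
  have hys : y = ∑ i, star (u i 0) * u i 0 := by simp [hy, Matrix.mul_apply]
  have hpos : 0 ≤ y := hys ▸ Finset.sum_nonneg fun i _ => star_mul_self_nonneg _
  have hne : y ≠ 0 := by
    intro h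
    rw [hys, Finset.sum_eq_zero_iff_of_nonneg fun i _ => star_mul_self_nonneg _] at h
    apply h0
    ext i j
    rw [Subsingleton.elim j 0]
    exact (CStarRing.star_mul_self_eq_zero_iff _).1 (h i (Finset.mem_univ _))
  have hm : uᴴ * u = one11 y := eq_one11 _
  have hes : star e = e := he.1.isSelfAdjoint.star_eq
  have hey : e * y * e = y := by
    apply one11_inj
    rw [← one11_mul, ← one11_mul, ← hm]
    have : one11 e * uᴴ = uᴴ := by
      conv_rhs => rw [← hu, conjTranspose_mul, one11_star, hes]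
    rw [← Matrix.mul_assoc, this, Matrix.mul_assoc, hu]
  obtain ⟨z, hz⟩ := he.2.2 y
  rw [hey] at hz
  have hzs : star z = z := by
    have h1 : star y = y := hpos.isSelfAdjoint.star_eq
    rw [hz, star_smul, hes] at h1
    exact smul_left_injective ℂ he.2.1 h1
  obtain ⟨t, rfl⟩ : ∃ t : ℝ, z = t := ⟨z.re, (Complex.conj_eq_iff_re.1 hzs).symm⟩
  have he0 : (0 : A) ≤ e := he.1.nonneg
  have ht : 0 < t := by
    by_contra hcon
    push Not at hcon
    have : 0 ≤ -y := by
      rw [hz, ← neg_smul, ← Complex.ofReal_neg, Complex.coe_smul]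
      exact smul_nonneg (by linarith) he0
    exact hne (le_antisymm (neg_nonneg.1 this) hpos)
  have hs : 0 < Real.sqrt t := Real.sqrt_pos.2 ht
  refine ⟨((Real.sqrt t)⁻¹ : ℝ), by exact_mod_cast (inv_pos.2 hs).ne', ?_⟩
  rw [conjTranspose_smul, Matrix.smul_mul, Matrix.mul_smul, hm, smul_smul]
  ext i j
  simp only [one11, Matrix.smul_apply, of_apply]
  rw [hz, smul_smul]
  have : star (((Real.sqrt t)⁻¹ : ℝ) : ℂ) * ((Real.sqrt t)⁻¹ : ℝ) * (t : ℂ) = 1 := by
    rw [Complex.star_def, Complex.conj_ofReal]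
    have : ((Real.sqrt t)⁻¹ * (Real.sqrt t)⁻¹ * t : ℝ) = 1 := by
      have := Real.mul_self_sqrt ht.le
      field_simp
      linarith
    exact_mod_cast this
  rw [this, one_smul]

variable (hA : IsRR0 A) (d : Vs A →+ ℕ) (hd : ∀ x, d x = 0 → x = 0)
include hA hd

lemma exists_min_le {p : A} (hp : IsStarProjection p) (h0 : p ≠ 0) :
    ∃ e : A, MinP e ∧ p * e = e := by
  classical
  let _ := CStarAlgebra.spectralOrder A
  have _ := CStarAlgebra.spectralOrderedRing A
  have ex : ∃ n : ℕ, ∃ (r : A) (hr : IsStarProjection r), r ≠ 0 ∧ p * r = r ∧ d (cs r hr) = n :=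
    ⟨_, p, hp, h0, hp.isIdempotentElem.eq, rfl⟩
  obtain ⟨e, he, he0, hpe, hn⟩ := Nat.find_spec ex
  refine ⟨e, ⟨he, he0, fun x => ?_⟩, hpe⟩
  have hee := he.isIdempotentElem.eq
  refine corner_scalar hA he.isSelfAdjoint.star_eq hee he0 ?_ _
    (by rw [← mul_assoc, ← mul_assoc, hee]) (by rw [mul_assoc _ e e, hee])
  intro r s hr1 hr2 hs1 hs2 her hes hrs
  by_contra hcon
  push Not at hcon
  have hr : IsStarProjection r := ⟨hr2, hr1⟩
  obtain ⟨hq, k⟩ := cs_of_le he hr her
  have hlt : d (cs r hr) < Nat.find ex := by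
    rw [← hn, k, map_add]
    have : d (cs (e - r) hq) ≠ 0 := fun h => by
      have h1 : e - r = 0 := cs_eq_zero hq (hd _ h)
      have h2 : e = r := sub_eq_zero.1 h1
      rw [h2, hrs] at hes
      exact hcon.2 hes.symm
    omega
  exact Nat.find_min ex hlt ⟨r, hr, hcon.1, by rw [← her, ← mul_assoc, hpe], rfl⟩

/-- A nonzero projection matrix fixes a column whose source is a minimal projection. -/
lemma exists_min_col {I : Type} [Fintype I] {P : Matrix I I A} (hP : P * P = P)
    (h0 : P ≠ 0) : ∃ (e : A) (w : Matrix I (Fin 1) A), MinP e ∧ P * w = w ∧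
      wᴴ * w = one11 e ∧ w * one11 e = w := by
  let _ := CStarAlgebra.spectralOrder A
  have _ := CStarAlgebra.spectralOrderedRing A
  obtain ⟨i, j, hij⟩ : ∃ i j, P i j ≠ 0 := by
    by_contra hcon
    push Not at hcon
    exact h0 (by ext i j; exact hcon i j)
  let v : Matrix I (Fin 1) A := Matrix.of fun i _ => P i j
  have hPv : P * v = v := by
    ext a b
    have := congrFun (congrFun hP a) j
    simpa [v, Matrix.mul_apply] using this
  set y : A := (vᴴ * v) 0 0 with hy
  have hys : y = ∑ i, star (v i 0) * v i 0 := by simp [hy, Matrix.mul_apply]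
  have hpos : 0 ≤ y := hys ▸ Finset.sum_nonneg fun i _ => star_mul_self_nonneg _
  have hne : y ≠ 0 := by
    intro h
    rw [hys, Finset.sum_eq_zero_iff_of_nonneg fun i _ => star_mul_self_nonneg _] at h
    exact hij ((CStarRing.star_mul_self_eq_zero_iff _).1 (h i (Finset.mem_univ _)))
  have hm : vᴴ * v = one11 y := eq_one11 _
  have hsq : star (CFC.sqrt y) * CFC.sqrt y = y := by
    rw [(CFC.sqrt_nonneg y).isSelfAdjoint.star_eq, CFC.sqrt_mul_sqrt_self y hpos]
  have hs0 : CFC.sqrt y ≠ 0 := fun h => hne (by rw [← hsq, h, mul_zero])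
  obtain ⟨c, -, h1, h2, -⟩ := exists_pi hA _ _ hs0 le_rfl
  obtain ⟨e, he, hpe⟩ := exists_min_le hA d hd (proj_source h2) h1
  have hc : star (CFC.sqrt y * c) * (CFC.sqrt y * c) = star c * y * c := by
    rw [star_mul, mul_assoc, ← mul_assoc (star (CFC.sqrt y)), hsq, mul_assoc]
  rw [hc] at hpe
  refine ⟨e, v * one11 (c * e), he, by rw [← Matrix.mul_assoc, hPv], ?_, ?_⟩
  · rw [conjTranspose_mul, one11_star, Matrix.mul_assoc, ← Matrix.mul_assoc vᴴ, hm, one11_mul,
      one11_mul, star_mul, he.1.isSelfAdjoint.star_eq]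
    congr 1
    calc e * star c * (y * (c * e)) = e * (star c * y * c * e) := by simp only [mul_assoc]
      _ = e := by rw [hpe, he.1.isIdempotentElem.eq]
  · rw [Matrix.mul_assoc, one11_mul, mul_assoc, he.1.isIdempotentElem.eq]

omit hA in
lemma deg_cs_pos {e : A} (he : MinP e) : 0 < d (cs e he.1) :=
  Nat.pos_of_ne_zero fun h => he.2.1 (cs_eq_zero _ (hd _ h))

/-- The entries of a projection matrix are sums of elements of rank one. -/
lemma proj_entries (n : ℕ) : ∀ P : Proj A, d (pc P) ≤ n → ∀ i j, P.mat i j ∈ gen MinP := by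
  induction n using Nat.strong_induction_on with
  | _ n ih =>
  intro P hn i j
  by_cases h0 : P.mat = 0
  · rw [h0]; exact zero_mem _
  obtain ⟨e, w, he, h1, h2, h3⟩ := exists_min_col hA d hd P.idem h0
  have hle : P.mat * (w * wᴴ) = w * wᴴ := by rw [← Matrix.mul_assoc, h1]
  have k := proj_split P (col_idem h2 h3) col_herm hle
  rw [pc_col he.1 h2 h3] at k
  have hp := deg_cs_pos d hd he
  rw [k, map_add] at hn
  have := ih _ (lt_of_lt_of_le (Nat.lt_add_of_pos_left hp) hn) _ le_rfl i j
  have h4 : (w * wᴴ) i j ∈ gen MinP := by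
    rw [← h3, Matrix.mul_assoc]
    refine gen_mat_left _ (gen_mat_right _ fun _ _ => ?_) i j
    have := gen_mem (D := MinP) he e e
    rwa [he.1.isIdempotentElem.eq, he.1.isIdempotentElem.eq] at this
  have h5 : P.mat i j = (P.mat - w * wᴴ) i j + (w * wᴴ) i j := by simp
  rw [h5]
  exact add_mem this h4

lemma gen_proj_le {x : A} (hx : x ∈ gen (IsStarProjection (R := A))) : x ∈ gen MinP := by
  induction hx using AddSubmonoid.closure_induction with
  | mem x hx =>
    obtain ⟨a, p, b, h, rfl⟩ := hx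
    refine gen_mul_right _ (gen_mul_left _ ?_)
    exact proj_entries hA d hd _ ⟨1, one11 p, by rw [one11_mul, h.isIdempotentElem.eq],
      by rw [one11_star, h.isSelfAdjoint.star_eq]⟩ le_rfl 0 0
  | zero => simp
  | add x y _ _ hx hy => exact add_mem hx hy

omit hA hd in
lemma gen_min_le {x : A} (hx : x ∈ gen MinP) : x ∈ gen (IsStarProjection (R := A)) := by
  refine AddSubmonoid.closure_mono ?_ hx
  rintro _ ⟨a, p, b, h, e⟩
  exact ⟨a, p, b, h.1, e⟩

/-- Algebraically equivalent projections are equivalent. -/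
lemma pc_eq_of_mvn (n : ℕ) : ∀ P Q : Proj A, d (pc P) ≤ n → MvN P.mat Q.mat → pc P = pc Q := by
  induction n using Nat.strong_induction_on with
  | _ n ih =>
  rintro P Q hn ⟨x, y, hxy, hyx⟩
  have hP := P.idem
  have hQ := Q.idem
  by_cases h0 : P.mat = 0
  · have : Q.mat = 0 := by
      calc Q.mat = y * (x * y) * x := by
            rw [← hQ]; conv_lhs => rw [← hyx]
            simp only [Matrix.mul_assoc]
        _ = 0 := by rw [hxy, h0]; simp
    rw [pc_zero P h0, pc_zero Q this]
  obtain ⟨e, w, he, h1, h2, h3⟩ := exists_min_col hA d hd P.idem h0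
  have hle : P.mat * (w * wᴴ) = w * wᴴ := by rw [← Matrix.mul_assoc, h1]
  have k := proj_split P (col_idem h2 h3) col_herm hle
  rw [pc_col he.1 h2 h3] at k
  have hp := deg_cs_pos d hd he
  have hxu : x * (y * w) = w := by rw [← Matrix.mul_assoc, hxy, h1]
  have hu0 : y * w ≠ 0 := fun h => by
    rw [h, Matrix.mul_zero] at hxu
    rw [← hxu, Matrix.mul_zero] at h2
    exact he.2.1 (congrFun (congrFun h2 0) 0).symm
  obtain ⟨c, hc, hc2⟩ := col_normalize he (y * w) (by rw [Matrix.mul_assoc, h3]) hu0
  set u := c • (y * w) with hu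
  have hue : u * one11 e = u := by rw [hu, Matrix.smul_mul, Matrix.mul_assoc, h3]
  have hQu : Q.mat * u = u := by
    rw [hu, Matrix.mul_smul, ← hyx, Matrix.mul_assoc, hxu]
  have hle' : Q.mat * (u * uᴴ) = u * uᴴ := by rw [← Matrix.mul_assoc, hQu]
  have k' := proj_split Q (col_idem hc2 hue) col_herm hle'
  rw [pc_col he.1 hc2 hue] at k'
  rw [k, map_add] at hn
  rw [k, k']
  congr 1
  refine ih _ (lt_of_lt_of_le (Nat.lt_add_of_pos_left hp) hn) _ _ le_rfl ?_
  show MvN (P.mat - w * wᴴ) (Q.mat - u * uᴴ)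
  have hle2 := le_symm' P.herm col_herm hle
  have hle2' := le_symm' Q.herm col_herm hle'
  have hw := col_idem h2 h3
  have hu' := col_idem hc2 hue
  have hGu : y * (w * wᴴ) * x * (u * uᴴ) = u * uᴴ := by
    have : y * (w * wᴴ) * x * u = u := by
      rw [hu, Matrix.mul_smul, Matrix.mul_assoc, hxu, Matrix.mul_assoc, Matrix.mul_assoc, h2, h3]
    rw [← Matrix.mul_assoc, this]
  have huG : u * uᴴ * (y * (w * wᴴ) * x) = y * (w * wᴴ) * x := by
    have h5 : u * uᴴ * u = u := by rw [Matrix.mul_assoc, hc2, hue]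
    have h6 : y * w = c⁻¹ • u := by rw [hu, smul_smul, inv_mul_cancel₀ hc, one_smul]
    have : u * uᴴ * (y * w) = y * w := by rw [h6, Matrix.mul_smul, h5]
    calc u * uᴴ * (y * (w * wᴴ) * x) = u * uᴴ * (y * w) * wᴴ * x := by
          simp only [Matrix.mul_assoc]
      _ = _ := by rw [this]; simp only [Matrix.mul_assoc]
  exact mvn_cancel hxy hyx hP hQ hw hu' hle hle2 hle' hle2' hGu huG

lemma forget_injective : Function.Injective (forget A) := by
  intro a b h
  obtain ⟨P, rfl⟩ := Quotient.exists_rep a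
  obtain ⟨Q, rfl⟩ := Quotient.exists_rep b
  exact pc_eq_of_mvn hA d hd _ P Q le_rfl (Quotient.exact h)

omit hA hd in
/-- An idempotent matrix that is a sum of matrices of rank one is equivalent to a projection. -/
lemma cl_mem_range {I : Type} [Fintype I] (l : List (Matrix I I A)) :
    (∀ X ∈ l, ∃ (e : A) (u : Matrix I (Fin 1) A) (v : Matrix (Fin 1) I A),
      MinP e ∧ X = u * one11 e * v) →
    ∀ (E : Matrix I I A) (hE : E * E = E), E = E * l.sum → cl E hE ∈ AddMonoidHom.mrange (forget A) := by
  induction l with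
  | nil =>
    intro _ E hE h
    refine ⟨0, ?_⟩
    rw [map_zero]
    rw [List.sum_nil, Matrix.mul_zero] at h
    subst h
    exact ((mk_eq_cl (R := A) ⟨0, 0, by simp⟩).trans ((cl_eq_iff _ _).2
      ⟨0, 0, by ext i; exact i.elim0, by simp⟩))
  | cons X l ih =>
    intro hl E hE h
    obtain ⟨e, u, v, he, rfl⟩ := hl X List.mem_cons_self
    have ih' := ih fun Y hY => hl Y (List.mem_cons_of_mem _ hY)
    rw [List.sum_cons, Matrix.mul_add] at h
    have hee := one11_idem he
    by_cases h0 : E * u * one11 e = 0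
    · refine ih' E hE ?_
      rwa [← Matrix.mul_assoc, ← Matrix.mul_assoc, h0, Matrix.zero_mul, zero_add] at h
    obtain ⟨c, hc, hc2⟩ := col_normalize he _ (by rw [Matrix.mul_assoc, hee]) h0
    set w := c • (E * u * one11 e) with hw
    have hwe : w * one11 e = w := by rw [hw, Matrix.smul_mul, Matrix.mul_assoc, hee]
    have hEw : E * w = w := by
      rw [hw, Matrix.mul_smul, ← Matrix.mul_assoc, ← Matrix.mul_assoc, hE]
    have hρ : wᴴ * E * w = one11 e := by rw [Matrix.mul_assoc, hEw, hc2]
    have hG : w * (wᴴ * E) * (w * (wᴴ * E)) = w * (wᴴ * E) := by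
      calc w * (wᴴ * E) * (w * (wᴴ * E)) = w * (wᴴ * E * w) * (wᴴ * E) := by
            simp only [Matrix.mul_assoc]
        _ = _ := by rw [hρ, hwe]
    have h1 : E * (w * (wᴴ * E)) = w * (wᴴ * E) := by rw [← Matrix.mul_assoc, hEw]
    have h2 : w * (wᴴ * E) * E = w * (wᴴ * E) := by
      rw [Matrix.mul_assoc, Matrix.mul_assoc, hE]
    rw [cl_split hE hG h1 h2]
    refine add_mem ⟨cs e he.1, ?_⟩ (ih' _ _ ?_)
    · exact (forget_mk _).trans ((cl_eq_iff _ _).2 ⟨wᴴ * E, w, hρ, rfl⟩)
    · have h3 : (E - w * (wᴴ * E)) * E = E - w * (wᴴ * E) := by rw [Matrix.sub_mul, hE, h2]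
      have h4 : (E - w * (wᴴ * E)) * w = 0 := by
        rw [Matrix.sub_mul, hEw, Matrix.mul_assoc, hρ, hwe, sub_self]
      have h5 : E * u * one11 e = c⁻¹ • w := by
        rw [hw, smul_smul, inv_mul_cancel₀ hc, one_smul]
      generalize E - w * (wᴴ * E) = F at *
      calc F = F * E := h3.symm
        _ = F * (E * u * one11 e) * v + F * E * l.sum := by
            conv_lhs => rw [h]
            simp only [Matrix.mul_add, Matrix.mul_assoc]
        _ = F * l.sum := by
            rw [h5, Matrix.mul_smul, h4, h3, smul_zero, Matrix.zero_mul, zero_add]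

omit hA hd in
lemma cl_mem_range' {I : Type} [Fintype I] (E : Matrix I I A) (hE : E * E = E)
    (h : ∀ i j, E i j ∈ gen MinP) : cl E hE ∈ AddMonoidHom.mrange (forget A) := by
  classical
  let T : AddSubmonoid (Matrix I I A) := AddSubmonoid.closure
    {X | ∃ (e : A) (u : Matrix I (Fin 1) A) (v : Matrix (Fin 1) I A), MinP e ∧ X = u * one11 e * v}
  have key : ∀ (i j : I) (x : A), x ∈ gen MinP → Matrix.single i j x ∈ T := by
    intro i j x hx
    induction hx using AddSubmonoid.closure_induction with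
    | mem x hx =>
      obtain ⟨a, p, b, hp, rfl⟩ := hx
      refine AddSubmonoid.subset_closure ⟨p, Matrix.single i 0 a, Matrix.single 0 j b, hp, ?_⟩
      ext i' j'
      simp only [Matrix.mul_apply, Fin.sum_univ_one, one11, of_apply, Matrix.single, Fin.isValue,
        and_true, true_and]
      by_cases h1 : i = i' <;> by_cases h2 : j = j' <;> simp [h1, h2]
    | zero => rw [Matrix.single_zero]; exact zero_mem _
    | add x y _ _ hx hy => rw [Matrix.single_add]; exact add_mem hx hy
  have hT : E ∈ T := by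
    rw [Matrix.matrix_eq_sum_single E]
    exact sum_mem fun i _ => sum_mem fun j _ => key i j _ (h i j)
  obtain ⟨l, hl, hs⟩ := AddSubmonoid.exists_list_of_mem_closure hT
  exact cl_mem_range l hl E hE (by rw [hs, hE])

omit hA hd in
lemma rank_one_regular {e : A} (he : MinP e) (a b : A) :
    ∃ y : A, a * e * b * y * (a * e * b) = a * e * b := by
  by_cases h0 : a * e * b = 0
  · exact ⟨0, by simp [h0]⟩
  obtain ⟨z, hz⟩ := he.2.2 (b * star (a * e * b) * a)
  have h1 : a * e * b * star (a * e * b) * (a * e * b) = z • (a * e * b) := by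
    calc a * e * b * star (a * e * b) * (a * e * b)
        = a * (e * (b * star (a * e * b) * a) * e) * b := by simp only [mul_assoc]
      _ = _ := by rw [hz, mul_smul_comm, smul_mul_assoc]
  generalize a * e * b = t at *
  have hz0 : z ≠ 0 := by
    rintro rfl
    rw [zero_smul] at h1
    have : star (star t * t) * (star t * t) = 0 := by
      rw [star_mul, star_star, mul_assoc, ← mul_assoc t, h1, mul_zero]
    exact h0 ((CStarRing.star_mul_self_eq_zero_iff _).1
      ((CStarRing.star_mul_self_eq_zero_iff _).1 this))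
  exact ⟨z⁻¹ • star t, by
    rw [mul_smul_comm, smul_mul_assoc, h1, smul_smul, inv_mul_cancel₀ hz0, one_smul]⟩

omit hA hd in
lemma list_regular (n : ℕ) : ∀ l : List A, l.length = n →
    (∀ t ∈ l, ∃ a e b, MinP e ∧ t = a * e * b) → ∃ y, l.sum * y * l.sum = l.sum := by
  induction n with
  | zero =>
    intro l hl _
    rw [List.length_eq_zero_iff.1 hl]
    exact ⟨0, by simp⟩
  | succ n ih =>
    intro l hl h
    obtain ⟨t, l, rfl⟩ := List.exists_cons_of_length_eq_add_one hl
    obtain ⟨a, e, b, he, ht⟩ := h t List.mem_cons_self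
    obtain ⟨y, hy⟩ := rank_one_regular he a b
    rw [← ht] at hy
    have hsum : ∀ m : List A, (m.map fun s => s - t * y * s).sum = m.sum - t * y * m.sum := by
      intro m
      induction m with
      | nil => simp
      | cons s m ihm => simp only [List.map_cons, List.sum_cons, ihm, mul_add]; abel
    obtain ⟨z, hz⟩ := ih (l.map fun s => s - t * y * s) (by simpa using hl) (by
      intro s hs
      obtain ⟨s, hs', rfl⟩ := List.mem_map.1 hs
      obtain ⟨a', e', b', he', rfl⟩ := h s (List.mem_cons_of_mem _ hs')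
      exact ⟨a' - t * y * a', e', b', he', by simp only [sub_mul, mul_assoc]⟩)
    rw [hsum] at hz
    rw [List.sum_cons]
    have hu : l.sum - t * y * l.sum = (t + l.sum) - t * y * (t + l.sum) := by
      rw [mul_add, hy]; abel
    rw [hu] at hz
    generalize t + l.sum = x at *
    have hd1 : x - x * (z - z * (t * y)) * x = t * (y * (x - x * (z - z * (t * y)) * x)) := by
      have : (x - t * y * x) - (x - t * y * x) * z * (x - t * y * x) = 0 := by rw [hz, sub_self]
      rw [← sub_eq_zero, ← this]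
      noncomm_ring
    generalize z - z * (t * y) = z' at *
    obtain ⟨s, hs⟩ := rank_one_regular he a (b * (y * (x - x * z' * x)))
    have : a * e * (b * (y * (x - x * z' * x))) = x - x * z' * x := by
      rw [← mul_assoc, ← ht, ← hd1]
    rw [this] at hs
    refine ⟨z' + s - z' * x * s - s * x * z' + z' * x * s * x * z', ?_⟩
    rw [← sub_eq_zero, ← sub_eq_zero.2 hs]
    noncomm_ring

/-- The ideal spanned by the projections is a regular ring. -/
lemma soc_regular (a : genRing (IsStarProjection (R := A))) : ∃ x, a * x * a = a := by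
  obtain ⟨l, hl, hs⟩ := AddSubmonoid.exists_list_of_mem_closure (gen_proj_le hA d hd a.2)
  obtain ⟨y, hy⟩ := list_regular _ l rfl hl
  rw [hs] at hy
  refine ⟨⟨y * a * y, gen_mul_right _ (gen_mul_left _ a.2)⟩, Subtype.ext ?_⟩
  show (a : A) * (y * a * y) * a = a
  calc (a : A) * (y * a * y) * a = a * y * a * y * a := by simp only [mul_assoc]
    _ = a := by rw [hy, hy]

/-- The monoids `V` of the ideal and of the algebra are identified inside the monoid of
idempotents of the algebra. -/
lemma exists_soc_equiv : ∃ θ : V (genRing (IsStarProjection (R := A))) ≃+ Vs A,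
    ∀ x, forget A (θ x) = V.map (genIncl _) x := by
  have h1 : ∀ x : V (genRing (IsStarProjection (R := A))), ∃ y, forget A y = V.map (genIncl _) x := by
    intro x
    obtain ⟨e, rfl⟩ := Quotient.exists_rep x
    obtain ⟨y, hy⟩ := cl_mem_range' (e.map (genIncl _)).mat (e.map (genIncl _)).idem
      fun i j => gen_proj_le hA d hd (e.mat i j).2
    exact ⟨y, hy.trans (mk_eq_cl _).symm⟩
  choose f hf using h1
  have inj := forget_injective hA d hd
  let F : V (genRing (IsStarProjection (R := A))) →+ Vs A :=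
    { toFun := f
      map_zero' := inj (by rw [hf, map_zero, map_zero])
      map_add' := fun a b => inj (by rw [hf, map_add, map_add, hf, hf]) }
  refine ⟨AddEquiv.ofBijective F ⟨fun a b h => V_incl_injective _ ?_, fun y => ?_⟩, hf⟩
  · rw [← hf, ← hf]; exact congrArg _ h
  · obtain ⟨P, rfl⟩ := Quotient.exists_rep y
    have hP : ∀ i j, P.mat i j ∈ gen (IsStarProjection (R := A)) :=
      fun i j => gen_min_le (proj_entries hA d hd _ P le_rfl i j)
    refine ⟨Quotient.mk _ ⟨P.size, liftMat P.mat hP, map_incl_inj ?_⟩, inj ?_⟩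
    · rw [Matrix.map_mul, liftMat_map, P.idem]
    · exact hf _

end CStar

end Pool.Agent.Lib.MP_a87542_al
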