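import Pool.Agent.Lib.MP_a87542_al.Diagram

/-!
The rings of `subDiagram` are the given subalgebras and its maps are the inclusions.
-/

namespace Pool.Agent.Lib.MP_a87542_al

open CategoryTheory

universe u

lemma subDiagram_sub {K : Type u} [Field K] {B : Type u} [Ring B] [Algebra K B] {P : Type}
    [Preorder P] (S : P → Subalgebra K B) (hS : ∀ p q, p ≤ q → S p ≤ S q)
    (hr : ∀ p, ∀ a : S p, ∃ b : S p, a * b * a = a) :
    ∃ e : ∀ p, ((subDiagram S hS hr).obj p).carrier ≃+* S p,
      ∀ (p q : P) (h : p ⟶ q) (a : ((subDiagram S hS hr).obj p).carrier),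
        (e q ((show ((subDiagram S hS hr).obj p).carrier →ₙ+*
          ((subDiagram S hS hr).obj q).carrier from (subDiagram S hS hr).map h) a)).1 =
          (e p a).1 :=
  ⟨fun _ => RingEquiv.refl _, fun _ _ _ _ => rfl⟩

end Pool.Agent.Lib.MP_a87542_al
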